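import Mathlib

open Polynomial

namespace MarkovBound

/-- factor of the Lagrange basis polynomial at `1` for the nodes `4 j ^ 2` -/
noncomputable def fac (l j : ℕ) : ℝ :=
  if j = l then 1 else |(1 : ℝ) - 4 * (j : ℝ) ^ 2| / |4 * (l : ℝ) ^ 2 - 4 * (j : ℝ) ^ 2|

noncomputable def bnd (l k : ℕ) : ℝ :=
  2 * ((l + k).factorial : ℝ) ^ 2 / ((k.factorial : ℝ) * ((2 * l + k).factorial : ℝ))

lemma bnd_le_two (l k : ℕ) : bnd l k ≤ 2 := by
  unfold bnd
  have h := Nat.choose_le_centralBinom k (l + k)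
  have h1 : (Nat.centralBinom (l + k) : ℝ) * (((l + k).factorial : ℝ) * ((l + k).factorial : ℝ))
      = ((2 * (l + k)).factorial : ℝ) := by
    have := Nat.choose_mul_factorial_mul_factorial (n := 2 * (l + k)) (k := l + k) (by omega)
    have e : 2 * (l + k) - (l + k) = l + k := by omega
    rw [e] at this
    rw [Nat.centralBinom_eq_two_mul_choose, ← mul_assoc]
    exact_mod_cast this
  have h2 : ((2 * (l + k)).choose k : ℝ) * ((k.factorial : ℝ) * ((2 * l + k).factorial : ℝ))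
      = ((2 * (l + k)).factorial : ℝ) := by
    have := Nat.choose_mul_factorial_mul_factorial (n := 2 * (l + k)) (k := k) (by omega)
    have e : 2 * (l + k) - k = 2 * l + k := by omega
    rw [e] at this
    rw [← mul_assoc]
    exact_mod_cast this
  have h3 : ((2 * (l + k)).choose k : ℝ) ≤ (Nat.centralBinom (l + k) : ℝ) := by exact_mod_cast h
  have hc : 0 < (Nat.centralBinom (l + k) : ℝ) := by exact_mod_cast Nat.centralBinom_pos _
  have hp : 0 < ((k.factorial : ℝ) * ((2 * l + k).factorial : ℝ)) := by positivity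
  rw [div_le_iff₀ hp]
  have h4 : ((l + k).factorial : ℝ) ^ 2 ≤ ((k.factorial : ℝ) * ((2 * l + k).factorial : ℝ)) := by
    have h5 : (Nat.centralBinom (l + k) : ℝ) * ((l + k).factorial : ℝ) ^ 2 ≤
        (Nat.centralBinom (l + k) : ℝ) * ((k.factorial : ℝ) * ((2 * l + k).factorial : ℝ)) := by
      calc (Nat.centralBinom (l + k) : ℝ) * ((l + k).factorial : ℝ) ^ 2
          = ((2 * (l + k)).factorial : ℝ) := by rw [← h1]; ring
        _ = ((2 * (l + k)).choose k : ℝ) * ((k.factorial : ℝ) * ((2 * l + k).factorial : ℝ)) :=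
            h2.symm
        _ ≤ _ := by gcongr
    exact le_of_mul_le_mul_left h5 hc
  linarith

lemma bnd_succ (l k : ℕ) :
    bnd l (k + 1) = bnd l k * (((l : ℝ) + k + 1) ^ 2 / (((k : ℝ) + 1) * (2 * l + k + 1))) := by
  unfold bnd
  have e1 : l + (k + 1) = (l + k) + 1 := by ring
  have e2 : 2 * l + (k + 1) = (2 * l + k) + 1 := by ring
  rw [e1, e2, Nat.factorial_succ, Nat.factorial_succ, Nat.factorial_succ]
  push_cast
  have h1 : (k.factorial : ℝ) ≠ 0 := by positivity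
  have h2 : ((2 * l + k).factorial : ℝ) ≠ 0 := by positivity
  have h3 : ((k : ℝ) + 1) ≠ 0 := by positivity
  have h4 : (2 * (l : ℝ) + k + 1) ≠ 0 := by positivity
  field_simp

lemma fac_nonneg (l j : ℕ) : 0 ≤ fac l j := by
  unfold fac; split_ifs <;> positivity

lemma fac_ge {l k : ℕ} : fac l (l + 1 + k) ≤
    ((l : ℝ) + k + 1) ^ 2 / (((k : ℝ) + 1) * (2 * l + k + 1)) := by
  unfold fac
  rw [if_neg (by omega)]
  push_cast
  have h1 : |(1 : ℝ) - 4 * ((l : ℝ) + 1 + k) ^ 2| ≤ 4 * ((l : ℝ) + k + 1) ^ 2 := by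
    rw [abs_le]
    constructor
    · nlinarith
    · have : (0 : ℝ) ≤ l := by positivity
      have : (0 : ℝ) ≤ k := by positivity
      nlinarith
  have h2 : |4 * (l : ℝ) ^ 2 - 4 * ((l : ℝ) + 1 + k) ^ 2| =
      4 * (((k : ℝ) + 1) * (2 * l + k + 1)) := by
    rw [abs_of_nonpos]
    · ring
    · have : (0 : ℝ) ≤ l := by positivity
      have : (0 : ℝ) ≤ k := by positivity
      nlinarith
  rw [h2]
  have h3 : (0 : ℝ) < ((k : ℝ) + 1) * (2 * l + k + 1) := by positivity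
  calc _ ≤ (4 * ((l : ℝ) + k + 1) ^ 2) / (4 * (((k : ℝ) + 1) * (2 * l + k + 1))) := by gcongr
    _ = _ := by
      rw [mul_div_mul_left _ _ (by norm_num)]

lemma fac_lt {a j : ℕ} (hj : j < a) : fac (a + 1) (j + 1) ≤
    ((j : ℝ) + 1) ^ 2 / (((a - j : ℕ) : ℝ) * ((a + 2 + j : ℕ) : ℝ)) := by
  unfold fac
  rw [if_neg (by omega)]
  rw [Nat.cast_sub hj.le]
  push_cast
  have hj' : (j : ℝ) < a := by exact_mod_cast hj
  have h0 : (0 : ℝ) ≤ j := by positivity
  have h1 : |(1 : ℝ) - 4 * ((j : ℝ) + 1) ^ 2| ≤ 4 * ((j : ℝ) + 1) ^ 2 := by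
    rw [abs_le]
    constructor
    · nlinarith
    · nlinarith
  have h2 : |4 * ((a : ℝ) + 1) ^ 2 - 4 * ((j : ℝ) + 1) ^ 2| =
      4 * (((a : ℝ) - j) * (a + 2 + j)) := by
    rw [abs_of_nonneg]
    · ring
    · nlinarith
  rw [h2]
  have h3 : (0 : ℝ) < ((a : ℝ) - j) * (a + 2 + j) := by
    have : 0 < (a : ℝ) - j := by linarith
    positivity
  calc _ ≤ (4 * ((j : ℝ) + 1) ^ 2) / (4 * (((a : ℝ) - j) * (a + 2 + j))) := by gcongr
    _ = _ := by
      rw [mul_div_mul_left _ _ (by norm_num)]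

lemma prod_fac_base (a : ℕ) :
    ∏ j ∈ Finset.range (a + 2), fac (a + 1) j ≤ 1 / (4 * ((a : ℝ) + 1) ^ 2) * bnd (a + 1) 0 := by
  rw [Finset.prod_range_succ]
  have e0 : fac (a + 1) (a + 1) = 1 := by unfold fac; simp
  rw [e0, mul_one, Finset.prod_range_succ']
  have e1 : fac (a + 1) 0 = 1 / (4 * ((a : ℝ) + 1) ^ 2) := by
    unfold fac
    rw [if_neg (by omega)]
    have e2 : (1 : ℝ) - 4 * ((0 : ℕ) : ℝ) ^ 2 = 1 := by simp
    have e3 : 4 * (((a + 1 : ℕ) : ℝ)) ^ 2 - 4 * ((0 : ℕ) : ℝ) ^ 2 = 4 * ((a : ℝ) + 1) ^ 2 := by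
      push_cast; ring
    rw [e2, e3, abs_one, abs_of_pos (by positivity)]
  rw [e1, mul_comm]
  refine mul_le_mul_of_nonneg_left ?_ (by positivity)
  have h1 : ∏ j ∈ Finset.range a, fac (a + 1) (j + 1) ≤
      ∏ j ∈ Finset.range a, (((j : ℝ) + 1) ^ 2 / (((a - j : ℕ) : ℝ) * ((a + 2 + j : ℕ) : ℝ))) :=
    Finset.prod_le_prod (fun j _ => fac_nonneg _ _) (fun j hj => fac_lt (Finset.mem_range.mp hj))
  refine h1.trans (le_of_eq ?_)
  rw [Finset.prod_div_distrib, Finset.prod_mul_distrib, Finset.prod_pow]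
  have h2 : ∏ j ∈ Finset.range a, ((j : ℝ) + 1) = (a.factorial : ℝ) := by
    rw [← Finset.prod_range_add_one_eq_factorial]
    push_cast
    rfl
  have h3 : ∏ j ∈ Finset.range a, ((a - j : ℕ) : ℝ) = (a.factorial : ℝ) := by
    rw [← Nat.descFactorial_self, Nat.descFactorial_eq_prod_range]
    push_cast
    rfl
  have h4 : ((a + 1).factorial : ℝ) * ∏ j ∈ Finset.range a, ((a + 2 + j : ℕ) : ℝ) =
      ((2 * a + 1).factorial : ℝ) := by
    have := Nat.factorial_mul_ascFactorial (a + 1) a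
    rw [Nat.ascFactorial_eq_prod_range] at this
    have e : a + 1 + a = 2 * a + 1 := by ring
    rw [e] at this
    exact_mod_cast this
  rw [h2, h3]
  unfold bnd
  have h5 : (((a + 1).factorial : ℕ) : ℝ) = ((a : ℝ) + 1) * (a.factorial : ℝ) := by
    rw [Nat.factorial_succ]; push_cast; ring
  have h6 : (((2 * (a + 1) + 0).factorial : ℕ) : ℝ) = (2 * (a : ℝ) + 2) * ((2 * a + 1).factorial : ℝ) := by
    have : 2 * (a + 1) + 0 = (2 * a + 1) + 1 := by ring
    rw [this, Nat.factorial_succ]; push_cast; ring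
  rw [h6, ← h4]
  have e7 : a + 1 + 0 = a + 1 := rfl
  rw [e7, h5]
  have h8 : (a.factorial : ℝ) ≠ 0 := by positivity
  have h9 : ∏ j ∈ Finset.range a, ((a + 2 + j : ℕ) : ℝ) ≠ 0 := by
    rw [Finset.prod_ne_zero_iff]
    intro j _
    positivity
  have h10 : (a : ℝ) + 1 ≠ 0 := by positivity
  generalize ∏ j ∈ Finset.range a, ((a + 2 + j : ℕ) : ℝ) = P at *
  simp only [Nat.factorial_zero, Nat.cast_one]
  field_simp
  
lemma prod_fac (a k : ℕ) :
    ∏ j ∈ Finset.range (a + 2 + k), fac (a + 1) j ≤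
      1 / (4 * ((a : ℝ) + 1) ^ 2) * bnd (a + 1) k := by
  induction k with
  | zero => exact prod_fac_base a
  | succ k ih =>
    rw [← add_assoc, Finset.prod_range_succ, bnd_succ, ← mul_assoc]
    have h := fac_ge (l := a + 1) (k := k)
    have e : a + 1 + 1 + k = a + 2 + k := by ring
    rw [e] at h
    have h1 : 0 ≤ ∏ j ∈ Finset.range (a + 2 + k), fac (a + 1) j :=
      Finset.prod_nonneg fun j _ => fac_nonneg _ _
    exact mul_le_mul ih h (fac_nonneg _ _) (h1.trans ih)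

lemma prod_fac_le {l n : ℕ} (hl : 1 ≤ l) (hn : l ≤ n) :
    ∏ j ∈ Finset.range (n + 1), fac l j ≤ 1 / (2 * (l : ℝ) ^ 2) := by
  obtain ⟨a, rfl⟩ := Nat.exists_eq_add_of_le hl
  obtain ⟨k, rfl⟩ := Nat.exists_eq_add_of_le hn
  have h := prod_fac a k
  have e : 1 + a + k + 1 = a + 2 + k := by ring
  have e2 : 1 + a = a + 1 := by ring
  rw [e, e2]
  refine h.trans ?_
  have h2 := bnd_le_two (a + 1) k
  calc 1 / (4 * ((a : ℝ) + 1) ^ 2) * bnd (a + 1) k ≤ 1 / (4 * ((a : ℝ) + 1) ^ 2) * 2 := by gcongr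
    _ = 1 / (2 * ((a + 1 : ℕ) : ℝ) ^ 2) := by
      push_cast
      have : (a : ℝ) + 1 ≠ 0 := by positivity
      field_simp
      norm_num

lemma sum_inv_sq_le (n : ℕ) :
    ∑ l ∈ Finset.range n, 1 / (2 * ((l : ℝ) + 1) ^ 2) ≤ 7 / 8 - (if n = 0 then 0 else if n = 1 then 0
      else 1 / (2 * (n : ℝ))) := by
  match n with
  | 0 => norm_num
  | 1 => norm_num
  | n + 2 =>
    rw [if_neg (by omega), if_neg (by omega)]
    induction n with
    | zero => norm_num [Finset.sum_range_succ]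
    | succ n ih =>
      rw [Finset.sum_range_succ]
      refine (add_le_add_left ih _).trans ?_
      push_cast
      have h0 : (0 : ℝ) ≤ n := by positivity
      have h1 : 1 / (2 * ((n : ℝ) + 2 + 1) ^ 2) ≤
          1 / (2 * ((n : ℝ) + 2)) - 1 / (2 * ((n : ℝ) + 1 + 2)) := by
        rw [div_sub_div _ _ (by positivity) (by positivity), div_le_div_iff₀ (by positivity)
          (by positivity)]
        nlinarith
      linarith

lemma sum_inv_sq_le' (n : ℕ) :
    ∑ l ∈ Finset.range n, 1 / (2 * ((l : ℝ) + 1) ^ 2) ≤ 7 / 8 := by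
  refine (sum_inv_sq_le n).trans ?_
  split_ifs
  · norm_num
  · norm_num
  · have : 0 ≤ 1 / (2 * (n : ℝ)) := by positivity
    linarith

lemma basis_eval_one_le {n l : ℕ} (hl : 1 ≤ l) (hn : l ≤ n) :
    |(Lagrange.basis (Finset.range (n + 1)) (fun j : ℕ => 4 * (j : ℝ) ^ 2) l).eval 1|
      ≤ 1 / (2 * (l : ℝ) ^ 2) := by
  refine le_trans (le_of_eq ?_) (prod_fac_le hl hn)
  rw [Lagrange.basis, eval_prod, Finset.abs_prod]
  have h1 : ∏ j ∈ Finset.range (n + 1), fac l j = ∏ j ∈ (Finset.range (n + 1)).erase l, fac l j := by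
    rw [Finset.prod_erase]
    unfold fac; simp
  rw [h1]
  refine Finset.prod_congr rfl ?_
  intro j hj
  have hj' : j ≠ l := (Finset.mem_erase.mp hj).1
  unfold fac
  rw [if_neg hj', Lagrange.basisDivisor]
  simp only [eval_mul, eval_C, eval_sub, eval_X, abs_mul, abs_inv]
  rw [mul_comm, div_eq_mul_inv]

/-- A polynomial of degree at most `n` cannot drop from `1` to `0` between `0` and `1` while
staying nearly in `[0,1]` at the nodes `4 l ^ 2`, `1 ≤ l ≤ n`. -/
lemma no_drop (n : ℕ) (p : ℝ[X]) (hp : p.degree < ((n + 1 : ℕ) : WithBot ℕ)) {ρ : ℝ}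
    (hρ0 : 0 ≤ ρ) (hρ : ρ < 1 / 7) (h0 : p.eval 0 = 1) (h1 : p.eval 1 = 0)
    (hl : ∀ l : ℕ, 1 ≤ l → l ≤ n → -ρ ≤ p.eval (4 * (l : ℝ) ^ 2) ∧
      p.eval (4 * (l : ℝ) ^ 2) ≤ 1 + ρ) : False := by
  set v : ℕ → ℝ := fun j => 4 * (j : ℝ) ^ 2 with hv
  set s := Finset.range (n + 1) with hs
  have hinj : Set.InjOn v s := by
    intro a _ b _ hab
    simp only [hv] at hab
    have h2 : (a : ℝ) ^ 2 = (b : ℝ) ^ 2 := by linarith
    have h3 : (a : ℝ) = b := by
      have := abs_eq_abs.mpr (sq_eq_sq_iff_eq_or_eq_neg.mp h2)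
      rwa [abs_of_nonneg (by positivity), abs_of_nonneg (by positivity)] at this
    exact_mod_cast h3
  have hdeg : p.degree < (s.card : WithBot ℕ) := by
    rw [hs, Finset.card_range]; exact hp
  have hint := Lagrange.eq_interpolate hinj hdeg
  have hsum := Lagrange.sum_basis hinj (by simp [hs] : s.Nonempty)
  have e1 : p.eval 1 = ∑ l ∈ s, p.eval (v l) * (Lagrange.basis s v l).eval 1 := by
    conv_lhs => rw [hint]
    rw [Lagrange.interpolate_apply, eval_finsetSum]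
    simp
  have e2 : (1 : ℝ) = ∑ l ∈ s, (Lagrange.basis s v l).eval 1 := by
    rw [← eval_finsetSum, hsum]; simp
  have e3 : -1 = ∑ l ∈ s, (p.eval (v l) - 1) * (Lagrange.basis s v l).eval 1 := by
    simp only [sub_mul, Finset.sum_sub_distrib, one_mul]
    rw [← e1, ← e2, h1]; norm_num
  have e4 : (1 : ℝ) ≤ ∑ l ∈ s, |p.eval (v l) - 1| * |(Lagrange.basis s v l).eval 1| := by
    calc (1 : ℝ) = |(-1 : ℝ)| := by simp
      _ = |∑ l ∈ s, (p.eval (v l) - 1) * (Lagrange.basis s v l).eval 1| := by rw [← e3]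
      _ ≤ ∑ l ∈ s, |(p.eval (v l) - 1) * (Lagrange.basis s v l).eval 1| :=
          Finset.abs_sum_le_sum_abs _ _
      _ = _ := by simp only [abs_mul]
  rw [hs, Finset.sum_range_succ'] at e4
  have e5 : |p.eval (v 0) - 1| = 0 := by
    simp only [hv]
    simp [h0]
  rw [e5, zero_mul, add_zero] at e4
  have e6 : ∑ l ∈ Finset.range n, |p.eval (v (l + 1)) - 1| *
      |(Lagrange.basis (Finset.range (n + 1)) v (l + 1)).eval 1| ≤
      ∑ l ∈ Finset.range n, (1 + ρ) * (1 / (2 * ((l : ℝ) + 1) ^ 2)) := by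
    refine Finset.sum_le_sum ?_
    intro l hl'
    have hl2 : l < n := Finset.mem_range.mp hl'
    have b1 := basis_eval_one_le (n := n) (l := l + 1) (by omega) (by omega)
    have b2 := hl (l + 1) (by omega) (by omega)
    push_cast at b1
    refine mul_le_mul ?_ b1 (abs_nonneg _) (by linarith)
    rw [abs_le]
    simp only [hv]
    constructor
    · linarith [b2.1]
    · linarith [b2.2]
  rw [← Finset.mul_sum] at e6
  have e7 := sum_inv_sq_le' n
  have e8 : (1 + ρ) * ∑ l ∈ Finset.range n, 1 / (2 * ((l : ℝ) + 1) ^ 2) ≤ (1 + ρ) * (7 / 8) := by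
    gcongr
  linarith

end MarkovBound
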