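import Mathlib
import Pool.Agent.MP_c4a887_an.Nodes

open Polynomial

namespace MarkovBound

/-- the Newton interpolation polynomial of degree `< m` -/
noncomputable def newt (D : ℕ → ℝ) (m : ℕ) : ℝ[X] :=
  ∑ i ∈ Finset.range m, C (D i / (i.factorial : ℝ)) * descPochhammer ℝ i

lemma newt_eval (D : ℕ → ℝ) (m k : ℕ) :
    (newt D m).eval (k : ℝ) = ∑ i ∈ Finset.range m, (k.choose i : ℝ) * D i := by
  unfold newt
  rw [eval_finsetSum]
  refine Finset.sum_congr rfl ?_
  intro i _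
  rw [eval_mul, eval_C, descPochhammer_eval_eq_descFactorial,
    Nat.descFactorial_eq_factorial_mul_choose]
  push_cast
  have : (i.factorial : ℝ) ≠ 0 := by positivity
  field_simp

lemma newt_degree (D : ℕ → ℝ) (m : ℕ) : (newt D (m + 1)).degree < ((m + 1 : ℕ) : WithBot ℕ) := by
  unfold newt
  refine (Polynomial.degree_sum_le _ _).trans_lt ?_
  rw [Finset.sup_lt_iff (by exact WithBot.bot_lt_coe _)]
  intro i hi
  have hi' : i < m + 1 := Finset.mem_range.mp hi
  refine (Polynomial.degree_mul_le _ _).trans_lt ?_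
  refine (add_le_add degree_C_le (degree_le_natDegree)).trans_lt ?_
  rw [descPochhammer_natDegree, zero_add]
  exact_mod_cast hi'

lemma term_bound {M T : ℝ} (hM : 0 ≤ M) (hT : 0 < T) {m i k : ℕ} (hm : 1 ≤ m) (hi : m ≤ i)
    (hk : k ≤ 4 * m ^ 2) (hTm : 16 * Real.exp 4 * (m : ℝ) ^ 3 ≤ T) :
    (k.choose i : ℝ) * (M * (Real.sqrt (i / T)) ^ i) ≤ M * Real.exp (-(i : ℝ)) := by
  have hi0 : (0 : ℝ) < i := by exact_mod_cast (lt_of_lt_of_le (by omega) hi : 0 < i)
  have hm0 : (0 : ℝ) < m := by exact_mod_cast hm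
  have h1 : (k.choose i : ℝ) ≤ (k : ℝ) ^ i / (i.factorial : ℝ) := Nat.choose_le_pow_div i k
  have h2 : (i : ℝ) ^ i / (i.factorial : ℝ) ≤ Real.exp i :=
    Real.pow_div_factorial_le_exp (i : ℝ) hi0.le i
  have h3 : (k.choose i : ℝ) ≤ ((k : ℝ) * Real.exp 1 / i) ^ i := by
    refine h1.trans ?_
    have e : ((k : ℝ) * Real.exp 1 / i) ^ i = (k : ℝ) ^ i * Real.exp i / (i : ℝ) ^ i := by
      rw [div_pow, mul_pow, ← Real.exp_nat_mul, mul_one]
    rw [e, div_le_div_iff₀ (by positivity) (by positivity)]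
    rw [div_le_iff₀ (by positivity)] at h2
    calc (k : ℝ) ^ i * (i : ℝ) ^ i ≤ (k : ℝ) ^ i * (Real.exp i * (i.factorial : ℝ)) := by gcongr
      _ = _ := by ring
  have h4 : (k : ℝ) * Real.exp 1 / i * Real.sqrt (i / T) ≤ Real.exp (-1) := by
    have h5 : Real.sqrt (i / T) ≤ Real.exp (-1) / ((k : ℝ) * Real.exp 1 / i) ∨
      (k : ℝ) = 0 := by
      rcases Nat.eq_zero_or_pos k with h | h
      · right; exact_mod_cast h
      · left
        have hk0 : (0 : ℝ) < k := by exact_mod_cast h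
        rw [Real.sqrt_le_left (by positivity)]
        have e1 : (Real.exp (-1) / ((k : ℝ) * Real.exp 1 / i)) ^ 2 =
            (i : ℝ) ^ 2 / ((k : ℝ) ^ 2 * Real.exp 4) := by
          have e2 : Real.exp 4 = Real.exp 1 ^ 4 := by
            rw [← Real.exp_nat_mul]; norm_num
          have e3 : Real.exp (-1) = 1 / Real.exp 1 := by
            rw [Real.exp_neg, one_div]
          rw [e2, e3]
          have := (Real.exp_pos 1).ne'
          field_simp
        rw [e1, div_le_div_iff₀ hT (by positivity)]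
        have hk1 : (k : ℝ) ≤ 4 * (m : ℝ) ^ 2 := by exact_mod_cast hk
        have hmi : (m : ℝ) ≤ i := by exact_mod_cast hi
        have h6 : (k : ℝ) ^ 2 * Real.exp 4 ≤ (i : ℝ) * T := by
          calc (k : ℝ) ^ 2 * Real.exp 4 ≤ (4 * (m : ℝ) ^ 2) ^ 2 * Real.exp 4 := by gcongr
            _ = (m : ℝ) * (16 * Real.exp 4 * (m : ℝ) ^ 3) := by ring
            _ ≤ (i : ℝ) * T := by gcongr
        calc (i : ℝ) * ((k : ℝ) ^ 2 * Real.exp 4) ≤ (i : ℝ) * ((i : ℝ) * T) := by gcongr
          _ = (i : ℝ) ^ 2 * T := by ring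
    rcases h5 with h5 | h5
    · rcases Nat.eq_zero_or_pos k with h | h
      · rw [h]; simp; positivity
      · have hk0 : (0 : ℝ) < k := by exact_mod_cast h
        have h7 : 0 < (k : ℝ) * Real.exp 1 / i := by positivity
        rw [le_div_iff₀ h7] at h5
        linarith [mul_comm (Real.sqrt (i / T)) ((k : ℝ) * Real.exp 1 / i)]
    · rw [h5]; simp; positivity
  calc (k.choose i : ℝ) * (M * (Real.sqrt (i / T)) ^ i)
      ≤ ((k : ℝ) * Real.exp 1 / i) ^ i * (M * (Real.sqrt (i / T)) ^ i) := by gcongr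
    _ = M * ((k : ℝ) * Real.exp 1 / i * Real.sqrt (i / T)) ^ i := by
        rw [mul_pow]; ring
    _ ≤ M * (Real.exp (-1)) ^ i := by gcongr
    _ = M * Real.exp (-(i : ℝ)) := by
        rw [← Real.exp_nat_mul]; ring_nf

/-- the tail estimate -/
lemma tail_bound {M : ℝ} (hM : 1 ≤ M) {m : ℕ} (hm : Real.log M + 3 ≤ m) (N : ℕ) :
    ∑ j ∈ Finset.range N, M * Real.exp (-((m + j : ℕ) : ℝ)) ≤ 1 / 8 := by
  have hM0 : 0 < M := by linarith
  have h1 : ∀ j : ℕ, M * Real.exp (-((m + j : ℕ) : ℝ)) ≤ Real.exp (-3) * (Real.exp (-1)) ^ j := by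
    intro j
    rw [← Real.exp_nat_mul, ← Real.exp_add]
    conv_lhs => rw [← Real.exp_log hM0, ← Real.exp_add]
    apply Real.exp_le_exp.mpr
    push_cast
    linarith
  have he : (2.7 : ℝ) < Real.exp 1 := by
    have := Real.exp_one_gt_d9; linarith
  have he1 : Real.exp (-1) < 1 / 2.7 := by
    rw [Real.exp_neg, one_div]
    exact inv_strictAnti₀ (by norm_num) he
  have he3 : Real.exp (-3) ≤ 1 / 19 := by
    have e : Real.exp (-3) = 1 / Real.exp 1 ^ 3 := by
      rw [← Real.exp_nat_mul, Real.exp_neg, one_div]; norm_num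
    rw [e]
    apply one_div_le_one_div_of_le (by norm_num)
    have : (2.7 : ℝ) ^ 3 ≤ Real.exp 1 ^ 3 := by gcongr
    have h2 : (19 : ℝ) ≤ (2.7 : ℝ) ^ 3 := by norm_num
    linarith
  have he0 : 0 < Real.exp (-1) := Real.exp_pos _
  calc ∑ j ∈ Finset.range N, M * Real.exp (-((m + j : ℕ) : ℝ))
      ≤ ∑ j ∈ Finset.range N, Real.exp (-3) * (Real.exp (-1)) ^ j :=
        Finset.sum_le_sum fun j _ => h1 j
    _ = Real.exp (-3) * ∑ j ∈ Finset.range N, (Real.exp (-1)) ^ j := by rw [Finset.mul_sum]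
    _ ≤ 1 / 19 * (1 - Real.exp (-1))⁻¹ := by
        have h5 : ∑ j ∈ Finset.range N, (Real.exp (-1)) ^ j ≤ (1 - Real.exp (-1))⁻¹ :=
          sum_le_hasSum _ (fun _ _ => by positivity)
            (hasSum_geometric_of_lt_one he0.le (by linarith))
        have h6 : 0 ≤ ∑ j ∈ Finset.range N, (Real.exp (-1)) ^ j :=
          Finset.sum_nonneg fun _ _ => by positivity
        have h7 : 0 ≤ (1 - Real.exp (-1))⁻¹ := by
          apply inv_nonneg.mpr; linarith
        gcongr
    _ ≤ 1 / 8 := by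
        have h8 : (1 - Real.exp (-1))⁻¹ ≤ 2 := by
          rw [inv_le_comm₀ (by linarith) (by norm_num)]
          linarith
        linarith

/-- The abstract statement about the numbers `r k = (S ^ k) j j`. -/
theorem sequence_bound {M T : ℝ} (hM : 1 ≤ M) (hT : 0 < T) (r D : ℕ → ℝ)
    (hr : ∀ k, 0 ≤ r k ∧ r k ≤ 1) (h0 : r 0 = 1) (h1 : r 1 = 0)
    (hrD : ∀ k, r k = ∑ i ∈ Finset.range (k + 1), (k.choose i : ℝ) * D i)
    (hD : ∀ i, 1 ≤ i → |D i| ≤ M * (Real.sqrt (i / T)) ^ i)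
    {m : ℕ} (hm : Real.log M + 3 ≤ m) : T < 16 * Real.exp 4 * (m : ℝ) ^ 3 := by
  by_contra hcon
  push Not at hcon
  have hlog : 0 ≤ Real.log M := Real.log_nonneg hM
  have hm3 : 3 ≤ m := by
    have : (3 : ℝ) ≤ m := by linarith
    exact_mod_cast this
  obtain ⟨n, rfl⟩ : ∃ n, m = n + 1 := ⟨m - 1, by omega⟩
  have hD0 : D 0 = 1 := by
    have := hrD 0
    simp [h0] at this
    exact this.symm
  have hD1 : D 1 = -1 := by
    have := hrD 1
    rw [h1] at this
    simp [Finset.sum_range_succ, hD0] at this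
    linarith
  have e0 : (newt D (n + 1)).eval 0 = 1 := by
    have := newt_eval D (n + 1) 0
    rw [Nat.cast_zero] at this
    rw [this, Finset.sum_range_succ']
    simp [hD0]
  have e1 : (newt D (n + 1)).eval 1 = 0 := by
    have := newt_eval D (n + 1) 1
    rw [Nat.cast_one] at this
    rw [this]
    obtain ⟨n', rfl⟩ : ∃ n', n = n' + 1 := ⟨n - 1, by omega⟩
    rw [Finset.sum_range_succ', Finset.sum_range_succ']
    have : ∑ k ∈ Finset.range n', ((Nat.choose 1 (k + 1 + 1) : ℕ) : ℝ) * D (k + 1 + 1) = 0 := by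
      refine Finset.sum_eq_zero fun k _ => ?_
      rw [Nat.choose_eq_zero_of_lt (by omega)]; simp
    rw [this]
    simp [hD0, hD1]
  refine no_drop n (newt D (n + 1)) (newt_degree D n) (ρ := 1 / 8) (by norm_num) (by norm_num)
    e0 e1 ?_
  intro l hl1 hln
  have hcast : (4 : ℝ) * (l : ℝ) ^ 2 = ((4 * l ^ 2 : ℕ) : ℝ) := by push_cast; ring
  rw [hcast, newt_eval]
  set k := 4 * l ^ 2 with hk
  have hkm : k ≤ 4 * (n + 1) ^ 2 := by
    rw [hk]
    gcongr
    omega
  -- the error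
  have herr : |r k - ∑ i ∈ Finset.range (n + 1), (k.choose i : ℝ) * D i| ≤ 1 / 8 := by
    have hsum : r k = ∑ i ∈ Finset.range (n + 1 + (k + 1)), (k.choose i : ℝ) * D i := by
      rw [hrD k]
      refine Finset.sum_subset ?_ ?_
      · intro x hx
        rw [Finset.mem_range] at hx ⊢
        omega
      · intro x _ hx
        rw [Finset.mem_range] at hx
        rw [Nat.choose_eq_zero_of_lt (by omega)]; simp
    rw [hsum, Finset.sum_range_add, add_sub_cancel_left]
    refine (Finset.abs_sum_le_sum_abs _ _).trans ?_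
    refine le_trans (Finset.sum_le_sum ?_) (tail_bound hM hm (k + 1))
    intro j _
    rw [abs_mul, abs_of_nonneg (by positivity : (0 : ℝ) ≤ (k.choose (n + 1 + j) : ℝ))]
    refine le_trans ?_ (term_bound (by linarith) hT (m := n + 1) (i := n + 1 + j) (k := k)
      (by omega) (by omega) hkm hcon)
    gcongr
    exact hD _ (by omega)
  have hrk := hr k
  rw [abs_le] at herr
  constructor <;> linarith [herr.1, herr.2, hrk.1, hrk.2]

end MarkovBound
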