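import Mathlib

open NormedSpace Filter Topology

namespace MarkovBound

/-- Poisson weights (unnormalised). -/
noncomputable def pw (τ : ℝ) (k : ℕ) : ℝ := τ ^ k / (k.factorial : ℝ)

lemma pw_nonneg {τ : ℝ} (hτ : 0 ≤ τ) (k : ℕ) : 0 ≤ pw τ k := by
  unfold pw; positivity

lemma pw_succ (τ : ℝ) (k : ℕ) : pw τ (k + 1) * ((k : ℝ) + 1) = τ * pw τ k := by
  unfold pw
  rw [Nat.factorial_succ]
  push_cast
  have h1 : (k.factorial : ℝ) ≠ 0 := by positivity
  have h2 : ((k : ℝ) + 1) ≠ 0 := by positivity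
  field_simp
  ring

lemma hasSum_pw (τ : ℝ) : HasSum (pw τ) (Real.exp τ) := by
  have h := NormedSpace.exp_series_hasSum_exp' (𝕂 := ℝ) τ
  rw [Real.exp_eq_exp_ℝ]
  convert! h using 1
  ext k
  simp [pw, div_eq_inv_mul]

lemma hasSum_pw_mul (τ : ℝ) : HasSum (fun k : ℕ => pw τ k * k) (τ * Real.exp τ) := by
  rw [← hasSum_nat_add_iff' 1]
  simp only [Finset.range_one, Finset.sum_singleton, Nat.cast_zero, mul_zero, sub_zero]
  have h := (hasSum_pw τ).mul_left τ
  convert! h using 1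
  ext k
  push_cast
  exact pw_succ τ k

lemma hasSum_pw_mul_sq (τ : ℝ) :
    HasSum (fun k : ℕ => pw τ k * (k : ℝ) ^ 2) ((τ ^ 2 + τ) * Real.exp τ) := by
  rw [← hasSum_nat_add_iff' 1]
  simp only [Finset.range_one, Finset.sum_singleton, Nat.cast_zero]
  have h := ((hasSum_pw_mul τ).add (hasSum_pw τ)).mul_left τ
  convert! h using 1
  · ext k
    push_cast
    have := pw_succ τ k
    linear_combination ((k : ℝ) + 1) * this
  · ring

/-- The key smoothing estimate: if all powers of `S` have norm at most `1`, then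
`‖(1 - S) exp(-τ(1-S))‖ ≤ 1/√τ`. -/
lemma smoothing {A : Type*} [NormedRing A] [NormedAlgebra ℝ A] [CompleteSpace A]
    (S : A) (hS : ∀ k : ℕ, ‖S ^ k‖ ≤ 1) {τ : ℝ} (hτ : 0 < τ) :
    ‖(1 - S) * exp (-(τ • (1 - S)))‖ ≤ 1 / Real.sqrt τ := by
  -- first the power series of `(1 - S) * exp (τ • S)`
  have h1 : HasSum (fun k : ℕ => pw τ k • S ^ k) (exp (τ • S)) := by
    have h := NormedSpace.exp_series_hasSum_exp' (𝕂 := ℝ) (τ • S)
    convert! h using 1
    ext k
    rw [smul_pow, smul_smul]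
    simp [pw, div_eq_inv_mul]
  have h2 : HasSum (fun k : ℕ => (pw τ k * k / τ) • S ^ k) (S * exp (τ • S)) := by
    rw [← hasSum_nat_add_iff' 1]
    simp only [Finset.range_one, Finset.sum_singleton, Nat.cast_zero, mul_zero, zero_div,
      zero_smul, sub_zero]
    have h := h1.mul_left S
    convert! h using 1
    ext k
    have e : pw τ (k + 1) * ((k + 1 : ℕ) : ℝ) / τ = pw τ k := by
      push_cast
      rw [pw_succ]
      field_simp
    rw [e, mul_smul_comm, pow_succ']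
  have h3 : HasSum (fun k : ℕ => (pw τ k - pw τ k * k / τ) • S ^ k)
      ((1 - S) * exp (τ • S)) := by
    have h := h1.sub h2
    convert! h using 1
    · ext k
      rw [sub_smul]
    · rw [sub_mul, one_mul]
  -- the majorant
  have hs : 0 < Real.sqrt τ := Real.sqrt_pos.mpr hτ
  have hss : Real.sqrt τ * Real.sqrt τ = τ := Real.mul_self_sqrt hτ.le
  have h4 : HasSum (fun k : ℕ => Real.sqrt τ / 2 * (pw τ k * (1 / τ) +
      (pw τ k - 2 / τ * (pw τ k * k) + 1 / τ ^ 2 * (pw τ k * (k : ℝ) ^ 2))))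
      (Real.sqrt τ / 2 * (Real.exp τ * (1 / τ) +
      (Real.exp τ - 2 / τ * (τ * Real.exp τ) + 1 / τ ^ 2 * ((τ ^ 2 + τ) * Real.exp τ)))) := by
    refine HasSum.mul_left _ (((hasSum_pw τ).mul_right _).add ?_)
    exact (((hasSum_pw τ).sub ((hasSum_pw_mul τ).mul_left _))).add
      ((hasSum_pw_mul_sq τ).mul_left _)
  have h5 : Real.sqrt τ / 2 * (Real.exp τ * (1 / τ) +
      (Real.exp τ - 2 / τ * (τ * Real.exp τ) + 1 / τ ^ 2 * ((τ ^ 2 + τ) * Real.exp τ)))
      = Real.exp τ / Real.sqrt τ := by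
    have : Real.sqrt τ ≠ 0 := hs.ne'
    have h6 : τ ≠ 0 := hτ.ne'
    field_simp
    nlinarith [hss]
  rw [h5] at h4
  have h6 : ‖(1 - S) * exp (τ • S)‖ ≤ Real.exp τ / Real.sqrt τ := by
    rw [← h3.tsum_eq]
    refine tsum_of_norm_bounded h4 ?_
    intro k
    rw [norm_smul]
    have h7 : ‖pw τ k - pw τ k * k / τ‖ * ‖S ^ k‖ ≤ ‖pw τ k - pw τ k * k / τ‖ * 1 := by
      gcongr
      exact hS k
    refine h7.trans ?_
    rw [mul_one]
    have h8 : pw τ k - pw τ k * k / τ = pw τ k * (1 - k / τ) := by ring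
    rw [h8, norm_mul, Real.norm_of_nonneg (pw_nonneg hτ.le k), Real.norm_eq_abs]
    have h9 : Real.sqrt τ / 2 * (pw τ k * (1 / τ) +
      (pw τ k - 2 / τ * (pw τ k * k) + 1 / τ ^ 2 * (pw τ k * (k : ℝ) ^ 2)))
      = pw τ k * (Real.sqrt τ / 2 * (1 / τ + (1 - k / τ) ^ 2)) := by
      field_simp
      ring
    rw [h9]
    refine mul_le_mul_of_nonneg_left ?_ (pw_nonneg hτ.le k)
    set y : ℝ := 1 - k / τ with hy
    have h10 : 1 / τ = (1 / Real.sqrt τ) ^ 2 := by
      rw [div_pow, one_pow, sq, hss]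
    rw [h10]
    have h11 : 0 ≤ (1 / Real.sqrt τ - |y|) ^ 2 := sq_nonneg _
    have h12 : 2 * (1 / Real.sqrt τ) * |y| ≤ (1 / Real.sqrt τ) ^ 2 + y ^ 2 := by
      have := sq_abs y
      nlinarith
    calc |y| = Real.sqrt τ / 2 * (2 * (1 / Real.sqrt τ) * |y|) := by
          field_simp
      _ ≤ _ := by gcongr
  have h7 : exp (-(τ • (1 - S))) = Real.exp (-τ) • exp (τ • S) := by
    have e1 : -(τ • (1 - S)) = algebraMap ℝ A (-τ) + τ • S := by
      rw [Algebra.algebraMap_eq_smul_one, smul_sub]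
      simp only [neg_smul]
      abel
    rw [e1]
    let _ : NormedAlgebra ℚ A := NormedAlgebra.restrictScalars ℚ ℝ A
    rw [NormedSpace.exp_add_of_commute (Algebra.commutes _ _)]
    have e2 : exp (algebraMap ℝ A (-τ)) = algebraMap ℝ A (Real.exp (-τ)) := by
      rw [Real.exp_eq_exp_ℝ]
      exact (NormedSpace.algebraMap_exp_comm (-τ)).symm
    rw [e2, Algebra.algebraMap_eq_smul_one, smul_mul_assoc, one_mul]
  rw [h7, mul_smul_comm, norm_smul, Real.norm_of_nonneg (Real.exp_pos _).le]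
  calc Real.exp (-τ) * ‖(1 - S) * exp (τ • S)‖
      ≤ Real.exp (-τ) * (Real.exp τ / Real.sqrt τ) := by gcongr
    _ = 1 / Real.sqrt τ := by
      rw [← mul_div_assoc, ← Real.exp_add]
      simp

/-- Powers of `1 - S` are controlled by the norm of `exp (T(1-S))`. -/
lemma power_bound {A : Type*} [NormedRing A] [NormedAlgebra ℝ A] [CompleteSpace A]
    (S : A) (hS : ∀ k : ℕ, ‖S ^ k‖ ≤ 1) {T M : ℝ} (hT : 0 < T)
    (hM : ‖exp (T • (1 - S))‖ ≤ M) {i : ℕ} (hi : 1 ≤ i) :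
    ‖(1 - S) ^ i‖ ≤ M * (Real.sqrt (i / T)) ^ i := by
  let _ : NormedAlgebra ℚ A := NormedAlgebra.restrictScalars ℚ ℝ A
  have hi' : (0 : ℝ) < i := by exact_mod_cast hi
  have hc : 0 < T / i := by positivity
  have h1 := smoothing S hS hc
  have h2 : 1 / Real.sqrt (T / i) = Real.sqrt (i / T) := by
    rw [one_div, ← Real.sqrt_inv, inv_div]
  rw [h2] at h1
  have hcomm : Commute (1 - S) (exp (-((T / (i : ℝ)) • (1 - S)))) := by
    have : Commute (1 - S) (-((T / (i : ℝ)) • (1 - S))) :=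
      ((Commute.refl (1 - S)).smul_right _).neg_right
    exact this.exp_right
  have h3 : ((1 - S) * exp (-((T / (i : ℝ)) • (1 - S)))) ^ i =
      (1 - S) ^ i * exp (-(T • (1 - S))) := by
    rw [hcomm.mul_pow, ← NormedSpace.exp_nsmul]
    congr 2
    rw [← Nat.cast_smul_eq_nsmul ℝ, smul_neg, smul_smul]
    congr 2
    field_simp
  have h4 : (1 - S) ^ i * exp (-(T • (1 - S))) * exp (T • (1 - S)) = (1 - S) ^ i := by
    rw [mul_assoc, ← NormedSpace.exp_add_of_commute]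
    · simp
    · exact (Commute.refl _).neg_left
  have hM0 : 0 ≤ M := (norm_nonneg _).trans hM
  calc ‖(1 - S) ^ i‖ = ‖((1 - S) * exp (-((T / (i : ℝ)) • (1 - S)))) ^ i * exp (T • (1 - S))‖ := by
        rw [h3, h4]
    _ ≤ ‖((1 - S) * exp (-((T / (i : ℝ)) • (1 - S)))) ^ i‖ * ‖exp (T • (1 - S))‖ :=
        norm_mul_le _ _
    _ ≤ (Real.sqrt (i / T)) ^ i * M := by
        gcongr
        exact (norm_pow_le' _ (by omega)).trans (by gcongr)
    _ = M * (Real.sqrt (i / T)) ^ i := mul_comm _ _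

end MarkovBound
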