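import Mathlib
import Pool.Agent.MP_c4a887_an.Smoothing
import Pool.Agent.MP_c4a887_an.Sequence

open Matrix NormedSpace Filter Topology
open scoped Matrix.Norms.Operator

namespace MarkovBound

variable {d : ℕ}

lemma hasDerivAt_entry (Q : Matrix (Fin d) (Fin d) ℝ) (i j : Fin d) :
    HasDerivAt (fun t : ℝ => exp (t • Q) i j) (Q i j) 0 := by
  have h := hasDerivAt_exp_smul_const (𝕂 := ℝ) Q (0 : ℝ)
  simp only [zero_smul, NormedSpace.exp_zero, one_mul] at h
  have h2 := (LinearMap.toContinuousLinearMap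
    (Matrix.entryLinearMap ℝ ℝ i j)).hasFDerivAt.comp_hasDerivAt (0 : ℝ) h
  exact h2

lemma generator_of_stochastic (Q : Matrix (Fin d) (Fin d) ℝ)
    (hst : ∀ t : ℝ, 0 ≤ t → (∀ i j : Fin d, 0 ≤ exp (t • Q) i j) ∧
      (∀ j : Fin d, ∑ i : Fin d, exp (t • Q) i j = 1)) :
    (∀ i j : Fin d, i ≠ j → 0 ≤ Q i j) ∧ (∀ j : Fin d, ∑ i : Fin d, Q i j = 0) := by
  constructor
  · intro i j hij
    have h := (hasDerivAt_entry Q i j).tendsto_slope_zero_right
    refine ge_of_tendsto h ?_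
    filter_upwards [self_mem_nhdsWithin] with t ht
    have ht' : (0 : ℝ) < t := ht
    have h0 : exp ((0 : ℝ) • Q) i j = 0 := by
      simp [Matrix.one_apply_ne hij]
    rw [zero_add, h0, sub_zero, smul_eq_mul]
    exact mul_nonneg (inv_nonneg.mpr ht'.le) ((hst t ht'.le).1 i j)
  · intro j
    have h : HasDerivAt (fun t : ℝ => ∑ i : Fin d, exp (t • Q) i j) (∑ i : Fin d, Q i j) 0 :=
      HasDerivAt.fun_sum fun i _ => hasDerivAt_entry Q i j
    have h1 := h.tendsto_slope_zero_right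
    refine tendsto_nhds_unique h1 ?_
    refine (tendsto_const_nhds (x := (0 : ℝ))).congr' ?_
    filter_upwards [self_mem_nhdsWithin] with t ht
    have ht' : (0 : ℝ) < t := ht
    rw [zero_add, (hst t ht'.le).2 j, (hst 0 le_rfl).2 j, sub_self, smul_zero]

lemma norm_le_of_rows (A : Matrix (Fin d) (Fin d) ℝ) {c : ℝ} (hc : 0 ≤ c)
    (h : ∀ i, ∑ j, |A i j| ≤ c) : ‖A‖ ≤ c := by
  rw [Matrix.linfty_opNorm_def]
  have : ((Finset.univ : Finset (Fin d)).sup fun i => ∑ j, ‖A i j‖₊) ≤ (⟨c, hc⟩ : NNReal) := by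
    refine Finset.sup_le fun i _ => ?_
    have h1 : ((∑ j, ‖A i j‖₊ : NNReal) : ℝ) ≤ ((⟨c, hc⟩ : NNReal) : ℝ) := by
      push_cast
      simpa using h i
    exact_mod_cast h1
  exact_mod_cast this

lemma row_le_norm (A : Matrix (Fin d) (Fin d) ℝ) (i : Fin d) : ∑ j, |A i j| ≤ ‖A‖ := by
  rw [Matrix.linfty_opNorm_def]
  have : (∑ j, ‖A i j‖₊) ≤ ((Finset.univ : Finset (Fin d)).sup fun i => ∑ j, ‖A i j‖₊) :=
    Finset.le_sup (f := fun i => ∑ j, ‖A i j‖₊) (Finset.mem_univ i)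
  rw [← NNReal.coe_le_coe] at this
  push_cast at this
  simpa using this

lemma entry_le_norm (A : Matrix (Fin d) (Fin d) ℝ) (i j : Fin d) : |A i j| ≤ ‖A‖ :=
  (Finset.single_le_sum (f := fun j => |A i j|) (fun _ _ => abs_nonneg _)
    (Finset.mem_univ j)).trans (row_le_norm A i)

lemma pow_stochastic (S : Matrix (Fin d) (Fin d) ℝ) (h0 : ∀ i j, 0 ≤ S i j)
    (h1 : ∀ i, ∑ j, S i j = 1) (k : ℕ) :
    (∀ i j, 0 ≤ (S ^ k) i j) ∧ (∀ i, ∑ j, (S ^ k) i j = 1) := by
  induction k with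
  | zero =>
    constructor
    · intro i j
      rw [pow_zero, Matrix.one_apply]
      split_ifs <;> norm_num
    · intro i
      simp [Matrix.one_apply]
  | succ k ih =>
    rw [pow_succ]
    constructor
    · intro i j
      rw [Matrix.mul_apply]
      exact Finset.sum_nonneg fun l _ => mul_nonneg (ih.1 i l) (h0 l j)
    · intro i
      simp only [Matrix.mul_apply]
      rw [Finset.sum_comm]
      simp only [← Finset.mul_sum, h1, mul_one]
      exact ih.2 i

lemma norm_pow_stochastic (S : Matrix (Fin d) (Fin d) ℝ) (h0 : ∀ i j, 0 ≤ S i j)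
    (h1 : ∀ i, ∑ j, S i j = 1) (k : ℕ) : ‖S ^ k‖ ≤ 1 := by
  have h := pow_stochastic S h0 h1 k
  refine norm_le_of_rows _ zero_le_one fun i => ?_
  simp only [abs_of_nonneg (h.1 i _)]
  exact (h.2 i).le

/-- Bound for the largest exit rate. -/
theorem rate_bound {M : ℝ} (hM : 1 ≤ M) (Q : Matrix (Fin d) (Fin d) ℝ)
    (hinv : ∀ j : Fin d, ∑ i : Fin d, |exp (-Q) i j| ≤ M)
    (hoff : ∀ i j : Fin d, i ≠ j → 0 ≤ Q i j) (hcol : ∀ j : Fin d, ∑ i : Fin d, Q i j = 0)
    (j : Fin d) (hj : ∀ k, -Q k k ≤ -Q j j) (hpos : 0 < -Q j j) :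
    (∀ m : ℕ, Real.log M + 3 ≤ m → -Q j j < 16 * Real.exp 4 * (m : ℝ) ^ 3) ∧
      4 * (-Q j j) ≤ M ^ 2 := by
  set T : ℝ := -Q j j with hT
  set S : Matrix (Fin d) (Fin d) ℝ := 1 + T⁻¹ • Qᵀ with hS
  have hSapp : ∀ i k, S i k = (if i = k then 1 else 0) + T⁻¹ * Q k i := by
    intro i k
    rw [hS]
    simp [Matrix.add_apply, Matrix.one_apply]
  have hS0 : ∀ i k, 0 ≤ S i k := by
    intro i k
    rw [hSapp]
    split_ifs with h
    · subst h
      have h1 := hj i
      have : T⁻¹ * (-Q i i) ≤ 1 := by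
        rw [inv_mul_le_iff₀ hpos, mul_one]; exact h1
      linarith
    · have := hoff k i (Ne.symm h)
      positivity
  have hS1 : ∀ i, ∑ k, S i k = 1 := by
    intro i
    simp only [hSapp, Finset.sum_add_distrib, ← Finset.mul_sum, hcol]
    simp
  have hpow := norm_pow_stochastic S hS0 hS1
  have hstoch := pow_stochastic S hS0 hS1
  have e1 : T • (1 - S) = (-Q)ᵀ := by
    rw [hS, Matrix.transpose_neg]
    simp only [sub_add_cancel_left, smul_neg, smul_smul]
    rw [mul_inv_cancel₀ hpos.ne', one_smul]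
  have hMn : ‖exp (T • (1 - S))‖ ≤ M := by
    rw [e1, Matrix.exp_transpose]
    exact norm_le_of_rows _ (by linarith) fun i => by simpa using hinv i
  have hSjj : S j j = 0 := by
    rw [hSapp, if_pos rfl]
    have : T⁻¹ * Q j j = -1 := by
      have : Q j j = -T := by rw [hT]; ring
      rw [this, mul_neg, inv_mul_cancel₀ hpos.ne']
    linarith
  have hpb := fun i (hi : 1 ≤ i) => power_bound S hpow hpos hMn (i := i) hi
  constructor
  · intro m hm
    refine sequence_bound hM hpos (fun k => (S ^ k) j j)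
      (fun i => ((-(1 - S)) ^ i) j j) ?_ ?_ ?_ ?_ ?_ hm
    · intro k
      refine ⟨(hstoch k).1 j j, ?_⟩
      have := (hstoch k).2 j
      rw [← this]
      exact Finset.single_le_sum (f := fun l => (S ^ k) j l)
        (fun l _ => (hstoch k).1 j l) (Finset.mem_univ j)
    · simp
    · simpa using hSjj
    · intro k
      have h1 : S ^ k = ((-(1 - S)) + 1) ^ k := by congr 1; abel
      have hc : Commute (-(1 - S)) (1 : Matrix (Fin d) (Fin d) ℝ) := Commute.one_right _
      simp only [h1]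
      rw [hc.add_pow, Matrix.sum_apply]
      refine Finset.sum_congr rfl fun i _ => ?_
      rw [one_pow, mul_one, ← nsmul_eq_mul', Matrix.smul_apply, nsmul_eq_mul]
    · intro i hi
      refine (entry_le_norm _ j j).trans ?_
      rw [neg_pow]
      have h2 : ‖(-1 : Matrix (Fin d) (Fin d) ℝ) ^ i * (1 - S) ^ i‖ = ‖(1 - S) ^ i‖ := by
        rcases neg_one_pow_eq_or (Matrix (Fin d) (Fin d) ℝ) i with h | h
        · rw [h, one_mul]
        · rw [h, neg_one_mul, norm_neg]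
      rw [h2]
      exact hpb i hi
  · have h1 := hpb 1 le_rfl
    rw [pow_one, pow_one, Nat.cast_one] at h1
    have h2 : (2 : ℝ) ≤ ‖1 - S‖ := by
      refine le_trans ?_ (row_le_norm (1 - S) j)
      rw [← Finset.add_sum_erase _ _ (Finset.mem_univ j)]
      have h3 : |(1 - S) j j| = 1 := by
        rw [Matrix.sub_apply, hSjj]; simp
      have h4 : ∑ x ∈ Finset.univ.erase j, |(1 - S) j x| = 1 := by
        have h5 : ∑ x ∈ Finset.univ.erase j, |(1 - S) j x| = ∑ x ∈ Finset.univ.erase j, S j x := by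
          refine Finset.sum_congr rfl fun x hx => ?_
          have hx' : x ≠ j := (Finset.mem_erase.mp hx).1
          rw [Matrix.sub_apply, Matrix.one_apply_ne (Ne.symm hx'), zero_sub, abs_neg,
            abs_of_nonneg (hS0 j x)]
        rw [h5]
        have h6 := hS1 j
        rw [← Finset.add_sum_erase _ _ (Finset.mem_univ j), hSjj, zero_add] at h6
        exact h6
      rw [h3, h4]; norm_num
    have h3 : (2 : ℝ) ≤ M * Real.sqrt (1 / T) := h2.trans h1
    have h4 : (2 : ℝ) ^ 2 ≤ (M * Real.sqrt (1 / T)) ^ 2 := by gcongr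
    rw [mul_pow, Real.sq_sqrt (by positivity)] at h4
    have h5 : M ^ 2 * (1 / T) * T = M ^ 2 := by field_simp
    nlinarith [mul_le_mul_of_nonneg_right h4 hpos.le]

/-- **Main bound.** -/
theorem norm_bound {M : ℝ} (hM : 1 ≤ M) (Q : Matrix (Fin d) (Fin d) ℝ)
    (hinv : ∀ j : Fin d, ∑ i : Fin d, |exp (-Q) i j| ≤ M)
    (hst : ∀ t : ℝ, 0 ≤ t → (∀ i j : Fin d, 0 ≤ exp (t • Q) i j) ∧
      (∀ j : Fin d, ∑ i : Fin d, exp (t • Q) i j = 1)) (j : Fin d) :
    ∑ i : Fin d, |Q i j| ≤ 32 * Real.exp 4 * (Real.log M + 4) ^ 3 ∧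
      ∑ i : Fin d, |Q i j| ≤ M ^ 2 / 2 := by
  obtain ⟨hoff, hcol⟩ := generator_of_stochastic Q hst
  obtain ⟨j0, -, hj0⟩ := Finset.exists_max_image Finset.univ (fun j : Fin d => -Q j j)
    ⟨j, Finset.mem_univ j⟩
  have hsum : ∀ j, ∑ i : Fin d, |Q i j| = 2 * (-Q j j) := by
    intro j
    have h1 := hcol j
    rw [← Finset.add_sum_erase _ _ (Finset.mem_univ j)] at h1 ⊢
    have h2 : ∑ x ∈ Finset.univ.erase j, |Q x j| = ∑ x ∈ Finset.univ.erase j, Q x j := by
      refine Finset.sum_congr rfl fun x hx => ?_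
      exact abs_of_nonneg (hoff x j (Finset.mem_erase.mp hx).1)
    have h3 : 0 ≤ ∑ x ∈ Finset.univ.erase j, Q x j :=
      Finset.sum_nonneg fun x hx => hoff x j (Finset.mem_erase.mp hx).1
    rw [h2, abs_of_nonpos (by linarith)]
    linarith
  rw [hsum j]
  have hle : -Q j j ≤ -Q j0 j0 := hj0 j (Finset.mem_univ j)
  have hlog : 0 ≤ Real.log M := Real.log_nonneg hM
  have he : 0 < Real.exp 4 := Real.exp_pos _
  rcases le_or_gt (-Q j0 j0) 0 with h | h
  · have h1 : 2 * -Q j j ≤ 0 := by linarith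
    constructor
    · refine h1.trans (by positivity)
    · refine h1.trans (by positivity)
  · obtain ⟨hA, hB⟩ := rate_bound hM Q hinv hoff hcol j0 (fun k => hj0 k (Finset.mem_univ k)) h
    constructor
    · have h1 := hA ⌈Real.log M + 3⌉₊ (Nat.le_ceil _)
      have h2 : (⌈Real.log M + 3⌉₊ : ℝ) < Real.log M + 3 + 1 :=
        Nat.ceil_lt_add_one (by linarith)
      have h3 : (⌈Real.log M + 3⌉₊ : ℝ) ^ 3 ≤ (Real.log M + 4) ^ 3 := by
        gcongr; linarith
      have h4 : 16 * Real.exp 4 * (⌈Real.log M + 3⌉₊ : ℝ) ^ 3 ≤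
          16 * Real.exp 4 * (Real.log M + 4) ^ 3 := by gcongr
      linarith
    · linarith

end MarkovBound
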