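import Mathlib
import Pool.Agent.MP_c4a887_an.Matrix

set_option autoImplicit false

/-! Renewal chains on `n + 1` states all of whose nonzero eigenvalues are equal, and the resulting
lower bound. -/

open Matrix NormedSpace Filter Topology
open scoped Matrix.Norms.Operator

namespace MarkovDim

section analytic

variable {d : ℕ}

/-- `e^{-ct} exp(-tA) (A+c)^k` -/
noncomputable def G (A : Matrix (Fin d) (Fin d) ℝ) (c : ℝ) (k : ℕ) (t : ℝ) :
    Matrix (Fin d) (Fin d) ℝ :=
  Real.exp (-c * t) • (exp (t • (-A)) * (A + c • 1) ^ k)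

lemma hasDerivAt_G (A : Matrix (Fin d) (Fin d) ℝ) (c : ℝ) (k : ℕ) (t : ℝ) :
    HasDerivAt (G A c k) (-(G A c (k + 1) t)) t := by
  have h1 := hasDerivAt_exp_smul_const (𝕂 := ℝ) (-A) t
  have h2 : HasDerivAt (fun t : ℝ => exp (t • (-A)) * (A + c • 1) ^ k)
      (exp (t • (-A)) * (-A) * (A + c • 1) ^ k) t := h1.mul_const _
  have h3 : HasDerivAt (fun t : ℝ => Real.exp (-c * t)) (Real.exp (-c * t) * (-c)) t := by
    have := ((hasDerivAt_id t).const_mul (-c)).exp
    simpa using this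
  have h4 := h3.smul h2
  have h5 : -(G A c (k + 1) t) = Real.exp (-c * t) • (exp (t • (-A)) * (-A) * (A + c • 1) ^ k) +
      (Real.exp (-c * t) * (-c)) • (exp (t • (-A)) * (A + c • 1) ^ k) := by
    rw [G, pow_succ']
    have h6 : exp (t • (-A)) * ((A + c • 1) * (A + c • 1) ^ k) =
        -(exp (t • (-A)) * (-A) * (A + c • 1) ^ k) + c • (exp (t • (-A)) * (A + c • 1) ^ k) := by
      rw [add_mul, mul_add]
      congr 1
      · rw [mul_neg, neg_mul, neg_neg, mul_assoc]
      · rw [smul_mul_assoc, one_mul, mul_smul_comm]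
    rw [h6, smul_add, smul_neg, neg_add, neg_neg, smul_smul, ← neg_smul]
    congr 2
    ring
  rw [h5]
  exact h4

lemma G_top (A : Matrix (Fin d) (Fin d) ℝ) (c : ℝ) (n : ℕ) (h : A * (A + c • 1) ^ n = 0) (t : ℝ) :
    G A c n t = Real.exp (-c * t) • (A + c • 1) ^ n := by
  have h1 : ∀ x : ℝ, HasDerivAt (fun t : ℝ => exp (t • (-A)) * (A + c • 1) ^ n) 0 x := by
    intro x
    have h1 := hasDerivAt_exp_smul_const (𝕂 := ℝ) (-A) x
    have h2 : HasDerivAt (fun t : ℝ => exp (t • (-A)) * (A + c • 1) ^ n)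
        (exp (x • (-A)) * (-A) * (A + c • 1) ^ n) x := h1.mul_const _
    have h3 : exp (x • (-A)) * (-A) * (A + c • 1) ^ n = 0 := by
      rw [mul_assoc, neg_mul, h, neg_zero, mul_zero]
    rwa [h3] at h2
  have h2 : (fun t : ℝ => exp (t • (-A)) * (A + c • 1) ^ n) t =
      (fun t : ℝ => exp (t • (-A)) * (A + c • 1) ^ n) 0 :=
    is_const_of_deriv_eq_zero (fun x => (h1 x).differentiableAt) (fun x => (h1 x).deriv) t 0
  simp only [zero_smul, NormedSpace.exp_zero, one_mul] at h2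
  rw [G, h2]

lemma G_bound (A : Matrix (Fin d) (Fin d) ℝ) {c : ℝ} (hc : 0 ≤ c) (n : ℕ)
    (h : A * (A + c • 1) ^ n = 0) (j : ℕ) (hj : j ≤ n) :
    ∃ K : ℝ, 0 ≤ K ∧ ∀ t : ℝ, 0 ≤ t → ‖G A c (n - j) t‖ ≤ K * (1 + t) ^ j := by
  induction j with
  | zero =>
    refine ⟨‖(A + c • 1) ^ n‖, norm_nonneg _, fun t ht => ?_⟩
    rw [Nat.sub_zero, G_top A c n h t, norm_smul, pow_zero, mul_one, Real.norm_eq_abs,
      abs_of_pos (Real.exp_pos _)]
    have : Real.exp (-c * t) ≤ 1 := Real.exp_le_one_iff.mpr (by nlinarith)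
    exact mul_le_of_le_one_left (norm_nonneg _) this
  | succ j ih =>
    obtain ⟨K, hK, hb⟩ := ih (by omega)
    have hsub : n - (j + 1) + 1 = n - j := by omega
    refine ⟨‖G A c (n - (j + 1)) 0‖ + K, by positivity, fun t ht => ?_⟩
    have h1 : ∀ x ∈ Set.Icc (0 : ℝ) t, HasDerivWithinAt (G A c (n - (j + 1)))
        (-(G A c (n - j) x)) (Set.Icc 0 t) x := by
      intro x _
      have := hasDerivAt_G A c (n - (j + 1)) x
      rw [hsub] at this
      exact this.hasDerivWithinAt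
    have h2 : ∀ x ∈ Set.Ico (0 : ℝ) t, ‖-(G A c (n - j) x)‖ ≤ K * (1 + t) ^ j := by
      intro x hx
      rw [norm_neg]
      refine (hb x hx.1).trans ?_
      have h3 : (1 + x) ^ j ≤ (1 + t) ^ j :=
        pow_le_pow_left₀ (by linarith [hx.1]) (by linarith [hx.2]) j
      exact mul_le_mul_of_nonneg_left h3 hK
    have h3 := norm_image_sub_le_of_norm_deriv_le_segment' h1 h2 t (Set.right_mem_Icc.mpr ht)
    rw [sub_zero] at h3
    have h4 : ‖G A c (n - (j + 1)) t‖ ≤ ‖G A c (n - (j + 1)) 0‖ + K * (1 + t) ^ j * t := by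
      have := norm_le_norm_add_norm_sub' (G A c (n - (j + 1)) t) (G A c (n - (j + 1)) 0)
      linarith
    refine h4.trans ?_
    have h5 : (1 : ℝ) ≤ (1 + t) ^ (j + 1) := one_le_pow₀ (by linarith)
    have h6 : (1 + t) ^ j * t ≤ (1 + t) ^ (j + 1) := by
      rw [pow_succ]
      exact mul_le_mul_of_nonneg_left (by linarith) (by positivity)
    nlinarith [mul_le_mul_of_nonneg_left h5 (norm_nonneg (G A c (n - (j + 1)) 0)),
      mul_le_mul_of_nonneg_left h6 hK]

/-- growth of `exp(-tA)` when `A (A+c)^n = 0` -/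
lemma exp_growth (A : Matrix (Fin d) (Fin d) ℝ) {c : ℝ} (hc : 0 ≤ c) (n : ℕ)
    (h : A * (A + c • 1) ^ n = 0) {ε : ℝ} (hε : 0 < ε) :
    ∃ T : ℝ, 0 ≤ T ∧ ∀ t : ℝ, T ≤ t → ‖exp (t • (-A))‖ ≤ Real.exp ((c + ε) * t) := by
  obtain ⟨K, hK, hb⟩ := G_bound A hc n h n le_rfl
  rw [Nat.sub_self] at hb
  have h1 : Tendsto (fun t : ℝ => K * ((1 + t) ^ n / Real.exp (ε * (1 + t)))) atTop (𝓝 (K * 0)) := by
    refine Tendsto.const_mul K ?_
    have h2 : Tendsto (fun y : ℝ => y ^ n / Real.exp (ε * y)) atTop (𝓝 0) := by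
      have h3 := (Real.tendsto_pow_mul_exp_neg_atTop_nhds_zero n).comp
        (tendsto_id.const_mul_atTop hε)
      have h4 : (fun y : ℝ => y ^ n / Real.exp (ε * y)) =
          fun y : ℝ => (1 / ε ^ n) * ((ε * y) ^ n * Real.exp (-(ε * y))) := by
        funext y
        rw [mul_pow, Real.exp_neg]
        field_simp
      rw [h4]
      have h5 := h3.const_mul (1 / ε ^ n)
      rw [mul_zero] at h5
      exact h5
    exact h2.comp (tendsto_atTop_add_const_left _ 1 tendsto_id)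
  rw [mul_zero] at h1
  have h2 : ∀ᶠ t in atTop, K * ((1 + t) ^ n / Real.exp (ε * (1 + t))) ≤ Real.exp (-ε) := by
    have := (tendsto_order.mp h1).2 (Real.exp (-ε)) (Real.exp_pos _)
    filter_upwards [this] with t ht using ht.le
  obtain ⟨T, hT⟩ := (h2.and (eventually_ge_atTop 0)).exists_forall_of_atTop
  refine ⟨max T 0, le_max_right _ _, fun t ht => ?_⟩
  have ht0 : 0 ≤ t := (le_max_right _ _).trans ht
  have h3 := (hT t ((le_max_left _ _).trans ht)).1
  have h4 := hb t ht0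
  have h5 : ‖G A c 0 t‖ = Real.exp (-c * t) * ‖exp (t • (-A))‖ := by
    rw [G, pow_zero, mul_one, norm_smul, Real.norm_eq_abs, abs_of_pos (Real.exp_pos _)]
  rw [h5] at h4
  have h6 : K * (1 + t) ^ n ≤ Real.exp (ε * t) := by
    have h7 : K * (1 + t) ^ n = K * ((1 + t) ^ n / Real.exp (ε * (1 + t))) *
        Real.exp (ε * (1 + t)) := by
      field_simp
    rw [h7]
    calc _ ≤ Real.exp (-ε) * Real.exp (ε * (1 + t)) :=
          mul_le_mul_of_nonneg_right h3 (Real.exp_pos _).le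
      _ = Real.exp (ε * t) := by rw [← Real.exp_add]; congr 1; ring
  have h8 : Real.exp (-c * t) * ‖exp (t • (-A))‖ ≤ Real.exp (ε * t) := h4.trans h6
  calc ‖exp (t • (-A))‖ = Real.exp (c * t) * (Real.exp (-c * t) * ‖exp (t • (-A))‖) := by
        rw [← mul_assoc, ← Real.exp_add]
        have : c * t + -c * t = 0 := by ring
        rw [this, Real.exp_zero, one_mul]
    _ ≤ Real.exp (c * t) * Real.exp (ε * t) :=
        mul_le_mul_of_nonneg_left h8 (Real.exp_pos _).le
    _ = Real.exp ((c + ε) * t) := by rw [← Real.exp_add]; congr 1; ring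

end analytic

section chain

/-- the stationary vector of the chain -/
noncomputable def cc (n : ℕ) (r : ℝ) (j : ℕ) : ℝ := (n.choose j : ℝ) * (1 / n) ^ j * r ^ (n - j)

/-- the renewal chain -/
noncomputable def chain (n : ℕ) (r : ℝ) : Matrix (Fin (n + 1)) (Fin (n + 1)) ℝ :=
  Matrix.of fun i j =>
    if (j : ℕ) = 0 then
      (if (i : ℕ) = 0 then -1 else (cc n r i - cc n r (i + 1)) / r ^ (n - 1))
    else (if i = j then -r else if (i : ℕ) + 1 = j then r else 0)

lemma cc_top (n : ℕ) (r : ℝ) : cc n r (n + 1) = 0 := by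
  simp [cc]

lemma cc_zero (n : ℕ) (r : ℝ) : cc n r 0 = r ^ n := by
  simp [cc]

lemma cc_one {n : ℕ} (hn : 1 ≤ n) (r : ℝ) : cc n r 1 = r ^ (n - 1) := by
  have : (n : ℝ) ≠ 0 := by positivity
  simp [cc, this]

lemma cc_succ_le {n : ℕ} (hn : 2 ≤ n) {r : ℝ} (hr : r = ((n : ℝ) - 1) / (2 * n)) {k : ℕ}
    (hk : 1 ≤ k) (hkn : k ≤ n) : cc n r (k + 1) ≤ cc n r k := by
  have hn0 : (0 : ℝ) < n := by positivity
  have hn1 : (2 : ℝ) ≤ n := by exact_mod_cast hn
  have hr0 : 0 < r := by rw [hr]; exact div_pos (by linarith) (by linarith)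
  rcases Nat.lt_or_ge k n with hlt | hge
  · have h1 : (n.choose (k + 1) : ℝ) * (k + 1) = n.choose k * (n - k) := by
      have := Nat.choose_succ_right_eq n k
      have h2 : ((n.choose (k + 1) * (k + 1) : ℕ) : ℝ) = ((n.choose k * (n - k) : ℕ) : ℝ) := by
        rw [this]
      push_cast [Nat.cast_sub hkn] at h2
      exact h2
    have hk1 : (1 : ℝ) ≤ k := by exact_mod_cast hk
    have hk2 : (k : ℝ) + 1 ≤ n := by exact_mod_cast hlt
    have hA : (0 : ℝ) ≤ n.choose k := by positivity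
    -- `choose (k+1) ≤ n r choose k`
    have h3 : (n.choose (k + 1) : ℝ) ≤ n * r * n.choose k := by
      have h4 : (n : ℝ) * r = ((n : ℝ) - 1) / 2 := by rw [hr]; field_simp
      rw [h4]
      have h5 : (n.choose (k + 1) : ℝ) * (k + 1) ≤ (((n : ℝ) - 1) / 2 * n.choose k) * (k + 1) := by
        rw [h1]
        have h6 : (n : ℝ) - k ≤ ((n : ℝ) - 1) / 2 * (k + 1) := by nlinarith
        nlinarith [mul_le_mul_of_nonneg_left h6 hA]
      exact le_of_mul_le_mul_right h5 (by linarith)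
    have h7 : n - k = (n - (k + 1)) + 1 := by omega
    rw [cc, cc, h7, pow_succ (1 / (n : ℝ)) k, pow_succ r]
    have h8 : (n.choose (k + 1) : ℝ) * (1 / n) ≤ n.choose k * r := by
      rw [mul_one_div, div_le_iff₀ hn0]
      nlinarith
    have h9 : (0 : ℝ) ≤ (1 / n) ^ k * r ^ (n - (k + 1)) := by positivity
    nlinarith [mul_le_mul_of_nonneg_right h8 h9]
  · have : k = n := le_antisymm hkn hge
    rw [this, cc_top, cc]
    positivity

lemma chain_off {n : ℕ} (hn : 2 ≤ n) {r : ℝ} (hr : r = ((n : ℝ) - 1) / (2 * n))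
    (i j : Fin (n + 1)) (hij : i ≠ j) : 0 ≤ chain n r i j := by
  have hn1 : (2 : ℝ) ≤ n := by exact_mod_cast hn
  have hr0 : 0 < r := by rw [hr]; exact div_pos (by linarith) (by linarith)
  rw [chain, Matrix.of_apply]
  split_ifs with h1 h2 h3
  · exact absurd (Fin.ext (h2.trans h1.symm)) hij
  · exact div_nonneg (sub_nonneg.mpr (cc_succ_le hn hr (by omega) (by have := i.isLt; omega)))
      (by positivity)
  · exact hr0.le
  · exact le_rfl

lemma sum_fin_tele (n : ℕ) (f : ℕ → ℝ) :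
    ∑ i : Fin n, (f ((i : ℕ) + 1) - f ((i : ℕ) + 1 + 1)) = f 1 - f (n + 1) := by
  rw [Fin.sum_univ_eq_sum_range (fun i => f (i + 1) - f (i + 1 + 1)) n]
  have := Finset.sum_range_sub' (fun i => f (i + 1)) n
  simpa using this

lemma chain_col {n : ℕ} (hn : 2 ≤ n) {r : ℝ} (hr : r = ((n : ℝ) - 1) / (2 * n))
    (j : Fin (n + 1)) : ∑ i, chain n r i j = 0 := by
  have hn1 : (2 : ℝ) ≤ n := by exact_mod_cast hn
  have hr0 : 0 < r := by rw [hr]; exact div_pos (by linarith) (by linarith)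
  by_cases hj : (j : ℕ) = 0
  · rw [Fin.sum_univ_succ]
    have h1 : chain n r 0 j = -1 := by
      rw [chain, Matrix.of_apply, if_pos hj, if_pos (Fin.val_zero _)]
    have h2 : ∀ i : Fin n, chain n r i.succ j =
        (cc n r ((i : ℕ) + 1) - cc n r ((i : ℕ) + 1 + 1)) / r ^ (n - 1) := by
      intro i
      rw [chain, Matrix.of_apply, if_pos hj, if_neg (by rw [Fin.val_succ]; omega), Fin.val_succ]
    rw [h1, Finset.sum_congr rfl (fun i _ => h2 i), ← Finset.sum_div, sum_fin_tele, cc_top,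
      cc_one (by omega), sub_zero, div_self (by positivity)]
    ring
  · obtain ⟨k, hk⟩ : ∃ k : ℕ, (j : ℕ) = k + 1 := ⟨(j : ℕ) - 1, by omega⟩
    have hlt : k < n + 1 := by have := j.isLt; omega
    have hne : (⟨k, hlt⟩ : Fin (n + 1)) ≠ j := by
      intro h; have := congrArg Fin.val h; simp only at this; omega
    have h1 : ∀ i : Fin (n + 1), chain n r i j =
        (if i = j then -r else 0) + (if i = (⟨k, hlt⟩ : Fin (n + 1)) then r else 0) := by
      intro i
      rw [chain, Matrix.of_apply, if_neg hj]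
      by_cases h2 : i = j
      · have h3 : i ≠ (⟨k, hlt⟩ : Fin (n + 1)) := fun h => hne (h ▸ h2)
        rw [if_pos h2, if_pos h2, if_neg h3, add_zero]
      · rw [if_neg h2, if_neg h2, zero_add]
        have h4 : ((i : ℕ) + 1 = j) ↔ i = (⟨k, hlt⟩ : Fin (n + 1)) := by
          rw [Fin.ext_iff, hk]
          simp
        simp only [h4]
    rw [Finset.sum_congr rfl (fun i _ => h1 i), Finset.sum_add_distrib]
    simp

/-- the unit vectors -/
def ee (n : ℕ) (k : ℕ) : Fin (n + 1) → ℝ := fun i => if (i : ℕ) = k then 1 else 0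

lemma mulVec_ee {n : ℕ} (B : Matrix (Fin (n + 1)) (Fin (n + 1)) ℝ) {k : ℕ} (hk : k < n + 1) :
    B *ᵥ ee n k = fun i => B i ⟨k, hk⟩ := by
  funext i
  rw [Matrix.mulVec, dotProduct]
  have h : ∀ j : Fin (n + 1), B i j * ee n k j = if j = ⟨k, hk⟩ then B i j else 0 := by
    intro j
    simp only [ee, Fin.ext_iff]
    split_ifs <;> simp
  rw [Finset.sum_congr rfl (fun j _ => h j)]
  simp

/-- the chain shifted by the bulk rate -/
noncomputable def W (n : ℕ) (r : ℝ) : Matrix (Fin (n + 1)) (Fin (n + 1)) ℝ := chain n r + r • 1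

lemma W_ee {n : ℕ} (r : ℝ) {k : ℕ} (hk : k + 1 < n + 1) :
    W n r *ᵥ ee n (k + 1) = r • ee n k := by
  rw [mulVec_ee _ hk]
  funext i
  simp only [W, Matrix.add_apply, Matrix.smul_apply, Matrix.one_apply, chain, Matrix.of_apply,
    Pi.smul_apply, ee, smul_eq_mul, Fin.ext_iff, Nat.add_right_cancel_iff]
  by_cases h1 : (i : ℕ) = k + 1
  · have h2 : ¬ ((i : ℕ) = k) := by omega
    simp [h1]
  · by_cases h2 : (i : ℕ) = k
    · simp [h2]
    · simp [h1, h2]

lemma W_pow_ee {n : ℕ} (r : ℝ) (m : ℕ) (hm : m ≤ n) :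
    (W n r ^ m) *ᵥ ee n n = r ^ m • ee n (n - m) := by
  induction m with
  | zero => simp
  | succ m ih =>
    rw [pow_succ', ← Matrix.mulVec_mulVec, ih (by omega), Matrix.mulVec_smul]
    have h : n - m = (n - (m + 1)) + 1 := by omega
    rw [h, W_ee r (by omega), smul_smul, pow_succ]

/-- the stationary vector as a combination of unit vectors -/
lemma N_pow_ee {n : ℕ} (r : ℝ) :
    ((W n r + (1 / (n : ℝ)) • 1) ^ n) *ᵥ ee n n = fun i : Fin (n + 1) => cc n r (i : ℕ) := by
  have hc : Commute (W n r) ((1 / (n : ℝ)) • (1 : Matrix (Fin (n + 1)) (Fin (n + 1)) ℝ)) :=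
    (Commute.one_right _).smul_right _
  rw [hc.add_pow, Matrix.sum_mulVec]
  have h1 : ∀ m ∈ Finset.range (n + 1),
      (W n r ^ m * ((1 / (n : ℝ)) • 1) ^ (n - m) *
        ((n.choose m : ℕ) : Matrix (Fin (n + 1)) (Fin (n + 1)) ℝ)) *ᵥ ee n n =
        fun i : Fin (n + 1) => if (i : ℕ) = n - m then cc n r (i : ℕ) else 0 := by
    intro m hm
    have hmn : m ≤ n := by have := Finset.mem_range.mp hm; omega
    have h2 : (W n r ^ m * ((1 / (n : ℝ)) • 1) ^ (n - m) *
        ((n.choose m : ℕ) : Matrix (Fin (n + 1)) (Fin (n + 1)) ℝ)) =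
        ((n.choose m : ℝ) * (1 / (n : ℝ)) ^ (n - m)) • W n r ^ m := by
      rw [smul_pow, one_pow, mul_smul_comm, mul_one, smul_mul_assoc, ← nsmul_eq_mul',
        ← Nat.cast_smul_eq_nsmul ℝ, smul_smul, mul_comm]
    rw [h2, Matrix.smul_mulVec, W_pow_ee r m hmn, smul_smul]
    funext i
    simp only [Pi.smul_apply, ee, smul_eq_mul, mul_ite, mul_one, mul_zero]
    split_ifs with h3
    · rw [cc, h3, Nat.choose_symm hmn]
      have h4 : n - (n - m) = m := by omega
      rw [h4]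
    · rfl
  rw [Finset.sum_congr rfl h1]
  funext i
  rw [Finset.sum_apply]
  have hi : (i : ℕ) < n + 1 := i.isLt
  rw [Finset.sum_eq_single (n - (i : ℕ))]
  · have : n - (n - (i : ℕ)) = i := by omega
    rw [if_pos this.symm]
  · intro b hb hbi
    rw [if_neg]
    have := Finset.mem_range.mp hb
    omega
  · intro h
    exact absurd (Finset.mem_range.mpr (by omega)) h

lemma chain_cc {n : ℕ} (hn : 2 ≤ n) {r : ℝ} (hr : r = ((n : ℝ) - 1) / (2 * n)) :
    chain n r *ᵥ (fun i => cc n r i) = 0 := by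
  have hn1 : (2 : ℝ) ≤ n := by exact_mod_cast hn
  have hr0 : 0 < r := by rw [hr]; exact div_pos (by linarith) (by linarith)
  funext i
  rw [Matrix.mulVec, dotProduct, Fin.sum_univ_succ]
  have h1 : ∀ j : Fin n, chain n r i j.succ * cc n r j.succ =
      (if (j : ℕ) + 1 = i then -r * cc n r i else 0) +
        (if (j : ℕ) = i then r * cc n r (i + 1) else 0) := by
    intro j
    rw [chain, Matrix.of_apply]
    have h2 : ¬ ((j.succ : Fin (n + 1)) : ℕ) = 0 := by simp
    rw [if_neg h2]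
    simp only [Fin.ext_iff, Fin.val_succ, Nat.add_right_cancel_iff]
    by_cases h3 : (i : ℕ) = (j : ℕ) + 1
    · have h4 : ¬ (i : ℕ) = j := by omega
      have h5 : ¬ (j : ℕ) = i := by omega
      rw [if_pos h3, if_pos h3.symm, if_neg h5, h3, add_zero]
    · have h3' : ¬ (j : ℕ) + 1 = i := fun h => h3 h.symm
      rw [if_neg h3, if_neg h3', zero_add]
      by_cases h4 : (i : ℕ) = j
      · rw [if_pos h4, if_pos h4.symm, h4]
      · rw [if_neg h4, if_neg (fun h => h4 h.symm), zero_mul]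
  rw [Finset.sum_congr rfl (fun j _ => h1 j), Finset.sum_add_distrib, Pi.zero_apply]
  have hi : (i : ℕ) < n + 1 := i.isLt
  have h6 : ∑ j : Fin n, (if (j : ℕ) = i then r * cc n r (i + 1) else 0) = r * cc n r (i + 1) := by
    rcases Nat.lt_or_ge (i : ℕ) n with hlt | hge
    · rw [Finset.sum_eq_single ⟨i, hlt⟩]
      · simp
      · intro b _ hb
        rw [if_neg]
        intro h; exact hb (Fin.ext h)
      · intro h; exact absurd (Finset.mem_univ _) h
    · have hin : (i : ℕ) = n := by omega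
      rw [hin, cc_top, mul_zero]
      simp
  rw [h6]
  by_cases hi0 : (i : ℕ) = 0
  · have h7 : ∑ j : Fin n, (if (j : ℕ) + 1 = i then -r * cc n r i else 0) = 0 := by
      apply Finset.sum_eq_zero
      intro j _
      rw [if_neg (by omega)]
    have h8 : chain n r i 0 = -1 := by
      rw [chain, Matrix.of_apply, if_pos (Fin.val_zero _), if_pos hi0]
    rw [h7, h8, hi0, zero_add]
    simp only [Fin.val_zero, cc_zero, zero_add, cc_one (by omega : 1 ≤ n)]
    have h9 : r ^ n = r * r ^ (n - 1) := by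
      rw [← pow_succ']; congr 1; omega
    rw [h9]; ring
  · have h7 : ∑ j : Fin n, (if (j : ℕ) + 1 = i then -r * cc n r i else 0) = -r * cc n r i := by
      rw [Finset.sum_eq_single ⟨(i : ℕ) - 1, by omega⟩]
      · rw [if_pos (by simp only; omega)]
      · intro b _ hb
        rw [if_neg]
        intro h
        exact hb (Fin.ext (by simp only; omega))
      · intro h; exact absurd (Finset.mem_univ _) h
    have h8 : chain n r i 0 = (cc n r i - cc n r (i + 1)) / r ^ (n - 1) := by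
      rw [chain, Matrix.of_apply, if_pos (Fin.val_zero _), if_neg hi0]
    rw [h7, h8]
    simp only [Fin.val_zero, cc_zero]
    have h9 : r ^ n = r * r ^ (n - 1) := by
      rw [← pow_succ']; congr 1; omega
    rw [h9]
    field_simp
    ring

/-- all nonzero eigenvalues of `-chain` equal `c = r + 1/n` -/
lemma chain_annihilate {n : ℕ} (hn : 2 ≤ n) {r : ℝ} (hr : r = ((n : ℝ) - 1) / (2 * n)) :
    chain n r * (chain n r + (r + 1 / (n : ℝ)) • 1) ^ n = 0 := by
  have hn1 : (2 : ℝ) ≤ n := by exact_mod_cast hn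
  have hr0 : 0 < r := by rw [hr]; exact div_pos (by linarith) (by linarith)
  have hN : chain n r + (r + 1 / (n : ℝ)) • 1 = W n r + (1 / (n : ℝ)) • 1 := by
    rw [W, add_smul, add_assoc]
  rw [hN]
  obtain ⟨B, hB⟩ : ∃ B, B = chain n r * (W n r + (1 / (n : ℝ)) • 1) ^ n := ⟨_, rfl⟩
  rw [← hB]
  have hcomm : Commute B (W n r) := by
    have h1 : Commute (chain n r) (W n r) := by
      rw [W]
      exact (Commute.refl _).add_right ((Commute.one_right _).smul_right _)
    have h2 : Commute ((W n r + (1 / (n : ℝ)) • 1) ^ n) (W n r) := by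
      apply Commute.pow_left
      exact (Commute.refl _).add_left ((Commute.one_left _).smul_left _)
    rw [hB]
    exact h1.mul_left h2
  have h0 : B *ᵥ ee n n = 0 := by
    rw [hB, ← Matrix.mulVec_mulVec, N_pow_ee, chain_cc hn hr]
  have hall : ∀ k : ℕ, k ≤ n → B *ᵥ ee n k = 0 := by
    intro k hk
    have h1 := W_pow_ee (n := n) r (n - k) (by omega)
    have h2 : n - (n - k) = k := by omega
    rw [h2] at h1
    have h3 : B *ᵥ ((W n r ^ (n - k)) *ᵥ ee n n) = 0 := by
      rw [Matrix.mulVec_mulVec, (hcomm.pow_right (n - k)).eq, ← Matrix.mulVec_mulVec, h0,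
        Matrix.mulVec_zero]
    rw [h1, Matrix.mulVec_smul] at h3
    rcases smul_eq_zero.mp h3 with h4 | h4
    · exact absurd h4 (by positivity)
    · exact h4
  ext i j
  have h1 := congrFun (hall j (by have := j.isLt; omega)) i
  rw [mulVec_ee B j.isLt] at h1
  exact h1

end chain

section final

variable {d : ℕ}

lemma hasSum_exp (A : Matrix (Fin d) (Fin d) ℝ) :
    HasSum (fun n : ℕ => ((n.factorial : ℝ)⁻¹) • A ^ n) (exp A) :=
  NormedSpace.exp_series_hasSum_exp' (𝕂 := ℝ) A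

lemma exp_nonneg_of_nonneg (A : Matrix (Fin d) (Fin d) ℝ) (hA : ∀ i j, 0 ≤ A i j) (i j : Fin d) :
    0 ≤ exp A i j := by
  have hpow : ∀ n : ℕ, ∀ i j, 0 ≤ (A ^ n) i j := by
    intro n
    induction n with
    | zero =>
      intro i j
      rw [pow_zero, Matrix.one_apply]
      split_ifs <;> norm_num
    | succ n ih =>
      intro i j
      rw [pow_succ, Matrix.mul_apply]
      exact Finset.sum_nonneg fun l _ => mul_nonneg (ih i l) (hA l j)
  have h1 := (LinearMap.toContinuousLinearMap (Matrix.entryLinearMap ℝ ℝ i j)).hasSum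
    (hasSum_exp A)
  have h2 : ∀ n : ℕ, 0 ≤ (LinearMap.toContinuousLinearMap (Matrix.entryLinearMap ℝ ℝ i j))
      (((n.factorial : ℝ)⁻¹) • A ^ n) := by
    intro n
    have : (LinearMap.toContinuousLinearMap (Matrix.entryLinearMap ℝ ℝ i j))
      (((n.factorial : ℝ)⁻¹) • A ^ n) = ((n.factorial : ℝ)⁻¹) * (A ^ n) i j := rfl
    rw [this]
    exact mul_nonneg (by positivity) (hpow n i j)
  exact h1.nonneg h2

/-- A Markov generator generates a column stochastic semigroup. -/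
lemma stochastic_of_generator (Q : Matrix (Fin d) (Fin d) ℝ)
    (hoff : ∀ i j : Fin d, i ≠ j → 0 ≤ Q i j) (hcol : ∀ j : Fin d, ∑ i : Fin d, Q i j = 0)
    (t : ℝ) (ht : 0 ≤ t) :
    (∀ i j : Fin d, 0 ≤ exp (t • Q) i j) ∧ (∀ j : Fin d, ∑ i : Fin d, exp (t • Q) i j = 1) := by
  constructor
  · intro i j
    obtain ⟨c, hc⟩ : ∃ c : ℝ, ∀ k : Fin d, -Q k k ≤ c := by
      refine ⟨∑ k, |Q k k|, fun k => ?_⟩
      have h1 := Finset.single_le_sum (f := fun k => |Q k k|) (fun k _ => abs_nonneg _)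
        (Finset.mem_univ k)
      exact (neg_le_abs _).trans h1
    have h1 : t • Q = t • (Q + c • 1) + (-(t * c)) • (1 : Matrix (Fin d) (Fin d) ℝ) := by
      rw [smul_add, smul_smul, neg_smul, add_assoc, add_neg_cancel, add_zero]
    have h2 : Commute (t • (Q + c • 1)) ((-(t * c)) • (1 : Matrix (Fin d) (Fin d) ℝ)) :=
      (Commute.one_right _).smul_right _
    have h3 : exp ((-(t * c)) • (1 : Matrix (Fin d) (Fin d) ℝ)) =
        Real.exp (-(t * c)) • (1 : Matrix (Fin d) (Fin d) ℝ) := by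
      have h4 := NormedSpace.algebraMap_exp_comm (𝕂 := ℝ) (𝔸 := Matrix (Fin d) (Fin d) ℝ)
        (-(t * c))
      rw [← Real.exp_eq_exp_ℝ, Algebra.algebraMap_eq_smul_one, Algebra.algebraMap_eq_smul_one]
        at h4
      exact h4.symm
    have h5 : exp (t • Q) = Real.exp (-(t * c)) • exp (t • (Q + c • 1)) := by
      rw [h1, Matrix.exp_add_of_commute _ _ h2, h3, mul_smul_comm, mul_one]
    rw [h5, Matrix.smul_apply, smul_eq_mul]
    refine mul_nonneg (Real.exp_pos _).le (exp_nonneg_of_nonneg _ ?_ i j)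
    intro k l
    rw [Matrix.smul_apply, Matrix.add_apply, Matrix.smul_apply, Matrix.one_apply, smul_eq_mul,
      smul_eq_mul]
    refine mul_nonneg ht ?_
    split_ifs with hkl
    · rw [hkl]; have := hc l; linarith
    · rw [mul_zero, add_zero]; exact hoff k l hkl
  · intro j
    have h1 := hasSum_exp (t • Q)
    let φ : Matrix (Fin d) (Fin d) ℝ →ₗ[ℝ] ℝ :=
      { toFun := fun A => ∑ i, A i j
        map_add' := fun A B => by simp [Finset.sum_add_distrib]
        map_smul' := fun c A => by simp [Finset.mul_sum] }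
    have h2 := (LinearMap.toContinuousLinearMap φ).hasSum h1
    have h3 : ∀ n : ℕ, n ≠ 0 → φ ((((n.factorial : ℝ)⁻¹) • (t • Q) ^ n)) = 0 := by
      intro n hn
      obtain ⟨m, rfl⟩ := Nat.exists_eq_succ_of_ne_zero hn
      rw [map_smul]
      have h4 : φ ((t • Q) ^ (m + 1)) = 0 := by
        change ∑ i, ((t • Q) ^ (m + 1)) i j = 0
        rw [pow_succ']
        simp only [Matrix.mul_apply, Matrix.smul_apply, smul_eq_mul]
        rw [Finset.sum_comm]
        apply Finset.sum_eq_zero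
        intro k _
        rw [← Finset.sum_mul, ← Finset.mul_sum, hcol, mul_zero, zero_mul]
      rw [h4, smul_zero]
    have h5 : HasSum (fun n : ℕ => φ ((((n.factorial : ℝ)⁻¹) • (t • Q) ^ n)))
        (φ ((((Nat.factorial 0 : ℕ) : ℝ)⁻¹) • (t • Q) ^ 0)) :=
      hasSum_single 0 (fun n hn => h3 n hn)
    have h6 : φ ((((Nat.factorial 0 : ℕ) : ℝ)⁻¹) • (t • Q) ^ 0) = 1 := by
      rw [pow_zero, Nat.factorial_zero, Nat.cast_one, inv_one, one_smul]
      change ∑ i, (1 : Matrix (Fin d) (Fin d) ℝ) i j = 1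
      simp [Matrix.one_apply]
    rw [h6] at h5
    exact h2.unique h5

/-- the chain on `d` states with rate `1` at one state and all nonzero eigenvalues equal to
`d / (2 (d - 1))` -/
lemma exists_chain (hd : 2 ≤ d) : ∃ Q : Matrix (Fin d) (Fin d) ℝ,
    (∀ i j : Fin d, i ≠ j → 0 ≤ Q i j) ∧ (∀ j : Fin d, ∑ i : Fin d, Q i j = 0) ∧
    Q * (Q + ((d : ℝ) / (2 * ((d : ℝ) - 1))) • 1) ^ (d - 1) = 0 ∧ ∃ j, ∑ i, |Q i j| = 2 := by
  rcases Nat.lt_or_ge 2 d with h | h
  · obtain ⟨n, rfl⟩ : ∃ n, d = n + 1 := ⟨d - 1, by omega⟩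
    have hn : 2 ≤ n := by omega
    have hn1 : (2 : ℝ) ≤ n := by exact_mod_cast hn
    refine ⟨chain n (((n : ℝ) - 1) / (2 * n)), chain_off hn rfl, chain_col hn rfl, ?_, 0, ?_⟩
    · have h1 := chain_annihilate hn rfl
      have h2 : (((n + 1 : ℕ) : ℝ) / (2 * (((n + 1 : ℕ) : ℝ) - 1))) =
          ((n : ℝ) - 1) / (2 * n) + 1 / n := by
        push_cast
        have hn0 : (n : ℝ) ≠ 0 := by positivity
        rw [add_sub_cancel_right]
        field_simp
        ring
      rw [h2, Nat.add_sub_cancel]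
      exact h1
    · have h1 := chain_col hn rfl (0 : Fin (n + 1))
      have h2 : chain n (((n : ℝ) - 1) / (2 * n)) 0 0 = -1 := by
        rw [chain, Matrix.of_apply, if_pos (Fin.val_zero _), if_pos (Fin.val_zero _)]
      rw [← Finset.add_sum_erase _ _ (Finset.mem_univ 0)] at h1 ⊢
      have h3 : ∑ x ∈ Finset.univ.erase (0 : Fin (n + 1)),
          |chain n (((n : ℝ) - 1) / (2 * n)) x 0| =
          ∑ x ∈ Finset.univ.erase (0 : Fin (n + 1)), chain n (((n : ℝ) - 1) / (2 * n)) x 0 :=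
        Finset.sum_congr rfl fun x hx =>
          abs_of_nonneg (chain_off hn rfl x 0 (Finset.mem_erase.mp hx).1)
      rw [h3, h2, abs_neg, abs_one]
      rw [h2] at h1
      linarith
  · obtain rfl : d = 2 := le_antisymm h hd
    refine ⟨!![-1, 0; 1, 0], ?_, ?_, ?_, 0, ?_⟩
    · intro i j hij
      fin_cases i <;> fin_cases j <;> simp_all
    · intro j
      fin_cases j <;> simp
    · have h2 : (((2 : ℕ) : ℝ) / (2 * (((2 : ℕ) : ℝ) - 1))) = 1 := by norm_num
      rw [h2]
      ext i j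
      fin_cases i <;> fin_cases j <;> simp [Matrix.mul_apply, Fin.sum_univ_two]
    · rw [Fin.sum_univ_two]
      simp
      norm_num

/-- **Lower bound in dimension `d`.** -/
theorem lower_bound (hd : 2 ≤ d) {κ : ℝ} (hκ : κ < 4 * (1 - 1 / (d : ℝ))) :
    ∃ M₀ : ℝ, ∀ M : ℝ, M₀ ≤ M → ∃ Q : Matrix (Fin d) (Fin d) ℝ,
      (∀ j : Fin d, ∑ i : Fin d, |exp (-Q) i j| ≤ M) ∧
      (∀ t : ℝ, 0 ≤ t → (∀ i j : Fin d, 0 ≤ exp (t • Q) i j) ∧
        (∀ j : Fin d, ∑ i : Fin d, exp (t • Q) i j = 1)) ∧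
      ∃ j : Fin d, κ * Real.log M ≤ ∑ i : Fin d, |Q i j| := by
  obtain ⟨Q, hoff, hcol, hann, j, hj⟩ := exists_chain hd
  obtain ⟨c, hc⟩ : ∃ c : ℝ, c = (d : ℝ) / (2 * ((d : ℝ) - 1)) := ⟨_, rfl⟩
  rw [← hc] at hann
  have hd2 : (2 : ℝ) ≤ d := by exact_mod_cast hd
  have hc0 : 0 < c := by rw [hc]; exact div_pos (by linarith) (by linarith)
  have hκc : κ * c < 2 := by
    have h1 : 4 * (1 - 1 / (d : ℝ)) * c = 2 := by
      rw [hc]
      have : (d : ℝ) - 1 ≠ 0 := by linarith
      field_simp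
      ring
    rw [← h1]
    exact mul_lt_mul_of_pos_right hκ hc0
  obtain ⟨ε, hε⟩ : ∃ ε : ℝ, ε = (2 - κ * c) / (|κ| + 1) := ⟨_, rfl⟩
  have hκ0 : 0 ≤ |κ| := abs_nonneg _
  have hε0 : 0 < ε := by rw [hε]; exact div_pos (by linarith) (by linarith)
  have hκε : κ * (c + ε) ≤ 2 := by
    have h1 : κ * ε ≤ |κ| * ε := mul_le_mul_of_nonneg_right (le_abs_self κ) hε0.le
    have h2 : |κ| * ε ≤ 2 - κ * c := by
      rw [hε, mul_div_assoc', div_le_iff₀ (by linarith)]
      nlinarith
    linarith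
  have hA : Qᵀ * (Qᵀ + c • 1) ^ (d - 1) = 0 := by
    have h1 : (Q * (Q + c • 1) ^ (d - 1))ᵀ = 0 := by rw [hann, Matrix.transpose_zero]
    rw [Matrix.transpose_mul, Matrix.transpose_pow, Matrix.transpose_add, Matrix.transpose_smul,
      Matrix.transpose_one] at h1
    have h2 : Commute Qᵀ ((Qᵀ + c • 1) ^ (d - 1)) := by
      apply Commute.pow_right
      exact (Commute.refl _).add_right ((Commute.one_right _).smul_right _)
    rw [h2.eq]
    exact h1
  obtain ⟨T, hT0, hT⟩ := exp_growth Qᵀ hc0.le (d - 1) hA hε0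
  refine ⟨Real.exp ((c + ε) * T), fun M hM => ?_⟩
  have hM0 : 0 < M := lt_of_lt_of_le (Real.exp_pos _) hM
  obtain ⟨t, ht⟩ : ∃ t : ℝ, t = Real.log M / (c + ε) := ⟨_, rfl⟩
  have hcε : 0 < c + ε := by linarith
  have htT : T ≤ t := by
    rw [ht, le_div_iff₀ hcε, mul_comm]
    exact (Real.le_log_iff_exp_le hM0).mpr hM
  have ht0 : 0 ≤ t := hT0.trans htT
  have hlog : (c + ε) * t = Real.log M := by rw [ht]; field_simp
  refine ⟨t • Q, ?_, ?_, j, ?_⟩
  · intro k
    have h1 := hT t htT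
    rw [hlog, Real.exp_log hM0] at h1
    have h2 : t • (-Qᵀ) = (-(t • Q))ᵀ := by
      rw [Matrix.transpose_neg, Matrix.transpose_smul, smul_neg]
    rw [h2, Matrix.exp_transpose] at h1
    have h3 := MarkovBound.row_le_norm (exp (-(t • Q)))ᵀ k
    simp only [Matrix.transpose_apply] at h3
    exact h3.trans h1
  · intro u hu
    rw [smul_smul]
    exact stochastic_of_generator Q hoff hcol (u * t) (mul_nonneg hu ht0)
  · have h1 : ∑ i, |(t • Q) i j| = 2 * t := by
      have : ∀ i, |(t • Q) i j| = t * |Q i j| := by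
        intro i
        rw [Matrix.smul_apply, smul_eq_mul, abs_mul, abs_of_nonneg ht0]
      rw [Finset.sum_congr rfl (fun i _ => this i), ← Finset.mul_sum, hj, mul_comm]
    rw [h1, ← hlog]
    have := mul_le_mul_of_nonneg_right hκε ht0
    linarith

end final

end MarkovDim
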