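import Mathlib

set_option autoImplicit false

/-! The trace of the square of a complex matrix is the sum of the squares of the roots of its
characteristic polynomial. -/

open Polynomial Matrix

namespace MarkovDim

variable {n : Type*} [Fintype n] [DecidableEq n]

lemma charpoly_comp_neg (A : Matrix n n ℂ) :
    A.charpoly.comp (-X) = (-1) ^ Fintype.card n *
      (Matrix.scalar n (X : ℂ[X]) + (C : ℂ →+* ℂ[X]).mapMatrix A).det := by
  have h1 : A.charpoly.comp (-X) = (compRingHom (-X : ℂ[X])) A.charpoly := by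
    rw [coe_compRingHom_apply]
  rw [h1, Matrix.charpoly, RingHom.map_det]
  have h2 : (compRingHom (-X : ℂ[X])).mapMatrix A.charmatrix =
      -(Matrix.scalar n (X : ℂ[X]) + (C : ℂ →+* ℂ[X]).mapMatrix A) := by
    ext1 i j
    by_cases hij : i = j
    · subst hij
      simp
      ring
    · simp [Matrix.scalar_apply, hij]
  rw [h2, Matrix.det_neg]

lemma expand_charpoly_sq (A : Matrix n n ℂ) :
    expand ℂ 2 (A ^ 2).charpoly =
      (-1) ^ Fintype.card n * (A.charpoly * A.charpoly.comp (-X)) := by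
  have h1 : expand ℂ 2 (A ^ 2).charpoly = ((expand ℂ 2 : ℂ[X] →ₐ[ℂ] ℂ[X]) : ℂ[X] →+* ℂ[X])
      (A ^ 2).charpoly := rfl
  rw [h1, Matrix.charpoly, RingHom.map_det]
  have h2 : ((expand ℂ 2 : ℂ[X] →ₐ[ℂ] ℂ[X]) : ℂ[X] →+* ℂ[X]).mapMatrix (A ^ 2).charmatrix =
      A.charmatrix * (Matrix.scalar n (X : ℂ[X]) + (C : ℂ →+* ℂ[X]).mapMatrix A) := by
    have h3 : A.charmatrix = Matrix.scalar n (X : ℂ[X]) - (C : ℂ →+* ℂ[X]).mapMatrix A := rfl
    have h4 : (A ^ 2).charmatrix =
        Matrix.scalar n (X : ℂ[X]) - (C : ℂ →+* ℂ[X]).mapMatrix (A ^ 2) := rfl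
    have hc : Commute (Matrix.scalar n (X : ℂ[X])) ((C : ℂ →+* ℂ[X]).mapMatrix A) :=
      Matrix.scalar_commute _ (fun _ => Commute.all _ _) _
    have h5 : A.charmatrix * (Matrix.scalar n (X : ℂ[X]) + (C : ℂ →+* ℂ[X]).mapMatrix A) =
        Matrix.scalar n (X ^ 2 : ℂ[X]) - (C : ℂ →+* ℂ[X]).mapMatrix (A ^ 2) := by
      rw [h3, map_pow, map_pow, sq, sq, sub_mul, mul_add, mul_add, hc.eq]
      abel
    rw [h5, h4]
    ext1 i j
    by_cases hij : i = j
    · subst hij
      simp [expand_C]
    · simp [Matrix.scalar_apply, hij, expand_C]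
  rw [h2, Matrix.det_mul, charpoly_comp_neg, Matrix.charpoly]
  have h6 : ((-1 : ℂ[X]) ^ Fintype.card n) * (-1) ^ Fintype.card n = 1 := by
    rw [← mul_pow]; simp
  linear_combination (-(A.charmatrix.det *
    (Matrix.scalar n (X : ℂ[X]) + (C : ℂ →+* ℂ[X]).mapMatrix A).det)) * h6

lemma charpoly_sq_eq (A : Matrix n n ℂ) :
    (A ^ 2).charpoly = (A.charpoly.roots.map (fun μ => X - C (μ ^ 2))).prod := by
  have hcard : A.charpoly.roots.card = Fintype.card n := by
    rw [IsAlgClosed.card_roots_eq_natDegree, Matrix.charpoly_natDegree_eq_dim]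
  have hfac : A.charpoly = (A.charpoly.roots.map (fun μ => X - C μ)).prod :=
    ((IsAlgClosed.splits A.charpoly).eq_prod_roots_of_monic A.charpoly_monic)
  have hinj : Function.Injective (expand ℂ 2) := expand_injective (by norm_num)
  apply hinj
  rw [expand_charpoly_sq]
  have h1 : A.charpoly.comp (-X) = (A.charpoly.roots.map (fun μ => -X - C μ)).prod := by
    conv_lhs => rw [hfac]
    rw [← coe_compRingHom_apply, map_multiset_prod, Multiset.map_map]
    congr 1
    apply Multiset.map_congr rfl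
    intro μ _
    simp
  have h2 : expand ℂ 2 (A.charpoly.roots.map (fun μ => X - C (μ ^ 2))).prod =
      (A.charpoly.roots.map (fun μ => (X ^ 2 - C (μ ^ 2) : ℂ[X]))).prod := by
    rw [map_multiset_prod, Multiset.map_map]
    congr 1
    apply Multiset.map_congr rfl
    intro μ _
    simp [expand_C]
  rw [h1, h2]
  have h3 : A.charpoly * (A.charpoly.roots.map (fun μ => -X - C μ)).prod =
      (A.charpoly.roots.map (fun μ => (-1) * (X ^ 2 - C (μ ^ 2) : ℂ[X]))).prod := by
    have h4 : A.charpoly * (A.charpoly.roots.map (fun μ => -X - C μ)).prod =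
        (A.charpoly.roots.map (fun μ => X - C μ)).prod *
          (A.charpoly.roots.map (fun μ => -X - C μ)).prod := by rw [← hfac]
    rw [h4, ← Multiset.prod_map_mul]
    congr 1
    apply Multiset.map_congr rfl
    intro μ _
    rw [C_pow]
    ring
  rw [h3, Multiset.prod_map_mul, Multiset.map_const', Multiset.prod_replicate, hcard, ← mul_assoc,
    ← mul_pow]
  simp

lemma trace_sq_eq (A : Matrix n n ℂ) :
    (A ^ 2).trace = (A.charpoly.roots.map (fun μ => μ ^ 2)).sum := by
  rw [Matrix.trace_eq_sum_roots_charpoly, charpoly_sq_eq]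
  have h : (A.charpoly.roots.map (fun μ => X - C (μ ^ 2))) =
      ((A.charpoly.roots.map (fun μ => μ ^ 2)).map (fun a => X - C a)) := by
    rw [Multiset.map_map]; rfl
  rw [h, roots_multiset_prod_X_sub_C]

end MarkovDim
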