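import Mathlib
import Pool.Agent.MP_c4a887_an.Matrix
import Pool.Agent.MP_c4a887_an.DimSpectral

set_option autoImplicit false

/-! Upper bounds for a Markov generator of size `d` through the first two traces. -/

open Matrix NormedSpace
open scoped Matrix.Norms.Operator

namespace MarkovDim

variable {d : ℕ}

/-- the complexification of a real matrix -/
noncomputable def cx : Matrix (Fin d) (Fin d) ℝ →+* Matrix (Fin d) (Fin d) ℂ :=
  Complex.ofRealHom.mapMatrix

lemma cx_apply (A : Matrix (Fin d) (Fin d) ℝ) (i j : Fin d) : cx A i j = (A i j : ℂ) := rfl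

lemma cx_cont : Continuous (cx : Matrix (Fin d) (Fin d) ℝ →+* Matrix (Fin d) (Fin d) ℂ) := by
  apply continuous_matrix
  intro i j
  exact Complex.continuous_ofReal.comp (continuous_id.matrix_elem i j)

lemma exp_cx (A : Matrix (Fin d) (Fin d) ℝ) : exp (cx A) = cx (exp A) :=
  (map_exp (cx : Matrix (Fin d) (Fin d) ℝ →+* Matrix (Fin d) (Fin d) ℂ) cx_cont A).symm

lemma norm_cx_le (A : Matrix (Fin d) (Fin d) ℝ) {c : ℝ} (hc : 0 ≤ c)
    (h : ∀ i, ∑ j, |A i j| ≤ c) : ‖cx A‖ ≤ c := by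
  rw [Matrix.linfty_opNorm_def]
  have : ((Finset.univ : Finset (Fin d)).sup fun i => ∑ j, ‖cx A i j‖₊) ≤ (⟨c, hc⟩ : NNReal) := by
    refine Finset.sup_le fun i _ => ?_
    have h1 : ((∑ j, ‖cx A i j‖₊ : NNReal) : ℝ) ≤ ((⟨c, hc⟩ : NNReal) : ℝ) := by
      push_cast
      simpa [cx_apply] using h i
    exact_mod_cast h1
  exact_mod_cast this

lemma cx_transpose (A : Matrix (Fin d) (Fin d) ℝ) : cx Aᵀ = (cx A)ᵀ := rfl

/-- an element of the spectrum of `A` has real part at most `log c` if the absolute column sums of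
`exp A` are bounded by `c`. -/
lemma re_le_log (A : Matrix (Fin d) (Fin d) ℝ) {c : ℝ} (hc : 1 ≤ c)
    (h : ∀ j, ∑ i, |exp A i j| ≤ c) {μ : ℂ} (hμ : μ ∈ spectrum ℂ (cx A)) :
    μ.re ≤ Real.log c := by
  have h1 : μ ∈ spectrum ℂ (cx A)ᵀ := by
    apply Matrix.mem_spectrum_of_isRoot_charpoly
    rw [Matrix.charpoly_transpose]
    exact Matrix.mem_spectrum_iff_isRoot_charpoly.mp hμ
  have hne : Nonempty (Fin d) := by
    by_contra hcon
    rw [not_nonempty_iff] at hcon
    have : Subsingleton (Matrix (Fin d) (Fin d) ℂ) := inferInstance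
    have h2 := spectrum.of_subsingleton (R := ℂ) (cx A)ᵀ
    rw [h2] at h1
    exact h1
  have h2 := spectrum.exp_mem_exp (cx A)ᵀ h1
  have h3 := spectrum.norm_le_norm_of_mem h2
  have h4 : ‖exp (cx A)ᵀ‖ ≤ c := by
    rw [← cx_transpose, exp_cx, Matrix.exp_transpose]
    exact norm_cx_le _ (by linarith) (fun i => by simpa using h i)
  have h5 : ‖exp μ‖ = Real.exp μ.re := by
    rw [← Complex.exp_eq_exp_ℂ, Complex.norm_exp]
  rw [h5] at h3
  exact (Real.le_log_iff_exp_le (by linarith)).mpr (h3.trans h4)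

/-- the hypotheses of the problem in the form in which they are used -/
structure Hyp (M : ℝ) (Q : Matrix (Fin d) (Fin d) ℝ) : Prop where
  one_le : 1 ≤ M
  inv : ∀ j : Fin d, ∑ i : Fin d, |exp (-Q) i j| ≤ M
  st : ∀ j : Fin d, ∑ i : Fin d, |exp Q i j| ≤ 1
  off : ∀ i j : Fin d, i ≠ j → 0 ≤ Q i j
  col : ∀ j : Fin d, ∑ i : Fin d, Q i j = 0

variable {M : ℝ} {Q : Matrix (Fin d) (Fin d) ℝ}

/-- the eigenvalues of `-Q`, with multiplicity -/
noncomputable def R (Q : Matrix (Fin d) (Fin d) ℝ) : Multiset ℂ := (cx (-Q)).charpoly.roots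

lemma card_R (Q : Matrix (Fin d) (Fin d) ℝ) : (R Q).card = d := by
  rw [R, IsAlgClosed.card_roots_eq_natDegree, Matrix.charpoly_natDegree_eq_dim, Fintype.card_fin]

lemma mem_R (Q : Matrix (Fin d) (Fin d) ℝ) {μ : ℂ} (h : μ ∈ R Q) : μ ∈ spectrum ℂ (cx (-Q)) :=
  Matrix.mem_spectrum_of_isRoot_charpoly (Polynomial.mem_roots'.mp h).2

lemma R_le (H : Hyp M Q) {μ : ℂ} (h : μ ∈ R Q) : μ.re ≤ Real.log M :=
  re_le_log (-Q) H.one_le H.inv (mem_R Q h)

lemma R_nonneg (H : Hyp M Q) {μ : ℂ} (h : μ ∈ R Q) : 0 ≤ μ.re := by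
  have h1 : -μ ∈ spectrum ℂ (cx Q) := by
    have h2 := mem_R Q h
    rw [map_neg, ← spectrum.neg_eq] at h2
    exact Set.mem_neg.mp h2
  have h2 := re_le_log Q le_rfl H.st h1
  rw [Complex.neg_re, Real.log_one] at h2
  linarith

lemma sum_R (Q : Matrix (Fin d) (Fin d) ℝ) :
    ((R Q).map (fun μ => μ.re)).sum = ∑ i, -Q i i := by
  have h1 : (R Q).sum = (cx (-Q)).trace := (Matrix.trace_eq_sum_roots_charpoly _).symm
  have h2 : ((R Q).map (fun μ => μ.re)).sum = ((R Q).sum).re := by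
    have := map_multiset_sum Complex.reAddGroupHom (R Q)
    simpa using this.symm
  rw [h2, h1, Matrix.trace]
  simp [cx_apply]

lemma sum_sq_R (H : Hyp M Q) :
    ∑ i, (Q i i) ^ 2 ≤ ((R Q).map (fun μ => μ.re ^ 2)).sum := by
  have h1 : ((R Q).map (fun μ => μ ^ 2)).sum = ((cx (-Q)) ^ 2).trace := (trace_sq_eq _).symm
  have h2 : ((R Q).map (fun μ => (μ ^ 2).re)).sum = (((R Q).map (fun μ => μ ^ 2)).sum).re := by
    have := map_multiset_sum Complex.reAddGroupHom ((R Q).map (fun μ => μ ^ 2))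
    rw [Multiset.map_map] at this
    simpa using this.symm
  have h3 : ((R Q).map (fun μ => (μ ^ 2).re)).sum ≤ ((R Q).map (fun μ => μ.re ^ 2)).sum := by
    apply Multiset.sum_map_le_sum_map
    intro μ _
    have : (μ ^ 2).re = μ.re ^ 2 - μ.im ^ 2 := by
      rw [sq, Complex.mul_re]; ring
    rw [this]
    nlinarith [sq_nonneg μ.im]
  refine le_trans ?_ h3
  rw [h2, h1]
  have h4 : (cx (-Q)) ^ 2 = cx ((-Q) ^ 2) := (map_pow _ _ _).symm
  rw [h4]
  have h5 : ∀ B : Matrix (Fin d) (Fin d) ℝ, ((cx B).trace).re = B.trace := by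
    intro B
    simp [Matrix.trace, cx_apply]
  rw [h5 ((-Q) ^ 2), neg_sq, sq, Matrix.trace]
  apply Finset.sum_le_sum
  intro i _
  rw [Matrix.diag_apply, Matrix.mul_apply]
  rw [sq]
  refine Finset.single_le_sum (f := fun k => Q i k * Q k i) (fun k _ => ?_) (Finset.mem_univ i)
  by_cases hik : i = k
  · subst hik; exact mul_self_nonneg _
  · exact mul_nonneg (H.off i k hik) (H.off k i (Ne.symm hik))

lemma rate_nonneg (H : Hyp M Q) (i : Fin d) : 0 ≤ -Q i i := by
  have h1 := H.col i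
  rw [← Finset.add_sum_erase _ _ (Finset.mem_univ i)] at h1
  have h2 : 0 ≤ ∑ x ∈ Finset.univ.erase i, Q x i :=
    Finset.sum_nonneg fun x hx => H.off x i (Finset.mem_erase.mp hx).1
  linarith

lemma col_norm (H : Hyp M Q) (j : Fin d) : ∑ i : Fin d, |Q i j| = 2 * (-Q j j) := by
  have h1 := H.col j
  rw [← Finset.add_sum_erase _ _ (Finset.mem_univ j)] at h1 ⊢
  have h2 : ∑ x ∈ Finset.univ.erase j, |Q x j| = ∑ x ∈ Finset.univ.erase j, Q x j := by
    refine Finset.sum_congr rfl fun x hx => ?_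
    exact abs_of_nonneg (H.off x j (Finset.mem_erase.mp hx).1)
  have h3 := rate_nonneg H j
  rw [h2, abs_of_nonpos (by linarith)]
  linarith

/-- first consequence of the two traces -/
lemma sum_sq_le (H : Hyp M Q) :
    ∑ i, (-Q i i) ^ 2 ≤ Real.log M * ∑ i, -Q i i := by
  have h1 := sum_sq_R H
  have h2 : ((R Q).map (fun μ => μ.re ^ 2)).sum ≤
      ((R Q).map (fun μ => Real.log M * μ.re)).sum := by
    apply Multiset.sum_map_le_sum_map
    intro μ hμ
    rw [sq]
    exact mul_le_mul_of_nonneg_right (R_le H hμ) (R_nonneg H hμ)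
  rw [Multiset.sum_map_mul_left, sum_R] at h2
  have h3 : ∑ i, (-Q i i) ^ 2 = ∑ i, (Q i i) ^ 2 := Finset.sum_congr rfl fun i _ => neg_sq _
  rw [h3]
  exact h1.trans h2

/-- (1 + √d)-bound -/
theorem sqrt_bound (H : Hyp M Q) (j : Fin d) :
    2 * (-Q j j) ≤ (1 + Real.sqrt d) * Real.log M := by
  have h1 := sum_sq_le H
  have hs : 0 ≤ Real.log M := Real.log_nonneg H.one_le
  set s := Real.log M with hsdef
  set l := -Q j j with hl
  have h2 : ∑ i, ((-Q i i) ^ 2 - s * (-Q i i)) ≤ 0 := by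
    rw [Finset.sum_sub_distrib, ← Finset.mul_sum]; linarith
  rw [← Finset.add_sum_erase _ _ (Finset.mem_univ j)] at h2
  have h3 : ∑ i ∈ Finset.univ.erase j, (-(s ^ 2 / 4)) ≤
      ∑ i ∈ Finset.univ.erase j, ((-Q i i) ^ 2 - s * (-Q i i)) := by
    apply Finset.sum_le_sum
    intro i _
    nlinarith [sq_nonneg (-Q i i - s / 2)]
  rw [Finset.sum_const, Finset.card_erase_of_mem (Finset.mem_univ j), Finset.card_univ,
    Fintype.card_fin, nsmul_eq_mul] at h3
  have hd : 1 ≤ d := by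
    have := j.isLt; omega
  rw [Nat.cast_sub hd, Nat.cast_one] at h3
  have h4 : (2 * l - s) ^ 2 ≤ d * s ^ 2 := by nlinarith
  have h5 : 2 * l - s ≤ Real.sqrt (d * s ^ 2) := Real.le_sqrt_of_sq_le h4
  rw [Real.sqrt_mul (by positivity), Real.sqrt_sq hs] at h5
  linarith

/-- trace form of the bound -/
theorem trace_bound (H : Hyp M Q) (j : Fin d) :
    (2 * (-Q j j)) ^ 2 ≤ 4 * Real.log M * ∑ i, -Q i i := by
  have h1 := sum_sq_le H
  have h2 : (-Q j j) ^ 2 ≤ ∑ i, (-Q i i) ^ 2 :=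
    Finset.single_le_sum (f := fun i => (-Q i i) ^ 2) (fun i _ => sq_nonneg _) (Finset.mem_univ j)
  nlinarith

/-- `0` is an eigenvalue of `-Q`. -/
lemma zero_mem_R (H : Hyp M Q) (hd : 1 ≤ d) : (0 : ℂ) ∈ R Q := by
  have hne : Nonempty (Fin d) := ⟨⟨0, hd⟩⟩
  have hdet : (cx (-Q)).det = 0 := by
    apply Matrix.exists_vecMul_eq_zero_iff.mp
    refine ⟨fun _ => 1, ?_, ?_⟩
    · intro h
      have := congrFun h (Classical.choice hne)
      simp at this
    · ext j
      rw [Matrix.vecMul, dotProduct]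
      have h1 := H.col j
      have h2 : ∑ i, (1 : ℂ) * cx (-Q) i j = -((∑ i, Q i j : ℝ) : ℂ) := by
        push_cast
        rw [← Finset.sum_neg_distrib]
        refine Finset.sum_congr rfl fun i _ => ?_
        rw [one_mul, cx_apply, Matrix.neg_apply]
        push_cast
        ring
      rw [h2, h1]
      simp
  have h1 : (0 : ℂ) ∈ spectrum ℂ (cx (-Q)) := by
    rw [spectrum.zero_mem_iff, Matrix.isUnit_iff_isUnit_det, hdet]
    exact not_isUnit_zero
  rw [R, Polynomial.mem_roots']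
  exact ⟨(Matrix.charpoly_monic _).ne_zero, Matrix.mem_spectrum_iff_isRoot_charpoly.mp h1⟩

lemma multiset_sq_sum (E : Multiset ℂ) (f : ℂ → ℝ) (hf : ∀ μ ∈ E, 0 ≤ f μ) :
    0 ≤ (E.map f).sum ∧ (E.map (fun μ => f μ ^ 2)).sum ≤ ((E.map f).sum) ^ 2 := by
  induction E using Multiset.induction_on with
  | empty => simp
  | cons a E ih =>
    have h1 := ih (fun μ hμ => hf μ (Multiset.mem_cons_of_mem hμ))
    have h2 := hf a (Multiset.mem_cons_self a E)
    simp only [Multiset.map_cons, Multiset.sum_cons]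
    refine ⟨add_nonneg h2 h1.1, ?_⟩
    nlinarith [mul_nonneg h2 h1.1]

/-- the key quadratic inequality with the defect `δ = (d - 1) s - tr (-Q)` -/
lemma key_ineq (H : Hyp M Q) (hd : 2 ≤ d) (j : Fin d) {n s l : ℝ}
    (hn : n = (d : ℝ) - 1) (hs : s = Real.log M) (hl : l = -Q j j) :
    ∃ δ : ℝ, 0 ≤ δ ∧ ∃ D : ℝ, D ≤ δ ^ 2 ∧ D ≤ s * δ ∧
      (n + 1) * l ^ 2 - 2 * n * s * l + 2 * δ * l + δ ^ 2 ≤ n * D := by
  have hs0 : 0 ≤ s := by rw [hs]; exact Real.log_nonneg H.one_le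
  have hn0 : 0 < n := by
    have : (2 : ℝ) ≤ d := by exact_mod_cast hd
    rw [hn]; linarith
  obtain ⟨E, hE⟩ := Multiset.exists_cons_of_mem (zero_mem_R H (by omega))
  have hmem : ∀ μ ∈ E, μ ∈ R Q := fun μ h => by rw [hE]; exact Multiset.mem_cons_of_mem h
  have hcard : (E.card : ℝ) = n := by
    have h1 := card_R Q
    rw [hE, Multiset.card_cons] at h1
    rw [hn, ← h1]; push_cast; ring
  obtain ⟨h1, h2⟩ := multiset_sq_sum E (fun μ => s - μ.re)
    (fun μ h => by rw [hs]; exact sub_nonneg.mpr (R_le H (hmem μ h)))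
  have hS : (E.map (fun μ => μ.re)).sum = ∑ i, -Q i i := by
    rw [← sum_R, hE, Multiset.map_cons, Multiset.sum_cons, Complex.zero_re, zero_add]
  have hS2 : ∑ i, (Q i i) ^ 2 ≤ (E.map (fun μ => μ.re ^ 2)).sum := by
    refine (sum_sq_R H).trans (le_of_eq ?_)
    rw [hE, Multiset.map_cons, Multiset.sum_cons, Complex.zero_re]
    simp
  have hδ : (E.map (fun μ => s - μ.re)).sum = n * s - ∑ i, -Q i i := by
    rw [Multiset.sum_map_sub, hS, Multiset.map_const', Multiset.sum_replicate, nsmul_eq_mul, hcard]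
  have hD2 : (E.map (fun μ => (s - μ.re) ^ 2)).sum ≤ s * (E.map (fun μ => s - μ.re)).sum := by
    rw [← Multiset.sum_map_mul_left]
    apply Multiset.sum_map_le_sum_map
    intro μ hμ
    rw [sq]
    refine mul_le_mul_of_nonneg_right ?_ ?_
    · have := R_nonneg H (hmem μ hμ); linarith
    · rw [hs]; exact sub_nonneg.mpr (R_le H (hmem μ hμ))
  have hsq : (E.map (fun μ => μ.re ^ 2)).sum =
      (E.map (fun μ => (s - μ.re) ^ 2)).sum - 2 * s * (E.map (fun μ => s - μ.re)).sum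
        + n * s ^ 2 := by
    have h3 : (E.map (fun μ => μ.re ^ 2)).sum =
        (E.map (fun μ => (s - μ.re) ^ 2 - 2 * s * (s - μ.re) + s ^ 2)).sum := by
      congr 1
      apply Multiset.map_congr rfl
      intro μ _
      ring
    rw [h3, Multiset.sum_map_add, Multiset.sum_map_sub, Multiset.sum_map_mul_left,
      Multiset.map_const', Multiset.sum_replicate, nsmul_eq_mul, hcard]
  -- Cauchy–Schwarz for the other rates
  have hq : l ^ 2 * n + ((∑ i, -Q i i) - l) ^ 2 ≤ n * ∑ i, (Q i i) ^ 2 := by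
    have h4 : (∑ i ∈ Finset.univ.erase j, -Q i i) ^ 2 ≤
        (Finset.univ.erase j).card * ∑ i ∈ Finset.univ.erase j, (-Q i i) ^ 2 :=
      sq_sum_le_card_mul_sum_sq
    have h5 : ((Finset.univ.erase j).card : ℝ) = n := by
      rw [Finset.card_erase_of_mem (Finset.mem_univ j), Finset.card_univ, Fintype.card_fin, hn,
        Nat.cast_sub (by omega), Nat.cast_one]
    rw [h5] at h4
    have h6 : (∑ i, -Q i i) - l = ∑ i ∈ Finset.univ.erase j, -Q i i := by
      rw [← Finset.add_sum_erase _ _ (Finset.mem_univ j), hl]; ring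
    have h7 : ∑ i, (Q i i) ^ 2 = l ^ 2 + ∑ i ∈ Finset.univ.erase j, (-Q i i) ^ 2 := by
      rw [← Finset.add_sum_erase _ _ (Finset.mem_univ j), hl]
      simp
    rw [h6, h7]
    nlinarith
  refine ⟨(E.map (fun μ => s - μ.re)).sum, h1, (E.map (fun μ => (s - μ.re) ^ 2)).sum, h2, hD2, ?_⟩
  obtain ⟨δ, hδ'⟩ : ∃ δ, δ = (E.map (fun μ => s - μ.re)).sum := ⟨_, rfl⟩
  obtain ⟨D, hD'⟩ : ∃ D, D = (E.map (fun μ => (s - μ.re) ^ 2)).sum := ⟨_, rfl⟩
  rw [← hδ', ← hD'] at hsq
  rw [← hδ'] at hδ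
  rw [← hδ', ← hD']
  have h8 : ∑ i, -Q i i = n * s - δ := by linarith
  rw [h8] at hq
  rw [hsq] at hS2
  have h9 := mul_le_mul_of_nonneg_left hS2 hn0.le
  nlinarith

/-- the sharp bound for `2 ≤ d ≤ 5` -/
theorem small_bound (H : Hyp M Q) (hd : 2 ≤ d) (hd5 : d ≤ 5) (j : Fin d) :
    2 * (-Q j j) ≤ 4 * (1 - 1 / (d : ℝ)) * Real.log M := by
  have hs0 : 0 ≤ Real.log M := Real.log_nonneg H.one_le
  obtain ⟨s, hs⟩ : ∃ s, s = Real.log M := ⟨_, rfl⟩
  obtain ⟨l, hl⟩ : ∃ l, l = -Q j j := ⟨_, rfl⟩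
  obtain ⟨n, hn⟩ : ∃ n : ℝ, n = (d : ℝ) - 1 := ⟨_, rfl⟩
  obtain ⟨δ, hδ, D, hD1, hD2, hkey⟩ := key_ineq H hd j hn hs hl
  have hl0 : 0 ≤ l := by rw [hl]; exact rate_nonneg H j
  rw [← hs, ← hl]
  rw [← hs] at hs0
  have hd2 : (2 : ℝ) ≤ d := by exact_mod_cast hd
  have hd5' : (d : ℝ) ≤ 5 := by exact_mod_cast hd5
  have hn1 : 1 ≤ n := by linarith
  have hn4 : n ≤ 4 := by linarith
  have hdn : (d : ℝ) = n + 1 := by linarith
  -- main claim
  have hmain : (n + 1) * l ≤ 2 * n * s := by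
    by_contra hcon
    push Not at hcon
    have hlpos : 0 < l := by
      by_contra h
      have : l = 0 := le_antisymm (not_lt.mp h) hl0
      rw [this] at hcon
      nlinarith [mul_nonneg (by linarith : (0 : ℝ) ≤ 2 * n) hs0]
    have hpos : 0 < l * ((n + 1) * l - 2 * n * s) := mul_pos hlpos (by linarith)
    rcases le_total δ s with h | h
    · -- small defect
      have h1 : l * ((n + 1) * l - 2 * n * s) ≤ δ * ((n - 1) * δ - 2 * l) := by nlinarith
      have h2 : (n - 1) * δ ≤ (n - 1) * s := mul_le_mul_of_nonneg_left h (by linarith)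
      have h3 : (n - 1) * (n + 1) * s ≤ 4 * n * s := by
        have : (n - 1) * (n + 1) ≤ 4 * n := by nlinarith
        exact mul_le_mul_of_nonneg_right this hs0
      have h4 : (n - 1) * s * (n + 1) ≤ 2 * l * (n + 1) := by nlinarith
      have h5 : (n - 1) * s ≤ 2 * l := le_of_mul_le_mul_right h4 (by linarith)
      have h6 : δ * ((n - 1) * δ - 2 * l) ≤ 0 :=
        mul_nonpos_of_nonneg_of_nonpos hδ (by linarith)
      linarith
    · -- large defect
      have hδ0 : 0 < δ ∨ δ = 0 := lt_or_eq_of_le hδ |>.imp id Eq.symm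
      rcases hδ0 with hδ0 | hδ0
      · have h1 : l * ((n + 1) * l - 2 * n * s) ≤ δ * (n * s - δ - 2 * l) := by nlinarith
        have h2 : 0 < n * s - δ - 2 * l := by
          by_contra h3
          push Not at h3
          have := mul_nonpos_of_nonneg_of_nonpos hδ h3
          linarith
        -- δ (n + 1) < n (n - 3) s
        have h3 : δ * (n + 1) < n * (n - 3) * s := by nlinarith
        have h4 : s * (n + 1) ≤ δ * (n + 1) := mul_le_mul_of_nonneg_right h (by linarith)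
        have h5 : n * (n - 3) * s ≤ (n + 1) * s := by
          have : n * (n - 3) ≤ n + 1 := by nlinarith
          exact mul_le_mul_of_nonneg_right this hs0
        linarith
      · rw [hδ0] at h
        have hs' : s = 0 := le_antisymm h hs0
        rw [hδ0] at hD1 hkey
        rw [hs'] at hkey hpos
        nlinarith
  rw [hdn]
  have hn1' : 0 < n + 1 := by linarith
  have h1 : 4 * (1 - 1 / (n + 1)) * s = 4 * n * s / (n + 1) := by field_simp; ring
  rw [h1, le_div_iff₀ hn1']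
  linarith

end MarkovDim
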