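import Mathlib
import Pool.Agent.MP_c4a887_an.DimUpper
import Pool.Agent.MP_c4a887_an.DimLower

set_option autoImplicit false

/-! Equivalence of a linear bound with a bound for the spectral depth. -/

open Matrix NormedSpace Filter Topology
open scoped Matrix.Norms.Operator

namespace MarkovDim

variable {d : ℕ}

/-- apply the factors `A - μ` successively -/
noncomputable def act (A : Matrix (Fin d) (Fin d) ℂ) :
    List ℂ → Matrix (Fin d) (Fin d) ℂ → Matrix (Fin d) (Fin d) ℂ
  | [], B => B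
  | μ :: l, B => act A l ((A - μ • 1) * B)

lemma act_eq (A : Matrix (Fin d) (Fin d) ℂ) (l : List ℂ) (B : Matrix (Fin d) (Fin d) ℂ) :
    act A l B = Polynomial.aeval A ((l.map (fun μ => Polynomial.X - Polynomial.C μ)).prod) * B := by
  induction l generalizing B with
  | nil => simp [act]
  | cons μ l ih =>
    rw [act, ih, List.map_cons, List.prod_cons, mul_comm (Polynomial.X - Polynomial.C μ), map_mul,
      mul_assoc]
    congr 2
    rw [map_sub, Polynomial.aeval_X, Polynomial.aeval_C, Algebra.algebraMap_eq_smul_one]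

lemma hasDerivAt_H (A B : Matrix (Fin d) (Fin d) ℂ) (μ : ℂ) (t : ℝ) :
    HasDerivAt (fun t : ℝ => Complex.exp (-μ * t) • (exp (t • A) * B))
      (Complex.exp (-μ * t) • (exp (t • A) * ((A - μ • 1) * B))) t := by
  have h1 := hasDerivAt_exp_smul_const (𝕂 := ℝ) A t
  have h2 : HasDerivAt (fun t : ℝ => exp (t • A) * B) (exp (t • A) * A * B) t := h1.mul_const _
  have h3 : HasDerivAt (fun t : ℝ => Complex.exp (-μ * t)) (Complex.exp (-μ * t) * (-μ * 1)) t := by
    have h4 : HasDerivAt (fun t : ℝ => -μ * (t : ℂ)) (-μ * 1) t :=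
      (Complex.ofRealCLM.hasDerivAt).const_mul (-μ)
    exact h4.cexp
  have h4 := h3.smul h2
  have h5 : Complex.exp (-μ * t) • (exp (t • A) * ((A - μ • 1) * B)) =
      Complex.exp (-μ * t) • (exp (t • A) * A * B) +
      (Complex.exp (-μ * t) * (-μ * 1)) • (exp (t • A) * B) := by
    rw [sub_mul, mul_sub, smul_mul_assoc, one_mul, mul_smul_comm, mul_assoc, smul_sub, smul_smul,
      mul_one, mul_neg, neg_smul, sub_eq_add_neg]
  rw [h5]
  exact h4

lemma act_growth (A : Matrix (Fin d) (Fin d) ℂ) (c : ℝ) (l : List ℂ) (hl : ∀ μ ∈ l, μ.re ≤ c) :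
    ∀ B : Matrix (Fin d) (Fin d) ℂ, act A l B = 0 →
      ∃ K : ℝ, 0 ≤ K ∧ ∃ n : ℕ, ∀ t : ℝ, 0 ≤ t →
        ‖exp (t • A) * B‖ ≤ K * (1 + t) ^ n * Real.exp (c * t) := by
  induction l with
  | nil =>
    intro B hB
    refine ⟨0, le_rfl, 0, fun t _ => ?_⟩
    have : B = 0 := hB
    rw [this]
    simp
  | cons μ l ih =>
    intro B hB
    have hμ : μ.re ≤ c := hl μ List.mem_cons_self
    obtain ⟨K, hK, n, hb⟩ := ih (fun ν hν => hl ν (List.mem_cons_of_mem _ hν))
      ((A - μ • 1) * B) hB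
    refine ⟨‖B‖ + K, by positivity, n + 1, fun t ht => ?_⟩
    have hnormexp : ∀ u : ℝ, ‖Complex.exp (-μ * u)‖ = Real.exp (-μ.re * u) := by
      intro u
      rw [Complex.norm_exp]
      congr 1
      simp
    have h1 : ∀ x ∈ Set.Icc (0 : ℝ) t, HasDerivWithinAt
        (fun t : ℝ => Complex.exp (-μ * t) • (exp (t • A) * B))
        (Complex.exp (-μ * x) • (exp (x • A) * ((A - μ • 1) * B))) (Set.Icc 0 t) x :=
      fun x _ => (hasDerivAt_H A B μ x).hasDerivWithinAt
    have h2 : ∀ x ∈ Set.Ico (0 : ℝ) t,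
        ‖Complex.exp (-μ * x) • (exp (x • A) * ((A - μ • 1) * B))‖ ≤
          K * (1 + t) ^ n * Real.exp ((c - μ.re) * t) := by
      intro x hx
      rw [norm_smul, hnormexp]
      have h3 := hb x hx.1
      calc Real.exp (-μ.re * x) * ‖exp (x • A) * ((A - μ • 1) * B)‖
          ≤ Real.exp (-μ.re * x) * (K * (1 + x) ^ n * Real.exp (c * x)) :=
            mul_le_mul_of_nonneg_left h3 (Real.exp_pos _).le
        _ = K * (1 + x) ^ n * Real.exp ((c - μ.re) * x) := by
            have : Real.exp ((c - μ.re) * x) = Real.exp (-μ.re * x) * Real.exp (c * x) := by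
              rw [← Real.exp_add]; congr 1; ring
            rw [this]; ring
        _ ≤ K * (1 + t) ^ n * Real.exp ((c - μ.re) * t) := by
            have h4 : (1 + x) ^ n ≤ (1 + t) ^ n :=
              pow_le_pow_left₀ (by linarith [hx.1]) (by linarith [hx.2]) n
            have h5 : Real.exp ((c - μ.re) * x) ≤ Real.exp ((c - μ.re) * t) :=
              Real.exp_le_exp.mpr (mul_le_mul_of_nonneg_left hx.2.le (by linarith))
            have h6 : 0 ≤ (1 + x) ^ n := pow_nonneg (by linarith [hx.1]) n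
            exact mul_le_mul (mul_le_mul_of_nonneg_left h4 hK) h5 (Real.exp_pos _).le
              (mul_nonneg hK (h6.trans h4))
    have h3 := norm_image_sub_le_of_norm_deriv_le_segment' h1 h2 t (Set.right_mem_Icc.mpr ht)
    simp only [sub_zero, Complex.ofReal_zero, mul_zero, Complex.exp_zero, zero_smul,
      NormedSpace.exp_zero, one_mul, one_smul] at h3
    have h4 : ‖Complex.exp (-μ * t) • (exp (t • A) * B)‖ ≤
        ‖B‖ + K * (1 + t) ^ n * Real.exp ((c - μ.re) * t) * t := by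
      have := norm_le_norm_add_norm_sub' (Complex.exp (-μ * t) • (exp (t • A) * B)) B
      linarith
    rw [norm_smul, hnormexp] at h4
    have h5 : ‖exp (t • A) * B‖ ≤ Real.exp (μ.re * t) *
        (‖B‖ + K * (1 + t) ^ n * Real.exp ((c - μ.re) * t) * t) := by
      calc ‖exp (t • A) * B‖ =
          Real.exp (μ.re * t) * (Real.exp (-μ.re * t) * ‖exp (t • A) * B‖) := by
            rw [← mul_assoc, ← Real.exp_add]
            have : μ.re * t + -μ.re * t = 0 := by ring
            rw [this, Real.exp_zero, one_mul]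
        _ ≤ _ := mul_le_mul_of_nonneg_left h4 (Real.exp_pos _).le
    refine h5.trans ?_
    have h6 : Real.exp (μ.re * t) * Real.exp ((c - μ.re) * t) = Real.exp (c * t) := by
      rw [← Real.exp_add]; congr 1; ring
    have h7 : Real.exp (μ.re * t) ≤ Real.exp (c * t) :=
      Real.exp_le_exp.mpr (mul_le_mul_of_nonneg_right hμ ht)
    have h8 : (1 : ℝ) ≤ (1 + t) ^ (n + 1) := one_le_pow₀ (by linarith)
    have h9 : (1 + t) ^ n * t ≤ (1 + t) ^ (n + 1) := by
      rw [pow_succ]
      exact mul_le_mul_of_nonneg_left (by linarith) (by positivity)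
    have h10 : Real.exp (μ.re * t) * ‖B‖ ≤ ‖B‖ * (1 + t) ^ (n + 1) * Real.exp (c * t) := by
      calc Real.exp (μ.re * t) * ‖B‖ ≤ Real.exp (c * t) * ‖B‖ :=
            mul_le_mul_of_nonneg_right h7 (norm_nonneg _)
        _ = ‖B‖ * 1 * Real.exp (c * t) := by ring
        _ ≤ ‖B‖ * (1 + t) ^ (n + 1) * Real.exp (c * t) :=
            mul_le_mul_of_nonneg_right (mul_le_mul_of_nonneg_left h8 (norm_nonneg _))
              (Real.exp_pos _).le
    have h11 : Real.exp (μ.re * t) * (K * (1 + t) ^ n * Real.exp ((c - μ.re) * t) * t) ≤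
        K * (1 + t) ^ (n + 1) * Real.exp (c * t) := by
      calc Real.exp (μ.re * t) * (K * (1 + t) ^ n * Real.exp ((c - μ.re) * t) * t) =
          K * ((1 + t) ^ n * t) * (Real.exp (μ.re * t) * Real.exp ((c - μ.re) * t)) := by ring
        _ = K * ((1 + t) ^ n * t) * Real.exp (c * t) := by rw [h6]
        _ ≤ _ := mul_le_mul_of_nonneg_right (mul_le_mul_of_nonneg_left h9 hK) (Real.exp_pos _).le
    rw [mul_add]
    calc _ ≤ ‖B‖ * (1 + t) ^ (n + 1) * Real.exp (c * t) +
          K * (1 + t) ^ (n + 1) * Real.exp (c * t) := add_le_add h10 h11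
      _ = _ := by ring

lemma poly_le_exp (K : ℝ) (n : ℕ) {ε : ℝ} (hε : 0 < ε) :
    ∃ T : ℝ, 0 ≤ T ∧ ∀ t : ℝ, T ≤ t → K * (1 + t) ^ n ≤ Real.exp (ε * t) := by
  have h1 : Tendsto (fun t : ℝ => K * ((1 + t) ^ n / Real.exp (ε * (1 + t)))) atTop (𝓝 (K * 0)) := by
    refine Tendsto.const_mul K ?_
    have h2 : Tendsto (fun y : ℝ => y ^ n / Real.exp (ε * y)) atTop (𝓝 0) := by
      have h3 := (Real.tendsto_pow_mul_exp_neg_atTop_nhds_zero n).comp
        (tendsto_id.const_mul_atTop hε)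
      have h4 : (fun y : ℝ => y ^ n / Real.exp (ε * y)) =
          fun y : ℝ => (1 / ε ^ n) * ((ε * y) ^ n * Real.exp (-(ε * y))) := by
        funext y
        rw [mul_pow, Real.exp_neg]
        field_simp
      rw [h4]
      have h5 := h3.const_mul (1 / ε ^ n)
      rw [mul_zero] at h5
      exact h5
    exact h2.comp (tendsto_atTop_add_const_left _ 1 tendsto_id)
  rw [mul_zero] at h1
  have h2 : ∀ᶠ t in atTop, K * ((1 + t) ^ n / Real.exp (ε * (1 + t))) ≤ Real.exp (-ε) := by
    have := (tendsto_order.mp h1).2 (Real.exp (-ε)) (Real.exp_pos _)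
    filter_upwards [this] with t ht using ht.le
  obtain ⟨T, hT⟩ := (h2.and (eventually_ge_atTop 0)).exists_forall_of_atTop
  refine ⟨max T 0, le_max_right _ _, fun t ht => ?_⟩
  have h3 := (hT t ((le_max_left _ _).trans ht)).1
  have h7 : K * (1 + t) ^ n = K * ((1 + t) ^ n / Real.exp (ε * (1 + t))) *
      Real.exp (ε * (1 + t)) := by
    field_simp
  rw [h7]
  calc _ ≤ Real.exp (-ε) * Real.exp (ε * (1 + t)) :=
        mul_le_mul_of_nonneg_right h3 (Real.exp_pos _).le
    _ = Real.exp (ε * t) := by rw [← Real.exp_add]; congr 1; ring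

/-- growth bound of `exp (tA)` through the spectrum -/
lemma spectral_growth (A : Matrix (Fin d) (Fin d) ℂ) {c : ℝ}
    (hc : ∀ μ ∈ spectrum ℂ A, μ.re ≤ c) {ε : ℝ} (hε : 0 < ε) :
    ∃ T : ℝ, 0 ≤ T ∧ ∀ t : ℝ, T ≤ t → ‖exp (t • A)‖ ≤ Real.exp ((c + ε) * t) := by
  have hl : ∀ μ ∈ A.charpoly.roots.toList, μ.re ≤ c := by
    intro μ hμ
    apply hc
    rw [Multiset.mem_toList] at hμ
    exact Matrix.mem_spectrum_of_isRoot_charpoly (Polynomial.mem_roots'.mp hμ).2
  have hfac : A.charpoly = (A.charpoly.roots.map (fun μ => Polynomial.X - Polynomial.C μ)).prod :=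
    ((IsAlgClosed.splits A.charpoly).eq_prod_roots_of_monic A.charpoly_monic)
  have hprod : (A.charpoly.roots.toList.map (fun μ => Polynomial.X - Polynomial.C μ)).prod =
      A.charpoly := by
    conv_rhs => rw [hfac]
    rw [← Multiset.prod_map_toList]
  have hact : act A A.charpoly.roots.toList 1 = 0 := by
    rw [act_eq, hprod, Matrix.aeval_self_charpoly, zero_mul]
  obtain ⟨K, hK, n, hb⟩ := act_growth A c _ hl 1 hact
  obtain ⟨T, hT0, hT⟩ := poly_le_exp K n hε
  refine ⟨T, hT0, fun t ht => ?_⟩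
  have h1 := hb t (hT0.trans ht)
  rw [mul_one] at h1
  refine h1.trans ?_
  have h2 := mul_le_mul_of_nonneg_right (hT t ht) (Real.exp_pos (c * t)).le
  refine h2.trans (le_of_eq ?_)
  rw [← Real.exp_add]; congr 1; ring

lemma row_le_cx_norm (A : Matrix (Fin d) (Fin d) ℝ) (i : Fin d) : ∑ j, |A i j| ≤ ‖cx A‖ := by
  rw [Matrix.linfty_opNorm_def]
  have : (∑ j, ‖cx A i j‖₊) ≤ ((Finset.univ : Finset (Fin d)).sup fun i => ∑ j, ‖cx A i j‖₊) :=
    Finset.le_sup (f := fun i => ∑ j, ‖cx A i j‖₊) (Finset.mem_univ i)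
  rw [← NNReal.coe_le_coe] at this
  push_cast at this
  simpa [cx_apply] using this

/-- **Equivalence** of the linear bound in dimension `d` with a bound for the spectral depth. -/
theorem depth_iff {K : ℝ} (hK : 0 ≤ K) :
    (∀ M : ℝ, 1 ≤ M → ∀ Q : Matrix (Fin d) (Fin d) ℝ,
      (∀ j : Fin d, ∑ i : Fin d, |exp (-Q) i j| ≤ M) →
      (∀ t : ℝ, 0 ≤ t → (∀ i j : Fin d, 0 ≤ exp (t • Q) i j) ∧
        (∀ j : Fin d, ∑ i : Fin d, exp (t • Q) i j = 1)) →
      ∀ j : Fin d, ∑ i : Fin d, |Q i j| ≤ K * Real.log M) ↔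
    (∀ Q : Matrix (Fin d) (Fin d) ℝ, (∀ i j : Fin d, i ≠ j → 0 ≤ Q i j) →
      (∀ j : Fin d, ∑ i : Fin d, Q i j = 0) →
      ∀ j : Fin d, ∃ μ ∈ spectrum ℂ (Q.map ((↑) : ℝ → ℂ)),
        ∑ i : Fin d, |Q i j| ≤ K * (-μ.re)) := by
  constructor
  · intro H Q hoff hcol j
    by_contra hcon
    push Not at hcon
    have hd : 1 ≤ d := lt_of_le_of_lt (Nat.zero_le _) j.isLt
    -- the largest real part
    have hne : ((cx (-Q)).charpoly.roots.toFinset).Nonempty := by
      have hcard : (cx (-Q)).charpoly.roots.card = d := card_R Q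
      rw [Multiset.toFinset_nonempty]
      intro h
      rw [h, Multiset.card_zero] at hcard
      omega
    obtain ⟨μ0, hμ0, hmax⟩ := Finset.exists_max_image _ (fun μ : ℂ => μ.re) hne
    have hspec : ∀ μ ∈ spectrum ℂ (cx (-Q)), μ.re ≤ μ0.re := by
      intro μ hμ
      apply hmax
      rw [Multiset.mem_toFinset, Polynomial.mem_roots']
      exact ⟨(Matrix.charpoly_monic _).ne_zero, Matrix.mem_spectrum_iff_isRoot_charpoly.mp hμ⟩
    have hμ0s : μ0 ∈ spectrum ℂ (cx (-Q)) := by
      rw [Multiset.mem_toFinset] at hμ0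
      exact Matrix.mem_spectrum_of_isRoot_charpoly (Polynomial.mem_roots'.mp hμ0).2
    have hneg : ∀ μ ∈ spectrum ℂ (cx (-Q)), -μ ∈ spectrum ℂ (Q.map ((↑) : ℝ → ℂ)) := by
      intro μ hμ
      rw [map_neg, ← spectrum.neg_eq] at hμ
      exact Set.mem_neg.mp hμ
    have h1 := hcon (-μ0) (hneg μ0 hμ0s)
    rw [Complex.neg_re, neg_neg] at h1
    -- `h1 : K * μ0.re < ∑ |Q i j|`
    have hstq := stochastic_of_generator Q hoff hcol
    have hc0 : 0 ≤ μ0.re := by
      have hH : Hyp (max 1 (∑ j : Fin d, ∑ i : Fin d, |exp (-Q) i j|)) Q := by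
        refine ⟨le_max_left _ _, fun j => ?_, fun j => ?_, hoff, hcol⟩
        · refine le_trans ?_ (le_max_right _ _)
          exact Finset.single_le_sum (f := fun j : Fin d => ∑ i : Fin d, |exp (-Q) i j|)
            (fun j _ => Finset.sum_nonneg fun i _ => abs_nonneg _) (Finset.mem_univ j)
        · have h2 := hstq 1 zero_le_one
          rw [one_smul] at h2
          simp only [abs_of_nonneg (h2.1 _ j)]
          exact (h2.2 j).le
      have h3 := zero_mem_R hH hd
      have h4 := hmax 0 (by rw [Multiset.mem_toFinset]; exact h3)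
      simpa using h4
    obtain ⟨v, hv⟩ : ∃ v : ℝ, v = ∑ i : Fin d, |Q i j| := ⟨_, rfl⟩
    rw [← hv] at h1
    obtain ⟨ε, hε⟩ : ∃ ε : ℝ, ε = (v - K * μ0.re) / (K + 1) := ⟨_, rfl⟩
    have hε0 : 0 < ε := by rw [hε]; exact div_pos (by linarith) (by linarith)
    have hKε : K * (μ0.re + ε) < v := by
      have h2 : K * ε < v - K * μ0.re := by
        have h3 : ε * (K + 1) = v - K * μ0.re := by rw [hε]; field_simp
        nlinarith
      linarith
    have hspecT : ∀ μ ∈ spectrum ℂ (cx ((-Q)ᵀ)), μ.re ≤ μ0.re := by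
      intro μ hμ
      apply hspec
      rw [cx_transpose] at hμ
      have h2 := Matrix.mem_spectrum_iff_isRoot_charpoly.mp hμ
      rw [Matrix.charpoly_transpose] at h2
      exact Matrix.mem_spectrum_of_isRoot_charpoly h2
    obtain ⟨T, hT0, hT⟩ := spectral_growth (cx ((-Q)ᵀ)) hspecT hε0
    obtain ⟨t, ht⟩ : ∃ t : ℝ, t = T + 1 := ⟨_, rfl⟩
    have htT : T ≤ t := by linarith
    have ht0 : 0 < t := by linarith
    have h2 := hT t htT
    have h3 : t • cx ((-Q)ᵀ) = cx ((-(t • Q))ᵀ) := by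
      ext i k
      rw [Matrix.smul_apply, cx_apply, cx_apply]
      simp
    rw [h3, exp_cx, Matrix.exp_transpose] at h2
    have h4 := H (Real.exp ((μ0.re + ε) * t)) (Real.one_le_exp (by positivity)) (t • Q)
      (fun k => by
        have h5 := row_le_cx_norm (exp (-(t • Q)))ᵀ k
        simp only [Matrix.transpose_apply] at h5
        exact h5.trans h2)
      (fun u hu => by
        rw [smul_smul]
        exact stochastic_of_generator Q hoff hcol (u * t) (mul_nonneg hu ht0.le)) j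
    rw [Real.log_exp] at h4
    have h5 : ∑ i, |(t • Q) i j| = t * v := by
      have : ∀ i, |(t • Q) i j| = t * |Q i j| := by
        intro i
        rw [Matrix.smul_apply, smul_eq_mul, abs_mul, abs_of_pos ht0]
      rw [Finset.sum_congr rfl (fun i _ => this i), ← Finset.mul_sum, hv]
    rw [h5] at h4
    nlinarith
  · intro H M hM Q hinv hst j
    obtain ⟨hoff, hcol⟩ := MarkovBound.generator_of_stochastic Q hst
    obtain ⟨μ, hμ, hle⟩ := H Q hoff hcol j
    refine hle.trans (mul_le_mul_of_nonneg_left ?_ hK)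
    have h1 : -μ ∈ spectrum ℂ (cx (-Q)) := by
      rw [map_neg, ← spectrum.neg_eq]
      exact Set.mem_neg.mpr (by rw [neg_neg]; exact hμ)
    have h2 := re_le_log (-Q) hM hinv h1
    simpa using h2

end MarkovDim
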