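import Mathlib
import Pool.Agent.MP_c4a887_an.DimLower

set_option autoImplicit false

/-! The range of small `M`. -/

open Matrix NormedSpace Filter Topology
open scoped Matrix.Norms.Operator

namespace MarkovDim

open MarkovBound

variable {d : ℕ}

lemma exp_entry_hasDerivAt (Q : Matrix (Fin d) (Fin d) ℝ) (i j : Fin d) (t : ℝ) :
    HasDerivAt (fun u : ℝ => exp (u • Q) i j) ((Q * exp (t • Q)) i j) t := by
  have h := hasDerivAt_exp_smul_const' (𝕂 := ℝ) Q t
  have h2 := (LinearMap.toContinuousLinearMap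
    (Matrix.entryLinearMap ℝ ℝ i j)).hasFDerivAt.comp_hasDerivAt t h
  exact h2

lemma inv_bound {M : ℝ} (Q : Matrix (Fin d) (Fin d) ℝ)
    (hinv : ∀ j : Fin d, ∑ i : Fin d, |exp (-Q) i j| ≤ M)
    (hst : ∀ t : ℝ, 0 ≤ t → (∀ i j : Fin d, 0 ≤ exp (t • Q) i j) ∧
      (∀ j : Fin d, ∑ i : Fin d, exp (t • Q) i j = 1)) {t : ℝ} (ht : t ≤ 1) (j : Fin d) :
    ∑ i : Fin d, |exp (-(t • Q)) i j| ≤ M := by
  have h1 : -(t • Q) = -Q + (1 - t) • Q := by
    rw [sub_smul, one_smul]; abel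
  have h2 : Commute (-Q) ((1 - t) • Q) := ((Commute.refl Q).neg_left).smul_right _
  have h3 : exp (-(t • Q)) = exp (-Q) * exp ((1 - t) • Q) := by
    rw [h1, Matrix.exp_add_of_commute _ _ h2]
  obtain ⟨hP0, hP1⟩ := hst (1 - t) (by linarith)
  obtain ⟨P, hP⟩ : ∃ P, P = exp ((1 - t) • Q) := ⟨_, rfl⟩
  obtain ⟨E, hE⟩ : ∃ E, E = exp (-Q) := ⟨_, rfl⟩
  rw [← hP] at hP0 hP1 h3
  rw [← hE] at hinv h3
  rw [h3]
  calc ∑ i, |(E * P) i j| ≤ ∑ i, ∑ k, |E i k| * P k j := by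
        apply Finset.sum_le_sum
        intro i _
        rw [Matrix.mul_apply]
        refine (Finset.abs_sum_le_sum_abs _ _).trans (le_of_eq ?_)
        refine Finset.sum_congr rfl fun k _ => ?_
        rw [abs_mul, abs_of_nonneg (hP0 k j)]
    _ = ∑ k, (∑ i, |E i k|) * P k j := by
        rw [Finset.sum_comm]
        exact Finset.sum_congr rfl fun k _ => (Finset.sum_mul _ _ _).symm
    _ ≤ ∑ k, M * P k j := Finset.sum_le_sum fun k _ =>
        mul_le_mul_of_nonneg_right (hinv k) (hP0 k j)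
    _ = M := by rw [← Finset.mul_sum, hP1, mul_one]

/-- every row of `exp (tQ)`, `0 ≤ t ≤ 1`, has an entry at least `1/M` -/
lemma exists_entry {M : ℝ} (hM : 1 ≤ M) (Q : Matrix (Fin d) (Fin d) ℝ)
    (hinv : ∀ j : Fin d, ∑ i : Fin d, |exp (-Q) i j| ≤ M)
    (hst : ∀ t : ℝ, 0 ≤ t → (∀ i j : Fin d, 0 ≤ exp (t • Q) i j) ∧
      (∀ j : Fin d, ∑ i : Fin d, exp (t • Q) i j = 1)) {t : ℝ} (ht0 : 0 ≤ t) (ht : t ≤ 1)
    (j : Fin d) : ∃ k, 1 / M ≤ exp (t • Q) j k := by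
  have hb := inv_bound Q hinv hst ht j
  have h1 : exp (t • Q) * exp (-(t • Q)) = 1 := by
    rw [← Matrix.exp_add_of_commute _ _ (Commute.refl (t • Q)).neg_right, add_neg_cancel,
      NormedSpace.exp_zero]
  obtain ⟨hP0, -⟩ := hst t ht0
  obtain ⟨P, hP⟩ : ∃ P, P = exp (t • Q) := ⟨_, rfl⟩
  obtain ⟨E, hE⟩ : ∃ E, E = exp (-(t • Q)) := ⟨_, rfl⟩
  rw [← hP] at hP0 h1 ⊢
  rw [← hE] at hb h1
  obtain ⟨k, -, hk⟩ := Finset.exists_max_image Finset.univ (fun k : Fin d => P j k)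
    ⟨j, Finset.mem_univ j⟩
  refine ⟨k, ?_⟩
  have h2 : (1 : ℝ) = ∑ l, P j l * E l j := by
    have := congrFun (congrFun h1 j) j
    rw [Matrix.mul_apply, Matrix.one_apply_eq] at this
    exact this.symm
  have h3 : (1 : ℝ) ≤ P j k * M := by
    calc (1 : ℝ) = ∑ l, P j l * E l j := h2
      _ ≤ ∑ l, P j k * |E l j| := by
          apply Finset.sum_le_sum
          intro l _
          calc P j l * E l j ≤ P j l * |E l j| :=
                mul_le_mul_of_nonneg_left (le_abs_self _) (hP0 j l)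
            _ ≤ P j k * |E l j| :=
                mul_le_mul_of_nonneg_right (hk l (Finset.mem_univ l)) (abs_nonneg _)
      _ = P j k * ∑ l, |E l j| := by rw [Finset.mul_sum]
      _ ≤ P j k * M := mul_le_mul_of_nonneg_left hb (hP0 j k)
  rw [div_le_iff₀ (by linarith)]
  exact h3

/-- if `M < 2` the diagonal of `exp (tQ)` stays above `1/M` for `0 ≤ t ≤ 1` -/
lemma diag_ge {M : ℝ} (hM : 1 ≤ M) (hM2 : M < 2) (Q : Matrix (Fin d) (Fin d) ℝ)
    (hinv : ∀ j : Fin d, ∑ i : Fin d, |exp (-Q) i j| ≤ M)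
    (hst : ∀ t : ℝ, 0 ≤ t → (∀ i j : Fin d, 0 ≤ exp (t • Q) i j) ∧
      (∀ j : Fin d, ∑ i : Fin d, exp (t • Q) i j = 1)) :
    ∀ t ∈ Set.Icc (0 : ℝ) 1, ∀ j : Fin d, 1 / M ≤ exp (t • Q) j j := by
  have hhalf : 1 / 2 < 1 / M := by
    rw [div_lt_div_iff₀ (by norm_num) (by linarith)]; linarith
  have hcont : ∀ j : Fin d, Continuous (fun u : ℝ => exp (u • Q) j j) := fun j =>
    continuous_iff_continuousAt.mpr fun t => (exp_entry_hasDerivAt Q j j t).continuousAt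
  -- key step: if all diagonal entries exceed `1/2` they are at least `1/M`
  have hkey : ∀ t : ℝ, 0 ≤ t → t ≤ 1 → (∀ j : Fin d, 1 / 2 < exp (t • Q) j j) →
      ∀ j : Fin d, 1 / M ≤ exp (t • Q) j j := by
    intro t ht0 ht1 hd j
    obtain ⟨k, hk⟩ := exists_entry hM Q hinv hst ht0 ht1 j
    by_cases hjk : j = k
    · rw [← hjk] at hk; exact hk
    · exfalso
      obtain ⟨hP0, hP1⟩ := hst t ht0
      have h1 := hP1 k
      have h2 : exp (t • Q) j k + exp (t • Q) k k ≤ ∑ i : Fin d, exp (t • Q) i k := by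
        rw [← Finset.add_sum_erase _ _ (Finset.mem_univ j)]
        have h3 : exp (t • Q) k k ≤ ∑ x ∈ Finset.univ.erase j, exp (t • Q) x k :=
          Finset.single_le_sum (f := fun x => exp (t • Q) x k) (fun x _ => hP0 x k)
            (Finset.mem_erase.mpr ⟨fun h => hjk h.symm, Finset.mem_univ k⟩)
        linarith
      have h4 := hd k
      linarith
  have hsub : Set.Icc (0 : ℝ) 1 ⊆ {t : ℝ | ∀ j : Fin d, 1 / M ≤ exp (t • Q) j j} := by
    apply IsClosed.Icc_subset_of_forall_exists_gt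
    · apply IsClosed.inter _ isClosed_Icc
      have h1 : {t : ℝ | ∀ j : Fin d, 1 / M ≤ exp (t • Q) j j} =
          ⋂ j : Fin d, {t : ℝ | 1 / M ≤ exp (t • Q) j j} := by
        ext t; simp
      rw [h1]
      exact isClosed_iInter fun j => isClosed_le continuous_const (hcont j)
    · intro j
      rw [zero_smul, NormedSpace.exp_zero, Matrix.one_apply_eq, div_le_one (by linarith)]
      exact hM
    · intro x hx y hy
      have h1 : ∀ j : Fin d, ∀ᶠ u in 𝓝[>] x, 1 / 2 < exp (u • Q) j j := by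
        intro j
        have h2 : 1 / 2 < exp (x • Q) j j := hhalf.trans_le (hx.1 j)
        exact ((hcont j).continuousAt.eventually (lt_mem_nhds h2)).filter_mono
          nhdsWithin_le_nhds
      have h2 : ∀ᶠ u in 𝓝[>] x, ∀ j : Fin d, 1 / 2 < exp (u • Q) j j :=
        Filter.eventually_all.mpr h1
      have hxy : x < min y 1 := lt_min hy hx.2.2
      have h3 : ∀ᶠ u in 𝓝[>] x, u ∈ Set.Ioc x (min y 1) := Ioc_mem_nhdsGT hxy
      obtain ⟨u, hu1, hu2⟩ := (h2.and h3).exists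
      refine ⟨u, ?_, hu2.1, hu2.2.trans (min_le_left _ _)⟩
      have hu0 : 0 ≤ u := hx.2.1.trans hu2.1.le
      exact hkey u hu0 (hu2.2.trans (min_le_right _ _)) hu1
  intro t ht j
  exact hsub ht j

/-- the bound for `M < 2` -/
theorem small_M_bound {M : ℝ} (hM : 1 ≤ M) (hM2 : M < 2) (Q : Matrix (Fin d) (Fin d) ℝ)
    (hinv : ∀ j : Fin d, ∑ i : Fin d, |exp (-Q) i j| ≤ M)
    (hst : ∀ t : ℝ, 0 ≤ t → (∀ i j : Fin d, 0 ≤ exp (t • Q) i j) ∧
      (∀ j : Fin d, ∑ i : Fin d, exp (t • Q) i j = 1)) (j : Fin d) :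
    2 * (-Q j j) ≤ Real.log (M / (2 - M)) := by
  obtain ⟨hoff, hcol⟩ := generator_of_stochastic Q hst
  obtain ⟨j0, -, hj0⟩ := Finset.exists_max_image Finset.univ (fun j : Fin d => -Q j j)
    ⟨j, Finset.mem_univ j⟩
  have hle : -Q j j ≤ -Q j0 j0 := hj0 j (Finset.mem_univ j)
  obtain ⟨l, hl⟩ : ∃ l : ℝ, l = -Q j0 j0 := ⟨_, rfl⟩
  rw [← hl] at hle
  suffices h : 2 * l ≤ Real.log (M / (2 - M)) by linarith
  have hl0 : 0 ≤ l := by
    have h1 := hcol j0
    rw [← Finset.add_sum_erase _ _ (Finset.mem_univ j0)] at h1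
    have h2 : 0 ≤ ∑ x ∈ Finset.univ.erase j0, Q x j0 :=
      Finset.sum_nonneg fun x hx => hoff x j0 (Finset.mem_erase.mp hx).1
    linarith
  -- rates into `j0`
  have hin : ∀ k : Fin d, k ≠ j0 → Q j0 k ≤ l := by
    intro k hk
    have h1 := hcol k
    rw [← Finset.add_sum_erase _ _ (Finset.mem_univ k)] at h1
    have h2 : Q j0 k ≤ ∑ x ∈ Finset.univ.erase k, Q x k :=
      Finset.single_le_sum (f := fun x => Q x k)
        (fun x hx => hoff x k (Finset.mem_erase.mp hx).1)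
        (Finset.mem_erase.mpr ⟨Ne.symm hk, Finset.mem_univ j0⟩)
    have h3 := hj0 k (Finset.mem_univ k)
    rw [← hl] at h3
    linarith
  -- the differential inequality
  have hder : ∀ t : ℝ, HasDerivAt (fun u : ℝ => Real.exp (2 * l * u) * (2 * exp (u • Q) j0 j0 - 1))
      (Real.exp (2 * l * t) * (2 * l) * (2 * exp (t • Q) j0 j0 - 1) +
        Real.exp (2 * l * t) * (2 * (Q * exp (t • Q)) j0 j0)) t := by
    intro t
    have h1 : HasDerivAt (fun u : ℝ => Real.exp (2 * l * u)) (Real.exp (2 * l * t) * (2 * l)) t := by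
      have := ((hasDerivAt_id t).const_mul (2 * l)).exp
      simpa using this
    have h2 : HasDerivAt (fun u : ℝ => 2 * exp (u • Q) j0 j0 - 1)
        (2 * (Q * exp (t • Q)) j0 j0) t :=
      ((exp_entry_hasDerivAt Q j0 j0 t).const_mul 2).sub_const 1
    exact h1.mul h2
  have hanti : AntitoneOn (fun u : ℝ => Real.exp (2 * l * u) * (2 * exp (u • Q) j0 j0 - 1))
      (Set.Icc 0 1) := by
    apply antitoneOn_of_deriv_nonpos (convex_Icc 0 1)
    · exact fun t _ => (hder t).continuousAt.continuousWithinAt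
    · exact fun t _ => (hder t).differentiableAt.differentiableWithinAt
    · intro t ht
      rw [interior_Icc] at ht
      rw [(hder t).deriv]
      obtain ⟨hP0, hP1⟩ := hst t ht.1.le
      have h1 : (Q * exp (t • Q)) j0 j0 ≤ l - 2 * l * exp (t • Q) j0 j0 := by
        obtain ⟨P, hP⟩ : ∃ P, P = exp (t • Q) := ⟨_, rfl⟩
        rw [← hP] at hP0 hP1 ⊢
        rw [Matrix.mul_apply, ← Finset.add_sum_erase _ _ (Finset.mem_univ j0)]
        have h2 : ∑ k ∈ Finset.univ.erase j0, Q j0 k * P k j0 ≤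
            ∑ k ∈ Finset.univ.erase j0, l * P k j0 :=
          Finset.sum_le_sum fun k hk =>
            mul_le_mul_of_nonneg_right (hin k (Finset.mem_erase.mp hk).1) (hP0 k j0)
        rw [← Finset.mul_sum] at h2
        have h3 := hP1 j0
        rw [← Finset.add_sum_erase _ _ (Finset.mem_univ j0)] at h3
        have h4 : ∑ k ∈ Finset.univ.erase j0, P k j0 = 1 - P j0 j0 := by linarith
        rw [h4] at h2
        have h5 : Q j0 j0 = -l := by linarith
        rw [h5]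
        linarith
      have h6 : Real.exp (2 * l * t) * (2 * l) * (2 * exp (t • Q) j0 j0 - 1) +
          Real.exp (2 * l * t) * (2 * (Q * exp (t • Q)) j0 j0) =
          Real.exp (2 * l * t) * (2 * ((Q * exp (t • Q)) j0 j0 -
            (l - 2 * l * exp (t • Q) j0 j0))) := by ring
      rw [h6]
      exact mul_nonpos_of_nonneg_of_nonpos (Real.exp_pos _).le (by linarith)
  have h1 := hanti (Set.left_mem_Icc.mpr zero_le_one) (Set.right_mem_Icc.mpr zero_le_one)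
    zero_le_one
  simp only [mul_one, one_smul, mul_zero, Real.exp_zero, zero_smul, NormedSpace.exp_zero,
    Matrix.one_apply_eq, one_mul] at h1
  have h2 := diag_ge hM hM2 Q hinv hst 1 (Set.right_mem_Icc.mpr zero_le_one) j0
  rw [one_smul] at h2
  have hM0 : 0 < M := by linarith
  have h3 : Real.exp (2 * l) * (2 * (1 / M) - 1) ≤ 1 := by
    have h4 : Real.exp (2 * l) * (2 * (1 / M) - 1) ≤ Real.exp (2 * l) * (2 * exp Q j0 j0 - 1) :=
      mul_le_mul_of_nonneg_left (by linarith) (Real.exp_pos _).le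
    linarith
  have h5 : 2 * (1 / M) - 1 = (2 - M) / M := by field_simp
  rw [h5] at h3
  have h6 : Real.exp (2 * l) ≤ M / (2 - M) := by
    rw [le_div_iff₀ (by linarith)]
    have h7 : Real.exp (2 * l) * ((2 - M) / M) * M ≤ 1 * M := mul_le_mul_of_nonneg_right h3 hM0.le
    have h8 : Real.exp (2 * l) * ((2 - M) / M) * M = Real.exp (2 * l) * (2 - M) := by
      field_simp
    linarith
  exact (Real.le_log_iff_exp_le (div_pos hM0 (by linarith))).mpr h6

/-- cubic remainder of the exponential -/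
lemma norm_exp_sub (A : Matrix (Fin d) (Fin d) ℝ) (hA : ‖A‖ ≤ 1) (hne : 0 < d) :
    ‖exp A - (1 + A + (2 : ℝ)⁻¹ • A ^ 2)‖ ≤ 2 / 9 * ‖A‖ ^ 3 := by
  have : Nonempty (Fin d) := ⟨⟨0, hne⟩⟩
  have h1 : HasSum (fun n : ℕ => (((n + 3).factorial : ℝ)⁻¹) • A ^ (n + 3))
      (exp A - ∑ i ∈ Finset.range 3, ((i.factorial : ℝ)⁻¹) • A ^ i) :=
    (hasSum_nat_add_iff' 3).mpr (hasSum_exp A)
  have h2 : (exp A - ∑ i ∈ Finset.range 3, ((i.factorial : ℝ)⁻¹) • A ^ i) =
      exp A - (1 + A + (2 : ℝ)⁻¹ • A ^ 2) := by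
    rw [Finset.sum_range_succ, Finset.sum_range_succ, Finset.sum_range_one]
    simp
  rw [h2] at h1
  have h3 : HasSum (fun n : ℕ => (((n + 3).factorial : ℝ)⁻¹) * ‖A‖ ^ (n + 3))
      (Real.exp ‖A‖ - ∑ i ∈ Finset.range 3, ((i.factorial : ℝ)⁻¹) * ‖A‖ ^ i) := by
    have h4 : HasSum (fun n : ℕ => ((n.factorial : ℝ)⁻¹) * ‖A‖ ^ n) (Real.exp ‖A‖) := by
      rw [Real.exp_eq_exp_ℝ]
      exact NormedSpace.exp_series_hasSum_exp' (𝕂 := ℝ) ‖A‖
    exact (hasSum_nat_add_iff' 3).mpr h4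
  have h6 : ‖exp A - (1 + A + (2 : ℝ)⁻¹ • A ^ 2)‖ ≤
      Real.exp ‖A‖ - ∑ i ∈ Finset.range 3, ((i.factorial : ℝ)⁻¹) * ‖A‖ ^ i := by
    rw [← h1.tsum_eq]
    refine tsum_of_norm_bounded h3 ?_
    intro n
    rw [norm_smul, Real.norm_of_nonneg (by positivity)]
    exact mul_le_mul_of_nonneg_left (norm_pow_le A (n + 3)) (by positivity)
  have h7 := Real.exp_bound (x := ‖A‖) (by rwa [abs_of_nonneg (norm_nonneg A)])
    (n := 3) (by norm_num)
  have h8 : (∑ i ∈ Finset.range 3, ((i.factorial : ℝ)⁻¹) * ‖A‖ ^ i) =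
      ∑ m ∈ Finset.range 3, ‖A‖ ^ m / (m.factorial : ℝ) :=
    Finset.sum_congr rfl fun i _ => by rw [div_eq_inv_mul]
  rw [h8] at h6
  refine h6.trans ((le_abs_self _).trans (h7.trans (le_of_eq ?_)))
  rw [abs_of_nonneg (norm_nonneg A)]
  norm_num [Nat.factorial]
  ring

/-- second order asymptotics from above -/
theorem near_one_bound {M : ℝ} (hM : 1 ≤ M) (hM2 : M ≤ 6 / 5) (Q : Matrix (Fin d) (Fin d) ℝ)
    (hinv : ∀ j : Fin d, ∑ i : Fin d, |exp (-Q) i j| ≤ M)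
    (hst : ∀ t : ℝ, 0 ≤ t → (∀ i j : Fin d, 0 ≤ exp (t • Q) i j) ∧
      (∀ j : Fin d, ∑ i : Fin d, exp (t • Q) i j = 1)) (j : Fin d) :
    2 * (-Q j j) ≤ (M - 1) - (M - 1) ^ 2 / 4 + (M - 1) ^ 3 := by
  obtain ⟨hoff, hcol⟩ := generator_of_stochastic Q hst
  have hd0 : 0 < d := lt_of_le_of_lt (Nat.zero_le _) j.isLt
  obtain ⟨j0, -, hj0⟩ := Finset.exists_max_image Finset.univ (fun j : Fin d => -Q j j)
    ⟨j, Finset.mem_univ j⟩
  have hle : -Q j j ≤ -Q j0 j0 := hj0 j (Finset.mem_univ j)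
  have h0 := small_M_bound hM (by linarith) Q hinv hst j0
  obtain ⟨q, hq⟩ : ∃ q : ℝ, q = -Q j0 j0 := ⟨_, rfl⟩
  rw [← hq] at h0 hle
  have hcolabs : ∀ k : Fin d, ∑ i, |Q i k| = 2 * (-Q k k) ∧ 0 ≤ -Q k k := by
    intro k
    have h1 := hcol k
    rw [← Finset.add_sum_erase _ _ (Finset.mem_univ k)] at h1
    have h3 : 0 ≤ ∑ x ∈ Finset.univ.erase k, Q x k :=
      Finset.sum_nonneg fun x hx => hoff x k (Finset.mem_erase.mp hx).1
    have h2 : ∑ x ∈ Finset.univ.erase k, |Q x k| = ∑ x ∈ Finset.univ.erase k, Q x k :=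
      Finset.sum_congr rfl fun x hx => abs_of_nonneg (hoff x k (Finset.mem_erase.mp hx).1)
    refine ⟨?_, by linarith⟩
    rw [← Finset.add_sum_erase _ _ (Finset.mem_univ k), h2, abs_of_nonpos (by linarith)]
    linarith
  have hq0 : 0 ≤ q := by rw [hq]; exact (hcolabs j0).2
  have hq2 : 2 * q ≤ 1 / 2 := by
    refine h0.trans ?_
    rw [Real.log_le_iff_le_exp (div_pos (by linarith) (by linarith))]
    have h1 : M / (2 - M) ≤ 3 / 2 := by
      rw [div_le_iff₀ (by linarith)]; linarith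
    have h2 := Real.add_one_le_exp (1 / 2 : ℝ)
    linarith
  -- the norms
  obtain ⟨A, hA⟩ : ∃ A : Matrix (Fin d) (Fin d) ℝ, A = (-Q)ᵀ := ⟨_, rfl⟩
  have hAapp : ∀ k i, A k i = -Q i k := by
    intro k i
    rw [hA, Matrix.transpose_apply, Matrix.neg_apply]
  have hAκ : ‖A‖ ≤ 2 * q := by
    apply norm_le_of_rows _ (by linarith)
    intro k
    have h1 : ∑ i, |A k i| = ∑ i, |Q i k| := by
      refine Finset.sum_congr rfl fun i _ => ?_
      rw [hAapp, abs_neg]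
    rw [h1, (hcolabs k).1, hq]
    have := hj0 k (Finset.mem_univ k)
    linarith
  have hexp : ‖exp A‖ ≤ M := by
    rw [hA, Matrix.exp_transpose]
    exact norm_le_of_rows _ (by linarith) fun i => by simpa using hinv i
  have hrem := norm_exp_sub A (hAκ.trans (by linarith)) hd0
  have hrem2 : ‖A‖ ^ 3 ≤ (2 * q) ^ 3 := pow_le_pow_left₀ (norm_nonneg A) hAκ 3
  -- the set of neighbours and the test signs
  obtain ⟨N, hN⟩ : ∃ N : Finset (Fin d), N = Finset.univ.filter (fun i => i ≠ j0 ∧ 0 < Q i j0) :=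
    ⟨_, rfl⟩
  have hmemN : ∀ i, i ∈ N ↔ (i ≠ j0 ∧ 0 < Q i j0) := by
    intro i; rw [hN]; simp
  obtain ⟨σ, hσ⟩ : ∃ σ : Fin d → ℝ, σ = fun i => if i ∈ N then -1 else 1 := ⟨_, rfl⟩
  have hσapp : ∀ i, σ i = if i ∈ N then -1 else 1 := fun i => by rw [hσ]
  have hσabs : ∀ i, |σ i| = 1 := by
    intro i
    rw [hσapp]
    split_ifs <;> simp
  -- for every matrix the signed row sum is at most the norm
  have htest : ∀ B : Matrix (Fin d) (Fin d) ℝ, ∑ i, B j0 i * σ i ≤ ‖B‖ := by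
    intro B
    refine le_trans ?_ (row_le_norm B j0)
    apply Finset.sum_le_sum
    intro i _
    calc B j0 i * σ i ≤ |B j0 i * σ i| := le_abs_self _
      _ = |B j0 i| := by rw [abs_mul, hσabs, mul_one]
  -- sums over the neighbourhood
  have hsumN : ∀ k : Fin d, k ≠ j0 → ∑ i, Q i k * σ i = -2 * ∑ i ∈ N, Q i k := by
    intro k _
    have h1 : ∀ i, Q i k * σ i = Q i k - 2 * (if i ∈ N then Q i k else 0) := by
      intro i
      rw [hσapp]
      split_ifs <;> ring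
    rw [Finset.sum_congr rfl (fun i _ => h1 i), Finset.sum_sub_distrib, hcol, ← Finset.mul_sum,
      Finset.sum_ite_mem, Finset.univ_inter]
    ring
  have hQN : ∑ i ∈ N, Q i j0 = q := by
    have h1 := hcol j0
    rw [← Finset.add_sum_erase _ _ (Finset.mem_univ j0)] at h1
    have h2 : ∑ i ∈ Finset.univ.erase j0, Q i j0 = ∑ i ∈ N, Q i j0 := by
      symm
      apply Finset.sum_subset
      · intro i hi
        exact Finset.mem_erase.mpr ⟨((hmemN i).mp hi).1, Finset.mem_univ i⟩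
      · intro i hi hiN
        have h3 := (Finset.mem_erase.mp hi).1
        have h4 := hoff i j0 h3
        by_contra h5
        exact hiN ((hmemN i).mpr ⟨h3, lt_of_le_of_ne h4 (Ne.symm h5)⟩)
    rw [h2] at h1
    linarith
  have hj0N : j0 ∉ N := fun h => ((hmemN j0).mp h).1 rfl
  have hfirst : ∑ i, Q i j0 * σ i = -2 * q := by
    have h1 : ∀ i, Q i j0 * σ i = Q i j0 - 2 * (if i ∈ N then Q i j0 else 0) := by
      intro i
      rw [hσapp]
      split_ifs <;> ring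
    rw [Finset.sum_congr rfl (fun i _ => h1 i), Finset.sum_sub_distrib, hcol, ← Finset.mul_sum,
      Finset.sum_ite_mem, Finset.univ_inter, hQN]
    ring
  -- the quadratic term
  have hneg : ∀ k ∈ N, ∑ i ∈ N, Q i k ≤ 0 := by
    intro k hk
    have h1 := hcol k
    rw [← Finset.sum_add_sum_compl N] at h1
    have h2 : 0 ≤ ∑ i ∈ Nᶜ, Q i k := by
      apply Finset.sum_nonneg
      intro i hi
      have : i ≠ k := by
        intro h
        rw [h] at hi
        exact (Finset.mem_compl.mp hi) hk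
      exact hoff i k this
    linarith
  have hsecond : 2 * q ^ 2 ≤ ∑ i, (A ^ 2) j0 i * σ i := by
    have h1 : ∑ i, (A ^ 2) j0 i * σ i = ∑ k, Q k j0 * ∑ i, Q i k * σ i := by
      have h2 : ∀ i, (A ^ 2) j0 i = ∑ k, Q k j0 * Q i k := by
        intro i
        rw [sq, Matrix.mul_apply]
        refine Finset.sum_congr rfl fun k _ => ?_
        rw [hAapp, hAapp]; ring
      simp only [h2, Finset.sum_mul]
      rw [Finset.sum_comm]
      refine Finset.sum_congr rfl fun k _ => ?_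
      rw [Finset.mul_sum]
      exact Finset.sum_congr rfl fun i _ => by ring
    rw [h1, ← Finset.add_sum_erase _ _ (Finset.mem_univ j0), hfirst]
    have h3 : 0 ≤ ∑ k ∈ Finset.univ.erase j0, Q k j0 * ∑ i, Q i k * σ i := by
      apply Finset.sum_nonneg
      intro k hk
      have hk0 := (Finset.mem_erase.mp hk).1
      rw [hsumN k hk0]
      by_cases hkN : k ∈ N
      · exact mul_nonneg (hoff k j0 hk0) (by have := hneg k hkN; linarith)
      · have h4 : Q k j0 = 0 := by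
          by_contra h5
          exact hkN ((hmemN k).mpr ⟨hk0, lt_of_le_of_ne (hoff k j0 hk0) (Ne.symm h5)⟩)
        rw [h4, zero_mul]
    have h4 : Q j0 j0 = -q := by rw [hq]; ring
    rw [h4]
    nlinarith
  have hlow : 1 + 2 * q + q ^ 2 ≤ ‖1 + A + (2 : ℝ)⁻¹ • A ^ 2‖ := by
    refine le_trans ?_ (htest _)
    have h1 : ∀ i, (1 + A + (2 : ℝ)⁻¹ • A ^ 2 : Matrix (Fin d) (Fin d) ℝ) j0 i * σ i =
        (1 : Matrix (Fin d) (Fin d) ℝ) j0 i * σ i - Q i j0 * σ i +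
          2⁻¹ * ((A ^ 2) j0 i * σ i) := by
      intro i
      rw [Matrix.add_apply, Matrix.add_apply, Matrix.smul_apply, smul_eq_mul, hAapp]
      ring
    rw [Finset.sum_congr rfl (fun i _ => h1 i), Finset.sum_add_distrib, Finset.sum_sub_distrib,
      ← Finset.mul_sum, hfirst]
    have h2 : ∑ i, (1 : Matrix (Fin d) (Fin d) ℝ) j0 i * σ i = 1 := by
      have h3 : ∀ i, (1 : Matrix (Fin d) (Fin d) ℝ) j0 i * σ i = if j0 = i then σ i else 0 := by
        intro i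
        rw [Matrix.one_apply]
        split_ifs <;> simp
      rw [Finset.sum_congr rfl (fun i _ => h3 i), Finset.sum_ite_eq, if_pos (Finset.mem_univ _),
        hσapp, if_neg hj0N]
    rw [h2]
    linarith
  have htri : ‖1 + A + (2 : ℝ)⁻¹ • A ^ 2‖ ≤
      ‖exp A‖ + ‖exp A - (1 + A + (2 : ℝ)⁻¹ • A ^ 2)‖ := by
    have h1 : 1 + A + (2 : ℝ)⁻¹ • A ^ 2 = exp A - (exp A - (1 + A + (2 : ℝ)⁻¹ • A ^ 2)) := by abel
    calc ‖1 + A + (2 : ℝ)⁻¹ • A ^ 2‖ =
        ‖exp A - (exp A - (1 + A + (2 : ℝ)⁻¹ • A ^ 2))‖ := by rw [← h1]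
      _ ≤ _ := norm_sub_le _ _
  obtain ⟨κ, hκ⟩ : ∃ κ : ℝ, κ = 2 * q := ⟨_, rfl⟩
  obtain ⟨x, hx⟩ : ∃ x : ℝ, x = M - 1 := ⟨_, rfl⟩
  have hmain : κ + κ ^ 2 / 4 - 2 / 9 * κ ^ 3 ≤ x := by
    rw [hκ, hx]
    nlinarith [hlow, htri, hrem, hrem2, hexp]
  have hκ0 : 0 ≤ κ := by linarith
  have hκ2 : κ ≤ 1 / 2 := by linarith
  rw [← hx]
  have hx0 : 0 ≤ x := by linarith
  have hx1 : x ≤ 1 / 5 := by linarith
  suffices hfin : κ ≤ x - x ^ 2 / 4 + x ^ 3 by linarith
  by_contra hcon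
  push Not at hcon
  obtain ⟨y, hy⟩ : ∃ y : ℝ, y = x - x ^ 2 / 4 + x ^ 3 := ⟨_, rfl⟩
  rw [← hy] at hcon
  have hyx : y ≤ x := by
    rw [hy]
    nlinarith [mul_nonneg (sq_nonneg x) (by linarith : (0 : ℝ) ≤ 1 / 4 - x)]
  have hy0 : 0 ≤ y := by
    rw [hy]
    nlinarith [pow_nonneg hx0 3, mul_nonneg hx0 (by linarith : (0 : ℝ) ≤ 1 - x / 4)]
  -- g(y) ≥ x
  have h1 : x ≤ y + y ^ 2 / 4 - 2 / 9 * y ^ 3 := by
    have h2 : y ^ 3 ≤ x ^ 3 := pow_le_pow_left₀ hy0 hyx 3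
    have h3 : x ^ 2 - x ^ 3 / 2 ≤ y ^ 2 := by
      have h4 : y ^ 2 - (x ^ 2 - x ^ 3 / 2) =
          x ^ 2 * (x ^ 2 * (33 / 16 - x / 2 + x ^ 2)) := by rw [hy]; ring
      have h5 : 0 ≤ 33 / 16 - x / 2 + x ^ 2 := by nlinarith [sq_nonneg x]
      have := mul_nonneg (sq_nonneg x) (mul_nonneg (sq_nonneg x) h5)
      linarith
    have h6 := pow_nonneg hx0 3
    rw [hy] at *
    linarith
  -- g is increasing
  have h2 : 0 < (κ - y) * (1 + (κ + y) / 4 - 2 / 9 * (κ ^ 2 + κ * y + y ^ 2)) := by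
    apply mul_pos (by linarith)
    nlinarith
  nlinarith

/-- the one-way two-state chain -/
theorem two_state {M : ℝ} (hM : 1 ≤ M) : ∃ Q : Matrix (Fin 2) (Fin 2) ℝ,
    (∀ j : Fin 2, ∑ i : Fin 2, |exp (-Q) i j| ≤ M) ∧
    (∀ t : ℝ, 0 ≤ t → (∀ i j : Fin 2, 0 ≤ exp (t • Q) i j) ∧
      (∀ j : Fin 2, ∑ i : Fin 2, exp (t • Q) i j = 1)) ∧
    ∃ j : Fin 2, 2 * Real.log ((M + 1) / 2) ≤ ∑ i : Fin 2, |Q i j| := by
  obtain ⟨q, hq⟩ : ∃ q : ℝ, q = Real.log ((M + 1) / 2) := ⟨_, rfl⟩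
  have hq0 : 0 ≤ q := by rw [hq]; exact Real.log_nonneg (by linarith)
  have hexpq : Real.exp q = (M + 1) / 2 := by rw [hq]; exact Real.exp_log (by linarith)
  obtain ⟨E, hE⟩ : ∃ E : Matrix (Fin 2) (Fin 2) ℝ, E = !![1, 0; -1, 0] := ⟨_, rfl⟩
  have hEE : E * E = E := by
    rw [hE]
    ext i j
    fin_cases i <;> fin_cases j <;> simp [Matrix.mul_apply, Fin.sum_univ_two]
  have hEpow : ∀ n : ℕ, E ^ (n + 1) = E := by
    intro n
    induction n with
    | zero => simp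
    | succ n ih => rw [pow_succ, ih, hEE]
  have hexp : exp (q • E) = 1 + (Real.exp q - 1) • E := by
    have h1 := hasSum_exp (q • E)
    have h2 : HasSum (fun n : ℕ => ((n.factorial : ℝ)⁻¹) * q ^ n) (Real.exp q) := by
      rw [Real.exp_eq_exp_ℝ]
      exact NormedSpace.exp_series_hasSum_exp' (𝕂 := ℝ) q
    have h3 : HasSum (fun n : ℕ => (((n + 1).factorial : ℝ)⁻¹) * q ^ (n + 1))
        (Real.exp q - 1) := by
      have h4 := (hasSum_nat_add_iff' 1).mpr h2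
      simpa using h4
    have h4 := h3.smul_const E
    have h5 : HasSum (fun n : ℕ => (((n + 1).factorial : ℝ)⁻¹) • (q • E) ^ (n + 1))
        ((Real.exp q - 1) • E) := by
      refine h4.congr_fun (fun n => ?_)
      rw [smul_pow, hEpow, smul_smul]
    have h6 : HasSum (fun n : ℕ => ((n.factorial : ℝ)⁻¹) • (q • E) ^ n)
        ((Real.exp q - 1) • E + ∑ i ∈ Finset.range 1, ((i.factorial : ℝ)⁻¹) • (q • E) ^ i) :=
      (hasSum_nat_add_iff 1).mp h5
    have h7 := h1.unique h6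
    rw [h7, Finset.sum_range_one]
    simp [add_comm]
  refine ⟨-(q • E), ?_, ?_, 0, ?_⟩
  · intro j
    rw [neg_neg, hexp, hexpq, hE]
    fin_cases j
    · rw [Fin.sum_univ_two]
      simp only [Matrix.add_apply, Matrix.smul_apply, smul_eq_mul, Matrix.one_apply]
      simp
      rw [abs_of_nonneg (by linarith), abs_of_nonpos (by linarith)]
      linarith
    · rw [Fin.sum_univ_two]
      simp
      linarith
  · intro t ht
    apply stochastic_of_generator _ _ _ t ht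
    · intro i j hij
      rw [hE]
      fin_cases i <;> fin_cases j <;> simp_all
    · intro j
      rw [hE]
      fin_cases j <;> simp [Fin.sum_univ_two]
  · rw [Fin.sum_univ_two, hE]
    simp only [Matrix.neg_apply, Matrix.smul_apply, smul_eq_mul]
    simp
    rw [abs_of_nonneg hq0, ← hq]
    linarith

end MarkovDim
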