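import Mathlib
import Pool.Agent.MP_c4a887_an.Matrix

set_option autoImplicit false

/-! The second order smoothing estimate and the linear bound `‖Q‖ ≤ √2 M`. -/

open Matrix NormedSpace Filter Topology
open scoped Matrix.Norms.Operator

namespace MarkovDim

open MarkovBound

/-- index shift for sums against Poisson weights -/
lemma hasSum_shift {τ s : ℝ} (f : ℝ → ℝ) (h : HasSum (fun k : ℕ => pw τ k * f k) s) :
    HasSum (fun k : ℕ => pw τ k * ((k : ℝ) * f ((k : ℝ) - 1))) (τ * s) := by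
  rw [← hasSum_nat_add_iff' 1]
  simp only [Finset.range_one, Finset.sum_singleton, Nat.cast_zero, zero_mul, mul_zero, sub_zero]
  have h1 := h.mul_left τ
  have h2 : (fun k : ℕ => τ * (pw τ k * f k)) =
      fun k : ℕ => pw τ (k + 1) * (((k + 1 : ℕ) : ℝ) * f (((k + 1 : ℕ) : ℝ) - 1)) := by
    funext k
    have h3 := pw_succ τ k
    have h4 : (((k + 1 : ℕ) : ℝ) - 1) = k := by push_cast; ring
    rw [h4]
    push_cast
    linear_combination (-(f k)) * h3
  rw [h2] at h1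
  exact h1

/-- falling factorials -/
noncomputable def ff0 (_ : ℝ) : ℝ := 1
/-- falling factorials -/
noncomputable def ff1 (x : ℝ) : ℝ := x * ff0 (x - 1)
/-- falling factorials -/
noncomputable def ff2 (x : ℝ) : ℝ := x * ff1 (x - 1)
/-- falling factorials -/
noncomputable def ff3 (x : ℝ) : ℝ := x * ff2 (x - 1)
/-- falling factorials -/
noncomputable def ff4 (x : ℝ) : ℝ := x * ff3 (x - 1)

lemma charlier_sq {τ : ℝ} (hτ : τ ≠ 0) (x : ℝ) :
    (1 - 2 * x / τ + x * (x - 1) / τ ^ 2) ^ 2 =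
      ff0 x + -4 / τ * ff1 x + (6 / τ ^ 2 * ff2 x + 4 / τ ^ 2 * ff1 x) +
      (-4 / τ ^ 3 * ff3 x + -8 / τ ^ 3 * ff2 x) +
      (1 / τ ^ 4 * ff4 x + (4 / τ ^ 4 * ff3 x + 2 / τ ^ 4 * ff2 x)) := by
  simp only [ff4, ff3, ff2, ff1, ff0]
  field_simp
  ring

/-- the second moment of the second Charlier polynomial -/
lemma hasSum_charlier {τ : ℝ} (hτ : 0 < τ) :
    HasSum (fun k : ℕ => pw τ k * (1 - 2 * k / τ + k * (k - 1) / τ ^ 2) ^ 2)
      (2 / τ ^ 2 * Real.exp τ) := by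
  have h0 : HasSum (fun k : ℕ => pw τ k * ff0 k) (Real.exp τ) := by
    simpa [ff0] using hasSum_pw τ
  have h1 : HasSum (fun k : ℕ => pw τ k * ff1 k) (τ * Real.exp τ) := hasSum_shift ff0 h0
  have h2 : HasSum (fun k : ℕ => pw τ k * ff2 k) (τ * (τ * Real.exp τ)) := hasSum_shift ff1 h1
  have h3 : HasSum (fun k : ℕ => pw τ k * ff3 k) (τ * (τ * (τ * Real.exp τ))) :=
    hasSum_shift ff2 h2
  have h4 : HasSum (fun k : ℕ => pw τ k * ff4 k) (τ * (τ * (τ * (τ * Real.exp τ)))) :=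
    hasSum_shift ff3 h3
  have h5 := ((((h0.add (h1.mul_left (-4 / τ))).add
    ((h2.mul_left (6 / τ ^ 2)).add (h1.mul_left (4 / τ ^ 2)))).add
    ((h3.mul_left (-4 / τ ^ 3)).add (h2.mul_left (-8 / τ ^ 3)))).add
    ((h4.mul_left (1 / τ ^ 4)).add ((h3.mul_left (4 / τ ^ 4)).add (h2.mul_left (2 / τ ^ 4)))))
  have hτ' : τ ≠ 0 := hτ.ne'
  have e2 : 2 / τ ^ 2 * Real.exp τ = Real.exp τ + -4 / τ * (τ * Real.exp τ) +
      (6 / τ ^ 2 * (τ * (τ * Real.exp τ)) + 4 / τ ^ 2 * (τ * Real.exp τ)) +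
      (-4 / τ ^ 3 * (τ * (τ * (τ * Real.exp τ))) + -8 / τ ^ 3 * (τ * (τ * Real.exp τ))) +
      (1 / τ ^ 4 * (τ * (τ * (τ * (τ * Real.exp τ)))) +
        (4 / τ ^ 4 * (τ * (τ * (τ * Real.exp τ))) + 2 / τ ^ 4 * (τ * (τ * Real.exp τ)))) := by
    field_simp
    ring
  rw [e2]
  refine h5.congr_fun (fun b => ?_)
  rw [charlier_sq hτ']
  ring

/-- second order smoothing: `‖(1 - S)² exp(-τ(1-S))‖ ≤ √2/τ`. -/
lemma smoothing_two {A : Type*} [NormedRing A] [NormedAlgebra ℝ A] [CompleteSpace A]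
    (S : A) (hS : ∀ k : ℕ, ‖S ^ k‖ ≤ 1) {τ : ℝ} (hτ : 0 < τ) :
    ‖(1 - S) ^ 2 * exp (-(τ • (1 - S)))‖ ≤ Real.sqrt 2 / τ := by
  have h1 : HasSum (fun k : ℕ => pw τ k • S ^ k) (exp (τ • S)) := by
    have h := NormedSpace.exp_series_hasSum_exp' (𝕂 := ℝ) (τ • S)
    have e : (fun k : ℕ => pw τ k • S ^ k) = fun n : ℕ => ((n.factorial : ℝ)⁻¹) • (τ • S) ^ n := by
      funext k
      rw [smul_pow, smul_smul]
      simp [pw, div_eq_inv_mul]
    rw [e]
    exact h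
  have h2 : HasSum (fun k : ℕ => (pw τ k * k / τ) • S ^ k) (S * exp (τ • S)) := by
    rw [← hasSum_nat_add_iff' 1]
    simp only [Finset.range_one, Finset.sum_singleton, Nat.cast_zero, mul_zero, zero_div,
      zero_smul, sub_zero]
    have h := h1.mul_left S
    have e : (fun k : ℕ => S * pw τ k • S ^ k) =
        fun k : ℕ => (pw τ (k + 1) * ((k + 1 : ℕ) : ℝ) / τ) • S ^ (k + 1) := by
      funext k
      have e : pw τ (k + 1) * ((k + 1 : ℕ) : ℝ) / τ = pw τ k := by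
        push_cast
        rw [pw_succ]
        field_simp
      rw [e, mul_smul_comm, pow_succ']
    rw [e] at h
    exact h
  have h3 : HasSum (fun k : ℕ => (pw τ k * (k * (k - 1)) / τ ^ 2) • S ^ k)
      (S * (S * exp (τ • S))) := by
    rw [← hasSum_nat_add_iff' 1]
    simp only [Finset.range_one, Finset.sum_singleton, Nat.cast_zero, mul_zero, zero_div,
      zero_smul, sub_zero, zero_mul]
    have h := h2.mul_left S
    have e : (fun k : ℕ => S * (pw τ k * k / τ) • S ^ k) =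
        fun k : ℕ => (pw τ (k + 1) * (((k + 1 : ℕ) : ℝ) * (((k + 1 : ℕ) : ℝ) - 1)) / τ ^ 2) •
          S ^ (k + 1) := by
      funext k
      have e : pw τ (k + 1) * (((k + 1 : ℕ) : ℝ) * (((k + 1 : ℕ) : ℝ) - 1)) / τ ^ 2 =
          pw τ k * k / τ := by
        push_cast
        have := pw_succ τ k
        have hτ' : τ ≠ 0 := hτ.ne'
        field_simp
        linear_combination (k : ℝ) * this
      rw [e, mul_smul_comm, pow_succ']
    rw [e] at h
    exact h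
  have h4 : HasSum (fun k : ℕ => (pw τ k * (1 - 2 * k / τ + k * (k - 1) / τ ^ 2)) • S ^ k)
      ((1 - S) ^ 2 * exp (τ • S)) := by
    have h := (h1.sub (h2.const_smul (2 : ℝ))).add h3
    have e1 : (1 - S) ^ 2 * exp (τ • S) =
        exp (τ • S) - (2 : ℝ) • (S * exp (τ • S)) + S * (S * exp (τ • S)) := by
      rw [two_smul, sq, mul_assoc]
      simp only [sub_mul, one_mul, mul_sub]
      abel
    have e2 : (fun k : ℕ => (pw τ k * (1 - 2 * k / τ + k * (k - 1) / τ ^ 2)) • S ^ k) =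
        fun k : ℕ => pw τ k • S ^ k - (2 : ℝ) • (pw τ k * k / τ) • S ^ k +
          (pw τ k * (k * (k - 1)) / τ ^ 2) • S ^ k := by
      funext k
      rw [smul_smul, ← sub_smul, ← add_smul]
      congr 1
      ring
    rw [e1, e2]
    exact h
  have h2s : Real.sqrt 2 * Real.sqrt 2 = 2 := Real.mul_self_sqrt (by norm_num)
  have hs2 : 0 < Real.sqrt 2 := Real.sqrt_pos.mpr (by norm_num)
  have h5 : HasSum (fun k : ℕ => τ / (2 * Real.sqrt 2) *
      (pw τ k * (1 - 2 * k / τ + k * (k - 1) / τ ^ 2) ^ 2 + pw τ k * (2 / τ ^ 2)))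
      (τ / (2 * Real.sqrt 2) * (2 / τ ^ 2 * Real.exp τ + Real.exp τ * (2 / τ ^ 2))) :=
    ((hasSum_charlier hτ).add ((hasSum_pw τ).mul_right _)).mul_left _
  have h6 : τ / (2 * Real.sqrt 2) * (2 / τ ^ 2 * Real.exp τ + Real.exp τ * (2 / τ ^ 2)) =
      Real.sqrt 2 / τ * Real.exp τ := by
    have hτ' : τ ≠ 0 := hτ.ne'
    have hs : Real.sqrt 2 ≠ 0 := hs2.ne'
    field_simp
    nlinarith [h2s]
  rw [h6] at h5
  have h7 : ‖(1 - S) ^ 2 * exp (τ • S)‖ ≤ Real.sqrt 2 / τ * Real.exp τ := by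
    rw [← h4.tsum_eq]
    refine tsum_of_norm_bounded h5 ?_
    intro k
    obtain ⟨y, hy⟩ : ∃ y : ℝ, y = 1 - 2 * k / τ + k * (k - 1) / τ ^ 2 := ⟨_, rfl⟩
    rw [← hy, norm_smul]
    have h8 : ‖pw τ k * y‖ * ‖S ^ k‖ ≤ ‖pw τ k * y‖ * 1 :=
      mul_le_mul_of_nonneg_left (hS k) (norm_nonneg _)
    refine h8.trans ?_
    rw [mul_one, norm_mul, Real.norm_of_nonneg (pw_nonneg hτ.le k), Real.norm_eq_abs]
    have h9 : τ / (2 * Real.sqrt 2) * (pw τ k * y ^ 2 + pw τ k * (2 / τ ^ 2)) =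
        pw τ k * (τ / (2 * Real.sqrt 2) * (y ^ 2 + 2 / τ ^ 2)) := by ring
    rw [h9]
    refine mul_le_mul_of_nonneg_left ?_ (pw_nonneg hτ.le k)
    have h10 : 2 / τ ^ 2 = (Real.sqrt 2 / τ) ^ 2 := by
      rw [div_pow, sq (Real.sqrt 2), h2s]
    have h11 : 0 ≤ (Real.sqrt 2 / τ - |y|) ^ 2 := sq_nonneg _
    have h12 : 2 * (Real.sqrt 2 / τ) * |y| ≤ y ^ 2 + (Real.sqrt 2 / τ) ^ 2 := by
      have := sq_abs y
      nlinarith
    rw [h10]
    calc |y| = τ / (2 * Real.sqrt 2) * (2 * (Real.sqrt 2 / τ) * |y|) := by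
          have hτ' : τ ≠ 0 := hτ.ne'
          field_simp
      _ ≤ _ := mul_le_mul_of_nonneg_left h12 (by positivity)
  have h8 : exp (-(τ • (1 - S))) = Real.exp (-τ) • exp (τ • S) := by
    have e1 : -(τ • (1 - S)) = algebraMap ℝ A (-τ) + τ • S := by
      rw [Algebra.algebraMap_eq_smul_one, smul_sub]
      simp only [neg_smul]
      abel
    rw [e1]
    let _ : NormedAlgebra ℚ A := NormedAlgebra.restrictScalars ℚ ℝ A
    rw [NormedSpace.exp_add_of_commute (Algebra.commutes _ _)]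
    have e2 : exp (algebraMap ℝ A (-τ)) = algebraMap ℝ A (Real.exp (-τ)) := by
      rw [Real.exp_eq_exp_ℝ]
      exact (NormedSpace.algebraMap_exp_comm (-τ)).symm
    rw [e2, Algebra.algebraMap_eq_smul_one, smul_mul_assoc, one_mul]
  rw [h8, mul_smul_comm, norm_smul, Real.norm_of_nonneg (Real.exp_pos _).le]
  calc Real.exp (-τ) * ‖(1 - S) ^ 2 * exp (τ • S)‖
      ≤ Real.exp (-τ) * (Real.sqrt 2 / τ * Real.exp τ) :=
        mul_le_mul_of_nonneg_left h7 (Real.exp_pos _).le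
    _ = Real.sqrt 2 / τ := by
      rw [mul_comm, mul_assoc, ← Real.exp_add]
      simp

/-- `‖(1 - S)²‖ ≤ √2 M / T` if `‖exp (T (1 - S))‖ ≤ M`. -/
lemma square_bound {A : Type*} [NormedRing A] [NormedAlgebra ℝ A] [CompleteSpace A]
    (S : A) (hS : ∀ k : ℕ, ‖S ^ k‖ ≤ 1) {T M : ℝ} (hT : 0 < T)
    (hM : ‖exp (T • (1 - S))‖ ≤ M) : ‖(1 - S) ^ 2‖ ≤ Real.sqrt 2 / T * M := by
  let _ : NormedAlgebra ℚ A := NormedAlgebra.restrictScalars ℚ ℝ A
  have h1 := smoothing_two S hS hT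
  have h4 : (1 - S) ^ 2 * exp (-(T • (1 - S))) * exp (T • (1 - S)) = (1 - S) ^ 2 := by
    rw [mul_assoc, ← NormedSpace.exp_add_of_commute]
    · simp
    · exact (Commute.refl _).neg_left
  have hM0 : 0 ≤ M := (norm_nonneg _).trans hM
  calc ‖(1 - S) ^ 2‖ = ‖(1 - S) ^ 2 * exp (-(T • (1 - S))) * exp (T • (1 - S))‖ := by rw [h4]
    _ ≤ ‖(1 - S) ^ 2 * exp (-(T • (1 - S)))‖ * ‖exp (T • (1 - S))‖ := norm_mul_le _ _
    _ ≤ Real.sqrt 2 / T * M := mul_le_mul h1 hM (norm_nonneg _) (by positivity)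

/-- **Linear dimension-free bound.** -/
theorem linear_bound {d : ℕ} {M : ℝ} (hM : 1 ≤ M) (Q : Matrix (Fin d) (Fin d) ℝ)
    (hinv : ∀ j : Fin d, ∑ i : Fin d, |exp (-Q) i j| ≤ M)
    (hoff : ∀ i j : Fin d, i ≠ j → 0 ≤ Q i j) (hcol : ∀ j : Fin d, ∑ i : Fin d, Q i j = 0)
    (j : Fin d) : 2 * (-Q j j) ≤ Real.sqrt 2 * M := by
  obtain ⟨j0, -, hj0⟩ := Finset.exists_max_image Finset.univ (fun j : Fin d => -Q j j)
    ⟨j, Finset.mem_univ j⟩
  have hle : -Q j j ≤ -Q j0 j0 := hj0 j (Finset.mem_univ j)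
  have hs2 : 0 < Real.sqrt 2 := Real.sqrt_pos.mpr (by norm_num)
  have h2s : Real.sqrt 2 * Real.sqrt 2 = 2 := Real.mul_self_sqrt (by norm_num)
  rcases le_or_gt (-Q j0 j0) 0 with h | hpos
  · have : 0 ≤ Real.sqrt 2 * M := by positivity
    linarith
  obtain ⟨T, hT⟩ : ∃ T : ℝ, T = -Q j0 j0 := ⟨_, rfl⟩
  rw [← hT] at hpos hle
  obtain ⟨S, hS⟩ : ∃ S : Matrix (Fin d) (Fin d) ℝ, S = 1 + T⁻¹ • Qᵀ := ⟨_, rfl⟩
  have hSapp : ∀ i k, S i k = (if i = k then 1 else 0) + T⁻¹ * Q k i := by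
    intro i k
    rw [hS]
    simp [Matrix.add_apply, Matrix.one_apply]
  have hS0 : ∀ i k, 0 ≤ S i k := by
    intro i k
    rw [hSapp]
    split_ifs with h
    · subst h
      have h1 := hj0 i (Finset.mem_univ i)
      have : T⁻¹ * (-Q i i) ≤ 1 := by
        rw [inv_mul_le_iff₀ hpos, mul_one, hT]; exact h1
      linarith
    · have := hoff k i (Ne.symm h)
      positivity
  have hS1 : ∀ i, ∑ k, S i k = 1 := by
    intro i
    simp only [hSapp, Finset.sum_add_distrib, ← Finset.mul_sum, hcol]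
    simp
  have hpow := norm_pow_stochastic S hS0 hS1
  have e1 : T • (1 - S) = (-Q)ᵀ := by
    rw [hS, Matrix.transpose_neg]
    simp only [sub_add_cancel_left, smul_neg, smul_smul]
    rw [mul_inv_cancel₀ hpos.ne', one_smul]
  have hMn : ‖exp (T • (1 - S))‖ ≤ M := by
    rw [e1, Matrix.exp_transpose]
    exact norm_le_of_rows _ (by linarith) fun i => by simpa using hinv i
  have hSjj : S j0 j0 = 0 := by
    rw [hSapp, if_pos rfl]
    have : T⁻¹ * Q j0 j0 = -1 := by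
      have : Q j0 j0 = -T := by rw [hT]; ring
      rw [this, mul_neg, inv_mul_cancel₀ hpos.ne']
    linarith
  have hsq := square_bound S hpow hpos hMn
  -- lower bound for the norm of the square
  obtain ⟨B, hB⟩ : ∃ B : Matrix (Fin d) (Fin d) ℝ, B = 1 - S := ⟨_, rfl⟩
  rw [← hB] at hsq
  have hBapp : ∀ i k, B i k = (if i = k then 1 else 0) - S i k := by
    intro i k
    rw [hB, Matrix.sub_apply, Matrix.one_apply]
  have hrow0 : ∀ i, ∑ k, B i k = 0 := by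
    intro i
    simp only [hBapp, Finset.sum_sub_distrib, hS1]
    simp
  obtain ⟨D, hD⟩ : ∃ D : Matrix (Fin d) (Fin d) ℝ, D = B ^ 2 := ⟨_, rfl⟩
  rw [← hD] at hsq
  have hrow : ∑ k, D j0 k = 0 := by
    rw [hD, sq]
    simp only [Matrix.mul_apply]
    rw [Finset.sum_comm]
    apply Finset.sum_eq_zero
    intro k _
    rw [← Finset.mul_sum, hrow0, mul_zero]
  have hdiag : 1 ≤ D j0 j0 := by
    rw [hD, sq, Matrix.mul_apply]
    have h1 : B j0 j0 * B j0 j0 = 1 := by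
      rw [hBapp, hSjj, if_pos rfl]; norm_num
    rw [← h1]
    refine Finset.single_le_sum (f := fun k => B j0 k * B k j0) (fun k _ => ?_)
      (Finset.mem_univ j0)
    by_cases hk : j0 = k
    · subst hk; exact mul_self_nonneg _
    · rw [hBapp, hBapp, if_neg hk, if_neg (Ne.symm hk)]
      nlinarith [mul_nonneg (hS0 j0 k) (hS0 k j0)]
  have hnorm : 2 ≤ ‖D‖ := by
    refine le_trans ?_ (row_le_norm D j0)
    rw [← Finset.add_sum_erase _ _ (Finset.mem_univ j0)] at hrow ⊢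
    have h1 : -∑ x ∈ Finset.univ.erase j0, D j0 x ≤
        ∑ x ∈ Finset.univ.erase j0, |D j0 x| := by
      rw [← Finset.sum_neg_distrib]
      exact Finset.sum_le_sum fun x _ => neg_le_abs _
    have h2 := le_abs_self (D j0 j0)
    linarith
  have h1 : 2 ≤ Real.sqrt 2 / T * M := hnorm.trans hsq
  have h2 : 2 * T ≤ Real.sqrt 2 * M := by
    have h3 : Real.sqrt 2 / T * M * T = Real.sqrt 2 * M := by
      have hT' : T ≠ 0 := hpos.ne'
      field_simp
    nlinarith [mul_le_mul_of_nonneg_right h1 hpos.le]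
  linarith

end MarkovDim
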