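import Mathlib
import Pool.Agent.MP_c4a887_an.Matrix

set_option autoImplicit false

/-! A dimension-free linear bound for chains with two well separated speeds. -/

open Matrix NormedSpace Filter Topology
open scoped Matrix.Norms.Operator

namespace MarkovDim

open MarkovBound

section limit

variable {A : Type*} [NormedRing A] [NormOneClass A] [NormedAlgebra ℝ A] [CompleteSpace A]

omit [NormedAlgebra ℝ A] [CompleteSpace A] in
lemma norm_pow_sub_pow_le' (u v : A) {c : ℝ} (hu : ‖u‖ ≤ c) (hv : ‖v‖ ≤ c) (k : ℕ) :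
    ‖u ^ (k + 1) - v ^ (k + 1)‖ ≤ (k + 1) * c ^ k * ‖u - v‖ := by
  have hc : 0 ≤ c := (norm_nonneg u).trans hu
  induction k with
  | zero => simp
  | succ k ih =>
    have h1 : u ^ (k + 1 + 1) - v ^ (k + 1 + 1) =
        u * (u ^ (k + 1) - v ^ (k + 1)) + (u - v) * v ^ (k + 1) := by
      rw [pow_succ' u (k + 1), pow_succ' v (k + 1), mul_sub, sub_mul]
      abel
    rw [h1]
    have h2 : ‖v ^ (k + 1)‖ ≤ c ^ (k + 1) :=
      (norm_pow_le v (k + 1)).trans (pow_le_pow_left₀ (norm_nonneg v) hv _)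
    calc ‖u * (u ^ (k + 1) - v ^ (k + 1)) + (u - v) * v ^ (k + 1)‖
        ≤ ‖u‖ * ‖u ^ (k + 1) - v ^ (k + 1)‖ + ‖u - v‖ * ‖v ^ (k + 1)‖ :=
          (norm_add_le _ _).trans (add_le_add (norm_mul_le _ _) (norm_mul_le _ _))
      _ ≤ c * ((k + 1) * c ^ k * ‖u - v‖) + ‖u - v‖ * c ^ (k + 1) :=
          add_le_add (mul_le_mul hu ih (norm_nonneg _) hc)
            (mul_le_mul_of_nonneg_left h2 (norm_nonneg _))
      _ = ((k + 1 : ℕ) + 1) * c ^ (k + 1) * ‖u - v‖ := by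
          push_cast; ring

/-- quadratic remainder of the exponential in a Banach algebra -/
lemma norm_exp_sub_one_sub (x : A) (hx : ‖x‖ ≤ 1) : ‖exp x - (1 + x)‖ ≤ ‖x‖ ^ 2 := by
  have h0 : HasSum (fun n : ℕ => ((n.factorial : ℝ)⁻¹) • x ^ n) (exp x) :=
    NormedSpace.exp_series_hasSum_exp' (𝕂 := ℝ) x
  have h1 : HasSum (fun n : ℕ => (((n + 2).factorial : ℝ)⁻¹) • x ^ (n + 2))
      (exp x - ∑ i ∈ Finset.range 2, ((i.factorial : ℝ)⁻¹) • x ^ i) :=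
    (hasSum_nat_add_iff' 2).mpr h0
  have h2 : (exp x - ∑ i ∈ Finset.range 2, ((i.factorial : ℝ)⁻¹) • x ^ i) = exp x - (1 + x) := by
    rw [Finset.sum_range_succ, Finset.sum_range_one]
    simp
  rw [h2] at h1
  have h3 : HasSum (fun n : ℕ => (((n + 2).factorial : ℝ)⁻¹) * ‖x‖ ^ (n + 2))
      (Real.exp ‖x‖ - ∑ i ∈ Finset.range 2, ((i.factorial : ℝ)⁻¹) * ‖x‖ ^ i) := by
    have h4 : HasSum (fun n : ℕ => ((n.factorial : ℝ)⁻¹) * ‖x‖ ^ n) (Real.exp ‖x‖) := by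
      rw [Real.exp_eq_exp_ℝ]
      exact NormedSpace.exp_series_hasSum_exp' (𝕂 := ℝ) ‖x‖
    exact (hasSum_nat_add_iff' 2).mpr h4
  have h5 : (Real.exp ‖x‖ - ∑ i ∈ Finset.range 2, ((i.factorial : ℝ)⁻¹) * ‖x‖ ^ i) =
      Real.exp ‖x‖ - 1 - ‖x‖ := by
    rw [Finset.sum_range_succ, Finset.sum_range_one]
    simp
    ring
  rw [h5] at h3
  have h6 : ‖exp x - (1 + x)‖ ≤ Real.exp ‖x‖ - 1 - ‖x‖ := by
    rw [← h1.tsum_eq]
    refine tsum_of_norm_bounded h3 ?_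
    intro n
    rw [norm_smul, Real.norm_of_nonneg (by positivity)]
    exact mul_le_mul_of_nonneg_left (norm_pow_le x (n + 2)) (by positivity)
  have h7 := Real.abs_exp_sub_one_sub_id_le (x := ‖x‖) (by rwa [abs_of_nonneg (norm_nonneg x)])
  exact h6.trans ((le_abs_self _).trans h7)

lemma norm_exp_le' (x : A) : ‖exp x‖ ≤ Real.exp ‖x‖ := by
  have h0 : HasSum (fun n : ℕ => ((n.factorial : ℝ)⁻¹) • x ^ n) (exp x) :=
    NormedSpace.exp_series_hasSum_exp' (𝕂 := ℝ) x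
  have h4 : HasSum (fun n : ℕ => ((n.factorial : ℝ)⁻¹) * ‖x‖ ^ n) (Real.exp ‖x‖) := by
    rw [Real.exp_eq_exp_ℝ]
    exact NormedSpace.exp_series_hasSum_exp' (𝕂 := ℝ) ‖x‖
  rw [← h0.tsum_eq]
  refine tsum_of_norm_bounded h4 ?_
  intro n
  rw [norm_smul, Real.norm_of_nonneg (by positivity)]
  exact mul_le_mul_of_nonneg_left (norm_pow_le x n) (by positivity)

/-- `(1 + x/n)^n → exp x` in a Banach algebra. -/
lemma tendsto_pow_exp (x : A) :
    Tendsto (fun n : ℕ => (1 + ((n : ℝ)⁻¹) • x) ^ n) atTop (𝓝 (exp x)) := by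
  let _ : NormedAlgebra ℚ A := NormedAlgebra.restrictScalars ℚ ℝ A
  rw [tendsto_iff_norm_sub_tendsto_zero]
  have hlim : Tendsto (fun n : ℕ => Real.exp ‖x‖ * ‖x‖ ^ 2 * ((n : ℝ)⁻¹)) atTop (𝓝 0) := by
    have := (tendsto_inv_atTop_nhds_zero_nat (𝕜 := ℝ)).const_mul (Real.exp ‖x‖ * ‖x‖ ^ 2)
    simpa using this
  refine squeeze_zero' (Eventually.of_forall fun n => norm_nonneg _) ?_ hlim
  obtain ⟨N, hN⟩ := exists_nat_gt ‖x‖
  filter_upwards [eventually_ge_atTop (max N 1)] with n hn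
  have hn1 : 1 ≤ n := (le_max_right _ _).trans hn
  have hnN : (N : ℝ) ≤ n := by exact_mod_cast (le_max_left N 1).trans hn
  have hn0 : (0 : ℝ) < n := by exact_mod_cast hn1
  obtain ⟨k, rfl⟩ : ∃ k, n = k + 1 := ⟨n - 1, by omega⟩
  obtain ⟨y, hy⟩ : ∃ y : A, y = (((k + 1 : ℕ) : ℝ)⁻¹) • x := ⟨_, rfl⟩
  have hny : ‖y‖ = ‖x‖ / ((k + 1 : ℕ) : ℝ) := by
    rw [hy, norm_smul, norm_inv, Real.norm_of_nonneg hn0.le, div_eq_inv_mul]
  have hy1 : ‖y‖ ≤ 1 := by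
    rw [hny, div_le_one hn0]; linarith
  have hexp : exp x = exp y ^ (k + 1) := by
    rw [← NormedSpace.exp_nsmul, hy, ← Nat.cast_smul_eq_nsmul ℝ, smul_smul,
      mul_inv_cancel₀ hn0.ne', one_smul]
  rw [← hy, hexp, norm_sub_rev]
  have hu : ‖exp y‖ ≤ Real.exp ‖y‖ := norm_exp_le' y
  have hv : ‖1 + y‖ ≤ Real.exp ‖y‖ := by
    calc ‖1 + y‖ ≤ ‖(1 : A)‖ + ‖y‖ := norm_add_le _ _
      _ = ‖y‖ + 1 := by rw [norm_one]; ring
      _ ≤ Real.exp ‖y‖ := Real.add_one_le_exp _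
  have h1 := norm_pow_sub_pow_le' (exp y) (1 + y) hu hv k
  have h2 := norm_exp_sub_one_sub y hy1
  have h3 : Real.exp ‖y‖ ^ k ≤ Real.exp ‖x‖ := by
    rw [← Real.exp_nat_mul, Real.exp_le_exp, hny]
    rw [mul_div_assoc', div_le_iff₀ hn0]
    push_cast
    nlinarith [norm_nonneg x]
  calc ‖exp y ^ (k + 1) - (1 + y) ^ (k + 1)‖
      ≤ (k + 1) * Real.exp ‖y‖ ^ k * ‖exp y - (1 + y)‖ := h1
    _ ≤ (k + 1) * Real.exp ‖x‖ * ‖y‖ ^ 2 :=
        mul_le_mul (mul_le_mul_of_nonneg_left h3 (by positivity)) h2 (norm_nonneg _)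
          (by positivity)
    _ = Real.exp ‖x‖ * ‖x‖ ^ 2 * (((k + 1 : ℕ) : ℝ)⁻¹) := by
        rw [hny]
        push_cast
        field_simp

end limit

variable {d : ℕ}

/-- one step -/
lemma step {Q : Matrix (Fin d) (Fin d) ℝ} (hoff : ∀ i j : Fin d, i ≠ j → 0 ≤ Q i j)
    (hcol : ∀ j : Fin d, ∑ i : Fin d, Q i j = 0) (S : Finset (Fin d)) {R ρ L r h : ℝ}
    (hh : 0 ≤ h) (hρ : 0 ≤ ρ) (hr : 0 ≤ r) (hfast : ∀ i ∈ S, R ≤ ∑ k ∈ Sᶜ, Q k i)
    (hL : ∀ i ∈ S, ∑ k ∈ Sᶜ, Q k i ≤ L) (hslow : ∀ i ∈ Sᶜ, -Q i i ≤ ρ)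
    (hcond : L + 2 * ρ * r + ρ * r ^ 2 ≤ r * R) (x : Fin d → ℝ)
    (hx : ∑ k ∈ Sᶜ, |x k| ≤ r * ∑ k ∈ S, |x k|) :
    ∑ k ∈ Sᶜ, |((1 + h • (-Q)) *ᵥ x) k| ≤ r * ∑ k ∈ S, |((1 + h • (-Q)) *ᵥ x) k| ∧
      (1 + h * (R - ρ * r)) * ∑ k ∈ S, |x k| ≤ ∑ k ∈ S, |((1 + h • (-Q)) *ᵥ x) k| := by
  obtain ⟨a, ha⟩ : ∃ a : ℝ, a = ∑ k ∈ S, |x k| := ⟨_, rfl⟩
  obtain ⟨b, hb⟩ : ∃ b : ℝ, b = ∑ k ∈ Sᶜ, |x k| := ⟨_, rfl⟩
  have ha0 : 0 ≤ a := by rw [ha]; exact Finset.sum_nonneg fun _ _ => abs_nonneg _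
  have hb0 : 0 ≤ b := by rw [hb]; exact Finset.sum_nonneg fun _ _ => abs_nonneg _
  -- the rates
  have hrate : ∀ i, 0 ≤ -Q i i := by
    intro i
    have h1 := hcol i
    rw [← Finset.add_sum_erase _ _ (Finset.mem_univ i)] at h1
    have h2 : 0 ≤ ∑ x ∈ Finset.univ.erase i, Q x i :=
      Finset.sum_nonneg fun x hx => hoff x i (Finset.mem_erase.mp hx).1
    linarith
  have happ : ∀ k, ((1 + h • (-Q)) *ᵥ x) k =
      (1 + h * (-Q k k)) * x k - h * ∑ i ∈ Finset.univ.erase k, Q k i * x i := by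
    intro k
    rw [Matrix.mulVec, dotProduct, ← Finset.add_sum_erase _ _ (Finset.mem_univ k)]
    have h1 : ∀ i ∈ Finset.univ.erase k, (1 + h • (-Q)) k i * x i = -(h * (Q k i * x i)) := by
      intro i hi
      rw [Matrix.add_apply, Matrix.one_apply_ne (Ne.symm (Finset.mem_erase.mp hi).1),
        Matrix.smul_apply, Matrix.neg_apply, smul_eq_mul]
      ring
    rw [Finset.sum_congr rfl h1, Finset.sum_neg_distrib, ← Finset.mul_sum, Matrix.add_apply,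
      Matrix.one_apply_eq, Matrix.smul_apply, Matrix.neg_apply, smul_eq_mul]
    ring
  have habs : ∀ k, |∑ i ∈ Finset.univ.erase k, Q k i * x i| ≤
      ∑ i ∈ Finset.univ.erase k, Q k i * |x i| := by
    intro k
    refine (Finset.abs_sum_le_sum_abs _ _).trans (le_of_eq ?_)
    refine Finset.sum_congr rfl fun i hi => ?_
    rw [abs_mul, abs_of_nonneg (hoff k i (Ne.symm (Finset.mem_erase.mp hi).1))]
  have hlow : ∀ k, (1 + h * (-Q k k)) * |x k| - h * ∑ i ∈ Finset.univ.erase k, Q k i * |x i| ≤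
      |((1 + h • (-Q)) *ᵥ x) k| := by
    intro k
    rw [happ]
    have h1 := abs_sub_abs_le_abs_sub ((1 + h * (-Q k k)) * x k)
      (h * ∑ i ∈ Finset.univ.erase k, Q k i * x i)
    rw [abs_mul, abs_mul, abs_of_nonneg hh,
      abs_of_nonneg (by have := mul_nonneg hh (hrate k); linarith : 0 ≤ 1 + h * (-Q k k))] at h1
    have h2 := mul_le_mul_of_nonneg_left (habs k) hh
    linarith
  have hup : ∀ k, |((1 + h • (-Q)) *ᵥ x) k| ≤
      (1 + h * (-Q k k)) * |x k| + h * ∑ i ∈ Finset.univ.erase k, Q k i * |x i| := by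
    intro k
    rw [happ]
    have h1 := abs_sub ((1 + h * (-Q k k)) * x k)
      (h * ∑ i ∈ Finset.univ.erase k, Q k i * x i)
    rw [abs_mul, abs_mul, abs_of_nonneg hh,
      abs_of_nonneg (by have := mul_nonneg hh (hrate k); linarith : 0 ≤ 1 + h * (-Q k k))] at h1
    have h2 := mul_le_mul_of_nonneg_left (habs k) hh
    linarith
  -- exchange of the sums: the weight of `|x i|` in `∑_{k ∈ T} (q_k |x k| ∓ ∑_{i≠k} Q k i |x i|)`
  have hswap : ∀ T : Finset (Fin d), ∑ k ∈ T, ∑ i ∈ Finset.univ.erase k, Q k i * |x i| =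
      ∑ i, (∑ k ∈ T.erase i, Q k i) * |x i| := by
    intro T
    have h1 : ∀ k ∈ T, ∑ i ∈ Finset.univ.erase k, Q k i * |x i| =
        ∑ i, (if i = k then 0 else Q k i * |x i|) := by
      intro k _
      rw [← Finset.add_sum_erase _ _ (Finset.mem_univ k), if_pos rfl, zero_add]
      exact Finset.sum_congr rfl fun i hi => by rw [if_neg (Finset.mem_erase.mp hi).1]
    rw [Finset.sum_congr rfl h1, Finset.sum_comm]
    refine Finset.sum_congr rfl fun i _ => ?_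
    rw [Finset.sum_mul]
    have h2 : ∀ k ∈ T, (if i = k then 0 else Q k i * |x i|) =
        if k ∈ T.erase i then Q k i * |x i| else 0 := by
      intro k hk
      by_cases hik : i = k
      · subst hik; simp
      · rw [if_neg hik, if_pos (Finset.mem_erase.mpr ⟨fun h => hik h.symm, hk⟩)]
    rw [Finset.sum_congr rfl h2, ← Finset.sum_filter]
    refine Finset.sum_congr ?_ fun _ _ => rfl
    ext k
    simp [Finset.mem_filter, Finset.mem_erase]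
  -- column splits
  have hcolS : ∀ i ∈ S, -Q i i - ∑ k ∈ S.erase i, Q k i = ∑ k ∈ Sᶜ, Q k i := by
    intro i hi
    have h1 := hcol i
    rw [← Finset.sum_add_sum_compl S, ← Finset.add_sum_erase S _ hi] at h1
    linarith
  have hcolSc : ∀ i ∈ Sᶜ, ∑ k ∈ Sᶜ.erase i, Q k i + ∑ k ∈ S, Q k i = -Q i i := by
    intro i hi
    have h1 := hcol i
    rw [← Finset.sum_add_sum_compl S, ← Finset.add_sum_erase Sᶜ _ hi] at h1
    linarith
  -- lower bound on `S`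
  have hA : (1 + h * R) * a - h * ρ * b ≤ ∑ k ∈ S, |((1 + h • (-Q)) *ᵥ x) k| := by
    have h1 : ∑ k ∈ S, ((1 + h * (-Q k k)) * |x k| -
        h * ∑ i ∈ Finset.univ.erase k, Q k i * |x i|) ≤ ∑ k ∈ S, |((1 + h • (-Q)) *ᵥ x) k| :=
      Finset.sum_le_sum fun k _ => hlow k
    refine le_trans ?_ h1
    rw [Finset.sum_sub_distrib, ← Finset.mul_sum, hswap S, ← Finset.sum_add_sum_compl S]
    have h2 : ∑ i ∈ S, (∑ k ∈ S.erase i, Q k i) * |x i| =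
        ∑ i ∈ S, ((-Q i i) - ∑ k ∈ Sᶜ, Q k i) * |x i| :=
      Finset.sum_congr rfl fun i hi => by rw [← hcolS i hi]; ring
    have h3 : ∑ i ∈ Sᶜ, (∑ k ∈ S.erase i, Q k i) * |x i| ≤ ρ * b := by
      rw [hb, Finset.mul_sum]
      refine Finset.sum_le_sum fun i hi => mul_le_mul_of_nonneg_right ?_ (abs_nonneg _)
      have hiS : i ∉ S := Finset.mem_compl.mp hi
      rw [Finset.erase_eq_of_notMem hiS]
      have h4 := hcolSc i hi
      have h5 : 0 ≤ ∑ k ∈ Sᶜ.erase i, Q k i :=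
        Finset.sum_nonneg fun k hk => hoff k i (Finset.mem_erase.mp hk).1
      have h6 := hslow i hi
      linarith
    rw [h2]
    have h4 : ∑ i ∈ S, ((-Q i i) - ∑ k ∈ Sᶜ, Q k i) * |x i| =
        ∑ i ∈ S, (-Q i i) * |x i| - ∑ i ∈ S, (∑ k ∈ Sᶜ, Q k i) * |x i| := by
      rw [← Finset.sum_sub_distrib]
      exact Finset.sum_congr rfl fun i _ => by ring
    have h5 : R * a ≤ ∑ i ∈ S, (∑ k ∈ Sᶜ, Q k i) * |x i| := by
      rw [ha, Finset.mul_sum]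
      exact Finset.sum_le_sum fun i hi => mul_le_mul_of_nonneg_right (hfast i hi) (abs_nonneg _)
    have h6 : ∑ k ∈ S, (1 + h * (-Q k k)) * |x k| = a + h * ∑ i ∈ S, (-Q i i) * |x i| := by
      rw [ha, Finset.mul_sum, ← Finset.sum_add_distrib]
      exact Finset.sum_congr rfl fun i _ => by ring
    rw [h4, h6]
    have h7 := mul_le_mul_of_nonneg_left h5 hh
    have h8 := mul_le_mul_of_nonneg_left h3 hh
    linarith
  -- upper bound on the complement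
  have hB : ∑ k ∈ Sᶜ, |((1 + h • (-Q)) *ᵥ x) k| ≤ (1 + 2 * h * ρ) * b + h * L * a := by
    have h1 : ∑ k ∈ Sᶜ, |((1 + h • (-Q)) *ᵥ x) k| ≤ ∑ k ∈ Sᶜ, ((1 + h * (-Q k k)) * |x k| +
        h * ∑ i ∈ Finset.univ.erase k, Q k i * |x i|) := Finset.sum_le_sum fun k _ => hup k
    refine h1.trans ?_
    rw [Finset.sum_add_distrib, ← Finset.mul_sum, hswap Sᶜ, ← Finset.sum_add_sum_compl S]
    have h2 : ∑ i ∈ S, (∑ k ∈ Sᶜ.erase i, Q k i) * |x i| ≤ L * a := by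
      rw [ha, Finset.mul_sum]
      refine Finset.sum_le_sum fun i hi => mul_le_mul_of_nonneg_right ?_ (abs_nonneg _)
      have hiS : i ∉ Sᶜ := by rw [Finset.mem_compl, not_not]; exact hi
      rw [Finset.erase_eq_of_notMem hiS]
      exact hL i hi
    have h3 : ∑ i ∈ Sᶜ, (∑ k ∈ Sᶜ.erase i, Q k i) * |x i| ≤ ρ * b := by
      rw [hb, Finset.mul_sum]
      refine Finset.sum_le_sum fun i hi => mul_le_mul_of_nonneg_right ?_ (abs_nonneg _)
      have h4 := hcolSc i hi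
      have h5 : 0 ≤ ∑ k ∈ S, Q k i := Finset.sum_nonneg fun k hk =>
        hoff k i (fun hki => (Finset.mem_compl.mp hi) (hki ▸ hk))
      have h6 := hslow i hi
      linarith
    have h4 : ∑ k ∈ Sᶜ, (1 + h * (-Q k k)) * |x k| ≤ (1 + h * ρ) * b := by
      rw [hb, Finset.mul_sum]
      refine Finset.sum_le_sum fun i hi => mul_le_mul_of_nonneg_right ?_ (abs_nonneg _)
      have := mul_le_mul_of_nonneg_left (hslow i hi) hh
      linarith
    have h5 := mul_le_mul_of_nonneg_left h2 hh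
    have h6 := mul_le_mul_of_nonneg_left h3 hh
    linarith
  rw [← ha, ← hb] at hx
  rw [← ha]
  have hρb : ρ * b ≤ ρ * (r * a) := mul_le_mul_of_nonneg_left hx hρ
  constructor
  · refine hB.trans ?_
    refine le_trans ?_ (mul_le_mul_of_nonneg_left hA hr)
    have h1 := mul_le_mul_of_nonneg_left hρb hh
    have h2 := mul_le_mul_of_nonneg_left hcond (mul_nonneg hh ha0)
    have h3 := mul_le_mul_of_nonneg_left h1 hr
    nlinarith
  · refine le_trans ?_ hA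
    have h1 := mul_le_mul_of_nonneg_left hρb hh
    nlinarith

/-- growth of the part on `S` under `exp (-Q)` -/
lemma exp_part {Q : Matrix (Fin d) (Fin d) ℝ} (hoff : ∀ i j : Fin d, i ≠ j → 0 ≤ Q i j)
    (hcol : ∀ j : Fin d, ∑ i : Fin d, Q i j = 0) (S : Finset (Fin d)) {R ρ L r : ℝ}
    (hρ : 0 ≤ ρ) (hr : 0 ≤ r) (hfast : ∀ i ∈ S, R ≤ ∑ k ∈ Sᶜ, Q k i)
    (hL : ∀ i ∈ S, ∑ k ∈ Sᶜ, Q k i ≤ L) (hslow : ∀ i ∈ Sᶜ, -Q i i ≤ ρ)
    (hcond : L + 2 * ρ * r + ρ * r ^ 2 ≤ r * R) (hRρ : 0 ≤ R - ρ * r) (x : Fin d → ℝ)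
    (hx : ∑ k ∈ Sᶜ, |x k| ≤ r * ∑ k ∈ S, |x k|) (hd : 0 < d) :
    Real.exp (R - ρ * r) * ∑ k ∈ S, |x k| ≤ ∑ k ∈ S, |(exp (-Q) *ᵥ x) k| := by
  have : Nonempty (Fin d) := ⟨⟨0, hd⟩⟩
  have hpow : ∀ (n m : ℕ), ∑ k ∈ Sᶜ, |(((1 + ((n : ℝ)⁻¹) • (-Q)) ^ m) *ᵥ x) k| ≤
        r * ∑ k ∈ S, |(((1 + ((n : ℝ)⁻¹) • (-Q)) ^ m) *ᵥ x) k| ∧
      (1 + (R - ρ * r) / n) ^ m * ∑ k ∈ S, |x k| ≤
        ∑ k ∈ S, |(((1 + ((n : ℝ)⁻¹) • (-Q)) ^ m) *ᵥ x) k| := by
    intro n m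
    induction m with
    | zero => simpa using hx
    | succ m ih =>
      have h1 := step hoff hcol S (h := (n : ℝ)⁻¹) (by positivity) hρ hr hfast hL hslow hcond
        (((1 + ((n : ℝ)⁻¹) • (-Q)) ^ m) *ᵥ x) ih.1
      rw [Matrix.mulVec_mulVec, ← pow_succ'] at h1
      refine ⟨h1.1, ?_⟩
      refine le_trans ?_ h1.2
      have h2 : (n : ℝ)⁻¹ * (R - ρ * r) = (R - ρ * r) / n := by rw [div_eq_inv_mul]
      rw [h2, pow_succ', mul_assoc]
      refine mul_le_mul_of_nonneg_left ih.2 ?_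
      have : 0 ≤ (R - ρ * r) / n := div_nonneg hRρ (Nat.cast_nonneg n)
      linarith
  have h1 : Tendsto (fun n : ℕ => (1 + (R - ρ * r) / n) ^ n * ∑ k ∈ S, |x k|) atTop
      (𝓝 (Real.exp (R - ρ * r) * ∑ k ∈ S, |x k|)) :=
    (Real.tendsto_one_add_div_pow_exp (R - ρ * r)).mul_const _
  have h2 : Tendsto (fun n : ℕ => ∑ k ∈ S, |(((1 + ((n : ℝ)⁻¹) • (-Q)) ^ n) *ᵥ x) k|) atTop
      (𝓝 (∑ k ∈ S, |(exp (-Q) *ᵥ x) k|)) := by
    have h3 := tendsto_pow_exp (-Q)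
    have h4 : Continuous (fun B : Matrix (Fin d) (Fin d) ℝ => ∑ k ∈ S, |(B *ᵥ x) k|) := by
      apply continuous_finsetSum
      intro k _
      apply Continuous.abs
      exact (continuous_apply k).comp (Continuous.matrix_mulVec continuous_id continuous_const)
    exact (h4.tendsto _).comp h3
  exact le_of_tendsto_of_tendsto' h1 h2 fun n => (hpow n n).2

/-- **Two-speed chains.** -/
theorem two_speed {M : ℝ} (hM : 1 ≤ M) (Q : Matrix (Fin d) (Fin d) ℝ)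
    (hinv : ∀ j : Fin d, ∑ i : Fin d, |exp (-Q) i j| ≤ M)
    (hoff : ∀ i j : Fin d, i ≠ j → 0 ≤ Q i j) (hcol : ∀ j : Fin d, ∑ i : Fin d, Q i j = 0)
    {θ L : ℝ} (hθ : 0 < θ) (hθ1 : θ ≤ 1) (hL : ∀ i, -Q i i ≤ L) (S : Finset (Fin d))
    (hS : S.Nonempty) (hfast : ∀ i ∈ S, θ * L ≤ ∑ k ∈ Sᶜ, Q k i)
    (hslow : ∀ i ∈ Sᶜ, -Q i i ≤ θ ^ 2 * L / 8) : 2 * L ≤ 8 / (3 * θ) * Real.log M := by
  obtain ⟨j, hj⟩ := hS
  have hd : 0 < d := lt_of_le_of_lt (Nat.zero_le _) j.isLt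
  have hrate : ∀ i, 0 ≤ -Q i i := by
    intro i
    have h1 := hcol i
    rw [← Finset.add_sum_erase _ _ (Finset.mem_univ i)] at h1
    have h2 : 0 ≤ ∑ x ∈ Finset.univ.erase i, Q x i :=
      Finset.sum_nonneg fun x hx => hoff x i (Finset.mem_erase.mp hx).1
    linarith
  have hL0 : 0 ≤ L := (hrate j).trans (hL j)
  have hLS : ∀ i ∈ S, ∑ k ∈ Sᶜ, Q k i ≤ L := by
    intro i hi
    have h1 := hcol i
    rw [← Finset.sum_add_sum_compl S, ← Finset.add_sum_erase S _ hi] at h1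
    have h2 : 0 ≤ ∑ k ∈ S.erase i, Q k i :=
      Finset.sum_nonneg fun k hk => hoff k i (Finset.mem_erase.mp hk).1
    have h3 := hL i
    linarith
  have hcond : L + 2 * (θ ^ 2 * L / 8) * (2 / θ) + (θ ^ 2 * L / 8) * (2 / θ) ^ 2 ≤
      2 / θ * (θ * L) := by
    have h1 : L + 2 * (θ ^ 2 * L / 8) * (2 / θ) + (θ ^ 2 * L / 8) * (2 / θ) ^ 2 =
        L * (3 / 2 + θ / 2) := by
      field_simp
      ring
    have h2 : 2 / θ * (θ * L) = L * 2 := by field_simp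
    rw [h1, h2]
    exact mul_le_mul_of_nonneg_left (by linarith) hL0
  have hRρ : θ * L - (θ ^ 2 * L / 8) * (2 / θ) = 3 / 4 * θ * L := by
    field_simp
    ring
  have hx : ∑ k ∈ Sᶜ, |(Pi.single j (1 : ℝ) : Fin d → ℝ) k| ≤
      2 / θ * ∑ k ∈ S, |(Pi.single j (1 : ℝ) : Fin d → ℝ) k| := by
    have h1 : ∑ k ∈ Sᶜ, |(Pi.single j (1 : ℝ) : Fin d → ℝ) k| = 0 := by
      apply Finset.sum_eq_zero
      intro k hk
      have : k ≠ j := fun h => (Finset.mem_compl.mp hk) (h ▸ hj)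
      rw [Pi.single_eq_of_ne this, abs_zero]
    rw [h1]
    exact mul_nonneg (by positivity) (Finset.sum_nonneg fun _ _ => abs_nonneg _)
  have h1 := exp_part hoff hcol S (ρ := θ ^ 2 * L / 8) (r := 2 / θ) (by positivity) (by positivity)
    hfast hLS hslow hcond (by rw [hRρ]; positivity) (Pi.single j 1) hx hd
  rw [hRρ] at h1
  have h2 : ∑ k ∈ S, |(Pi.single j (1 : ℝ) : Fin d → ℝ) k| = 1 := by
    rw [Finset.sum_eq_single j]
    · simp
    · intro k _ hk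
      rw [Pi.single_eq_of_ne hk, abs_zero]
    · intro h; exact absurd hj h
  have h3 : ∑ k ∈ S, |(exp (-Q) *ᵥ Pi.single j (1 : ℝ)) k| ≤ M := by
    have h4 : ∀ k, (exp (-Q) *ᵥ Pi.single j (1 : ℝ)) k = exp (-Q) k j := by
      intro k
      rw [Matrix.mulVec_single_one]
      rfl
    simp only [h4]
    refine le_trans ?_ (hinv j)
    exact Finset.sum_le_sum_of_subset_of_nonneg (Finset.subset_univ S)
      fun _ _ _ => abs_nonneg _
  rw [h2, mul_one] at h1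
  have h4 : 3 / 4 * θ * L ≤ Real.log M := (Real.le_log_iff_exp_le (by linarith)).mpr (h1.trans h3)
  rw [div_mul_eq_mul_div, le_div_iff₀ (by positivity)]
  nlinarith

end MarkovDim
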