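import Mathlib

set_option autoImplicit false

/-! Analysis of the function `D(c) = (c - θ) (1 + a / c) ^ N` in a left half plane. -/

namespace MarkovNest

lemma arg_le_of_im_nonneg {z : ℂ} (hre : 0 < z.re) (him : 0 ≤ z.im) : z.arg ≤ z.im / z.re := by
  rw [← Complex.tan_arg]
  apply Real.le_tan (Complex.arg_nonneg_iff.2 him)
  exact (Complex.abs_arg_lt_pi_div_two_iff.2 (Or.inl hre) |> abs_lt.1).2

lemma abs_arg_le {z : ℂ} (hre : 0 < z.re) : |z.arg| ≤ |z.im| / z.re := by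
  rcases le_total 0 z.im with h | h
  · rw [abs_of_nonneg (Complex.arg_nonneg_iff.2 h), abs_of_nonneg h]
    exact arg_le_of_im_nonneg hre h
  · have h1 : |z.arg| < Real.pi / 2 := Complex.abs_arg_lt_pi_div_two_iff.2 (Or.inl hre)
    have h2 : z.arg ≤ 0 := by
      rcases h.eq_or_lt with h3 | h3
      · have : z.arg = 0 := Complex.arg_eq_zero_iff.2 ⟨hre.le, h3⟩
        exact this.le
      · exact (Complex.arg_neg_iff.2 h3).le
    rw [abs_of_nonpos h2, abs_of_nonpos h, neg_div, ← Complex.tan_arg, ← Real.tan_neg]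
    apply Real.le_tan (by linarith)
    have := (abs_lt.1 h1).1
    linarith

/-- the real part of `u w ^ N` is positive if the arguments are small -/
lemma re_pos_of_args {u w : ℂ} (hu : u ≠ 0) (hw : w ≠ 0) (N : ℕ)
    (h : |u.arg + N * w.arg| < Real.pi / 2) : 0 < (u * w ^ N).re := by
  have h1 : u * w ^ N = Complex.exp (Complex.log u + N * Complex.log w) := by
    rw [Complex.exp_add, Complex.exp_log hu, Complex.exp_nat_mul, Complex.exp_log hw]
  rw [h1, Complex.exp_re]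
  apply mul_pos (Real.exp_pos _)
  apply Real.cos_pos_of_mem_Ioo
  have h2 : (Complex.log u + N * Complex.log w).im = u.arg + N * w.arg := by
    simp [Complex.log_im]
  rw [h2]
  exact abs_lt.1 h

/-- Lower bound for `D`. -/
lemma D_lower {θ a ε : ℝ} (hθ : 0 ≤ θ) (ha : 0 ≤ a) (hε : 0 < ε) (haε : a < ε) (N : ℕ) {c : ℂ}
    (hc : c.re < -ε) : ε * (1 - a / ε) ^ N ≤ ‖(c - θ) * (1 + a / c) ^ N‖ := by
  have hcn : ε ≤ ‖c‖ := by
    have h1 := Complex.abs_re_le_norm c
    have h2 := neg_le_abs c.re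
    linarith
  have hc0 : 0 < ‖c‖ := lt_of_lt_of_le hε hcn
  have h1 : ε ≤ ‖c - θ‖ := by
    have h2 := Complex.abs_re_le_norm (c - θ)
    have h3 := neg_le_abs (c - θ).re
    rw [Complex.sub_re, Complex.ofReal_re] at h2 h3
    linarith
  have h4 : 1 - a / ε ≤ ‖(1 : ℂ) + a / c‖ := by
    have h5 : ‖(a : ℂ) / c‖ ≤ a / ε := by
      rw [norm_div, Complex.norm_real, Real.norm_of_nonneg ha]
      exact div_le_div_of_nonneg_left ha hε hcn
    have h6 : ‖(1 : ℂ)‖ ≤ ‖(1 : ℂ) + a / c‖ + ‖(a : ℂ) / c‖ := by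
      have := norm_sub_le ((1 : ℂ) + a / c) ((a : ℂ) / c)
      rwa [add_sub_cancel_right] at this
    rw [norm_one] at h6
    linarith
  have h7 : 0 ≤ 1 - a / ε := by
    rw [sub_nonneg, div_le_one hε]
    exact haε.le
  rw [norm_mul, norm_pow]
  exact mul_le_mul h1 (pow_le_pow_left₀ h7 h4 N) (by positivity) (norm_nonneg _)

/-- `D` does not take the value `x` in the half plane `Re c < -ε`. -/
lemma D_ne {a ε x : ℝ} {N : ℕ} (hN : 0 < N) (ha : a = 13 / 10 / N) (hε : 0 < ε)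
    (haε : a ≤ ε / 20) (hx : 6 / 5 ≤ x) {c : ℂ} (hc : c.re < -ε) :
    (c - (13 / 20 : ℝ)) * (1 + a / c) ^ N ≠ x := by
  intro hD
  have hN0 : (0 : ℝ) < N := by exact_mod_cast hN
  have ha0 : 0 < a := by rw [ha]; positivity
  have hNa : N * a = 13 / 10 := by rw [ha]; field_simp
  have hcn : ε < ‖c‖ := by
    have h1 := Complex.abs_re_le_norm c
    have h2 := neg_le_abs c.re
    linarith
  have hc0 : 0 < ‖c‖ := hε.trans hcn
  have hcne : c ≠ 0 := norm_pos_iff.1 hc0
  set v : ℂ := c⁻¹ with hv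
  have hns : c.re ^ 2 + c.im ^ 2 = ‖c‖ ^ 2 := by
    rw [← Complex.normSq_eq_norm_sq, Complex.normSq_apply]; ring
  have hvre : v.re = c.re / ‖c‖ ^ 2 := by
    rw [hv, Complex.inv_re, Complex.normSq_eq_norm_sq]
  have hvim : v.im = -c.im / ‖c‖ ^ 2 := by
    rw [hv, Complex.inv_im, Complex.normSq_eq_norm_sq]
  set ξ : ℝ := -v.re with hξ
  set τ : ℝ := v.im with hτ
  have hξ0 : 0 < ξ := by
    rw [hξ, hvre, ← neg_div]
    apply div_pos _ (by positivity)
    linarith
  have hvn : ξ ^ 2 + τ ^ 2 = (‖c‖ ^ 2)⁻¹ := by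
    have h1 : v.re ^ 2 + v.im ^ 2 = ‖v‖ ^ 2 := by
      rw [← Complex.normSq_eq_norm_sq, Complex.normSq_apply]; ring
    rw [hv, norm_inv, inv_pow] at h1
    rw [← h1, hξ, hτ, hv]
    ring
  have hξε : ξ * ε ≤ 1 := by
    rw [hξ, hvre, ← neg_div, div_mul_eq_mul_div, div_le_one (by positivity)]
    have h1 : -c.re ≤ ‖c‖ := (neg_le_abs _).trans (Complex.abs_re_le_norm c)
    nlinarith
  have hξc : ε * (‖c‖ ^ 2)⁻¹ ≤ ξ := by
    rw [hξ, hvre, ← neg_div, ← div_eq_mul_inv]
    exact div_le_div_of_nonneg_right (by linarith) (by positivity)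
  have haξ : a * ξ ≤ 1 / 20 := by nlinarith
  set u : ℂ := 1 - (13 / 20 : ℝ) * v with hu
  set w : ℂ := 1 + a * v with hw
  have hure : u.re = 1 + 13 / 20 * ξ := by
    rw [hu, Complex.sub_re, Complex.re_ofReal_mul, Complex.one_re, hξ]; ring
  have huim : u.im = -(13 / 20 * τ) := by
    rw [hu, Complex.sub_im, Complex.im_ofReal_mul, Complex.one_im, hτ]; ring
  have hwre : w.re = 1 - a * ξ := by
    rw [hw, Complex.add_re, Complex.re_ofReal_mul, Complex.one_re, hξ]; ring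
  have hwim : w.im = a * τ := by
    rw [hw, Complex.add_im, Complex.im_ofReal_mul, Complex.one_im, hτ]; ring
  have hDu : (c - (13 / 20 : ℝ)) = c * u := by
    rw [hu, hv]; field_simp
  have hDw : (1 + (a : ℂ) / c) = w := by
    rw [hw, hv, div_eq_mul_inv]
  rw [hDu, hDw] at hD
  rcases le_or_gt |τ| 1 with hcase | hcase
  · -- small imaginary part: compare real parts
    have h1 : u * w ^ N = x * v := by
      have h2 : c * (u * w ^ N) = x := by rw [← hD]; ring
      rw [← h2, hv]; field_simp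
    have hupos : 0 < u.re := by rw [hure]; positivity
    have hwpos : 19 / 20 ≤ w.re := by rw [hwre]; linarith
    have hwpos' : 0 < w.re := by linarith
    have hargu : |u.arg| ≤ 13 / 20 * |τ| := by
      refine (abs_arg_le hupos).trans ?_
      rw [huim, abs_neg, abs_mul, abs_of_pos (by norm_num : (0 : ℝ) < 13 / 20),
        div_le_iff₀ hupos, hure]
      have : 0 ≤ 13 / 20 * |τ| := by positivity
      nlinarith
    have hargw : N * |w.arg| ≤ 26 / 19 * |τ| := by
      have h2 := abs_arg_le hwpos'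
      rw [hwim, abs_mul, abs_of_pos ha0] at h2
      have h3 : a * |τ| / w.re ≤ a * |τ| * (20 / 19) := by
        rw [div_le_iff₀ hwpos']
        have : 0 ≤ a * |τ| := by positivity
        nlinarith
      calc (N : ℝ) * |w.arg| ≤ N * (a * |τ| * (20 / 19)) :=
            mul_le_mul_of_nonneg_left (h2.trans h3) hN0.le
        _ = (N * a) * |τ| * (20 / 19) := by ring
        _ = 26 / 19 * |τ| := by rw [hNa]; ring
    have hpi : (26 / 19 : ℝ) < Real.pi / 2 := by
      have := Real.pi_gt_d2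
      norm_num at this ⊢
      linarith
    have hsum : |u.arg + N * w.arg| < Real.pi / 2 := by
      have hτ0 : 0 ≤ |τ| := abs_nonneg _
      have hu1 := abs_le.1 hargu
      have hw0 : 0 ≤ N * |w.arg| := by positivity
      rcases le_total 0 τ with h0 | h0
      · have hw1 : 0 ≤ w.arg := Complex.arg_nonneg_iff.2 (by rw [hwim]; positivity)
        have hu2 : u.arg ≤ 0 := by
          rcases h0.eq_or_lt with h3 | h3
          · have : u.arg = 0 := Complex.arg_eq_zero_iff.2 ⟨hupos.le, by rw [huim, ← h3]; ring⟩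
            exact this.le
          · exact (Complex.arg_neg_iff.2 (by rw [huim]; linarith)).le
        rw [abs_of_nonneg hw1] at hargw
        have hw2 : 0 ≤ N * w.arg := by positivity
        rw [abs_lt]
        constructor <;> nlinarith
      · have hu2 : 0 ≤ u.arg := Complex.arg_nonneg_iff.2 (by rw [huim]; linarith)
        have hw1 : w.arg ≤ 0 := by
          rcases h0.eq_or_lt with h3 | h3
          · have : w.arg = 0 := Complex.arg_eq_zero_iff.2 ⟨hwpos'.le, by rw [hwim, h3]; ring⟩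
            exact this.le
          · exact (Complex.arg_neg_iff.2 (by rw [hwim]; nlinarith)).le
        rw [abs_of_nonpos hw1] at hargw
        have hw2 : N * w.arg ≤ 0 := mul_nonpos_of_nonneg_of_nonpos hN0.le hw1
        rw [abs_lt]
        constructor <;> nlinarith
    have hu0 : u ≠ 0 := by
      intro h; rw [h] at hupos; simp at hupos
    have hw0 : w ≠ 0 := by
      intro h; rw [h] at hwpos'; simp at hwpos'
    have h4 := re_pos_of_args hu0 hw0 N hsum
    rw [h1, Complex.re_ofReal_mul] at h4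
    have h5 : v.re = -ξ := by rw [hξ]; ring
    rw [h5] at h4
    nlinarith
  · -- large imaginary part: compare absolute values
    have hτ2 : 1 < τ ^ 2 := by
      rw [← sq_abs]
      nlinarith [abs_nonneg τ]
    have h1 : ‖c‖ ^ 2 * (‖u‖ ^ 2 * (‖w‖ ^ 2) ^ N) = x ^ 2 := by
      have h2 : ‖c * u * w ^ N‖ = ‖(x : ℂ)‖ := by rw [hD]
      rw [norm_mul, norm_mul, norm_pow, Complex.norm_real] at h2
      have h3 : (‖c‖ * ‖u‖ * ‖w‖ ^ N) ^ 2 = ‖x‖ ^ 2 := by rw [h2]
      rw [Real.norm_eq_abs, sq_abs] at h3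
      rw [← h3]
      ring
    have hun : ‖u‖ ^ 2 = (1 + 13 / 20 * ξ) ^ 2 + (13 / 20 * τ) ^ 2 := by
      rw [← Complex.normSq_eq_norm_sq, Complex.normSq_apply, hure, huim]; ring
    have hwn : ‖w‖ ^ 2 = (1 - a * ξ) ^ 2 + (a * τ) ^ 2 := by
      rw [← Complex.normSq_eq_norm_sq, Complex.normSq_apply, hwre, hwim]; ring
    have hw2 : ‖w‖ ^ 2 ≤ 1 - a * ξ := by
      rw [hwn]
      have h2 : (1 - a * ξ) ^ 2 + (a * τ) ^ 2 = 1 - 2 * (a * ξ) + a ^ 2 * (‖c‖ ^ 2)⁻¹ := by
        rw [← hvn]; ring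
      rw [h2]
      have h3 : a ^ 2 * (‖c‖ ^ 2)⁻¹ ≤ a * ξ := by
        have h4 : a * (‖c‖ ^ 2)⁻¹ ≤ ε * (‖c‖ ^ 2)⁻¹ :=
          mul_le_mul_of_nonneg_right (by linarith) (by positivity)
        calc a ^ 2 * (‖c‖ ^ 2)⁻¹ = a * (a * (‖c‖ ^ 2)⁻¹) := by ring
          _ ≤ a * ξ := mul_le_mul_of_nonneg_left (h4.trans hξc) ha0.le
      linarith
    have hwN : (‖w‖ ^ 2) ^ N ≤ Real.exp (-(13 / 10 * ξ)) := by
      have h2 : ‖w‖ ^ 2 ≤ Real.exp (-(a * ξ)) := by
        have := Real.add_one_le_exp (-(a * ξ))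
        linarith
      calc (‖w‖ ^ 2) ^ N ≤ Real.exp (-(a * ξ)) ^ N := pow_le_pow_left₀ (by positivity) h2 N
        _ = Real.exp (-(13 / 10 * ξ)) := by
            rw [← Real.exp_nat_mul]
            congr 1
            rw [← hNa]
            ring
    have hu2 : ‖u‖ ^ 2 ≤ Real.exp (13 / 10 * ξ) * (1 + (13 / 20 * τ) ^ 2) := by
      rw [hun]
      have h2 : 1 + 13 / 20 * ξ ≤ Real.exp (13 / 20 * ξ) := by
        have := Real.add_one_le_exp (13 / 20 * ξ)
        linarith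
      have h3 : (1 + 13 / 20 * ξ) ^ 2 ≤ Real.exp (13 / 10 * ξ) := by
        calc (1 + 13 / 20 * ξ) ^ 2 ≤ Real.exp (13 / 20 * ξ) ^ 2 :=
              pow_le_pow_left₀ (by positivity) h2 2
          _ = Real.exp (13 / 10 * ξ) := by
              rw [← Real.exp_nat_mul]; congr 1; push_cast; ring
      have h4 : 1 ≤ Real.exp (13 / 10 * ξ) := Real.one_le_exp (by positivity)
      nlinarith [sq_nonneg (13 / 20 * τ)]
    have h5 : ‖u‖ ^ 2 * (‖w‖ ^ 2) ^ N ≤ 1 + (13 / 20 * τ) ^ 2 := by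
      calc ‖u‖ ^ 2 * (‖w‖ ^ 2) ^ N ≤
            (Real.exp (13 / 10 * ξ) * (1 + (13 / 20 * τ) ^ 2)) * Real.exp (-(13 / 10 * ξ)) :=
              mul_le_mul hu2 hwN (by positivity) (by positivity)
        _ = (1 + (13 / 20 * τ) ^ 2) * (Real.exp (13 / 10 * ξ) * Real.exp (-(13 / 10 * ξ))) := by
            ring
        _ = 1 + (13 / 20 * τ) ^ 2 := by rw [← Real.exp_add]; simp
    have h6 : ‖c‖ ^ 2 * τ ^ 2 ≤ 1 := by
      have h7 : τ ^ 2 ≤ (‖c‖ ^ 2)⁻¹ := by rw [← hvn]; nlinarith [sq_nonneg ξ]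
      calc ‖c‖ ^ 2 * τ ^ 2 ≤ ‖c‖ ^ 2 * (‖c‖ ^ 2)⁻¹ :=
            mul_le_mul_of_nonneg_left h7 (by positivity)
        _ = 1 := mul_inv_cancel₀ (by positivity)
    have h8 : ‖c‖ ^ 2 < 1 := by
      have : 0 < ‖c‖ ^ 2 := by positivity
      nlinarith
    have h9 : x ^ 2 ≤ ‖c‖ ^ 2 * (1 + (13 / 20 * τ) ^ 2) := by
      rw [← h1]
      exact mul_le_mul_of_nonneg_left h5 (by positivity)
    nlinarith

end MarkovNest
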