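import Mathlib
import Pool.Agent.MP_c4a887_an.NestAnalysis

set_option autoImplicit false

/-! The nested cascade chain and its eigenvalues. -/

open Finset

namespace MarkovNest

/-- the coefficients of a cascade -/
noncomputable def cc (θ a : ℝ) (N i : ℕ) : ℝ :=
  θ * (N.choose i : ℝ) * a ^ i - (N.choose (i + 1) : ℝ) * a ^ (i + 1)

lemma cc_nonneg {θ a : ℝ} {N : ℕ} (ha : 0 ≤ a) (hθ : θ = N * a / 2) {i : ℕ} (hi : 1 ≤ i) :
    0 ≤ cc θ a N i := by
  have h1 : (N.choose (i + 1) : ℝ) * (i + 1) = (N.choose i : ℝ) * ((N - i : ℕ) : ℝ) := by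
    exact_mod_cast Nat.choose_succ_right_eq N i
  have h2 : ((N - i : ℕ) : ℝ) ≤ N := by exact_mod_cast Nat.sub_le N i
  have h3 : (1 : ℝ) ≤ i := by exact_mod_cast hi
  have h4 : (0 : ℝ) ≤ (N.choose i : ℝ) := Nat.cast_nonneg _
  have h5 : (0 : ℝ) ≤ (N.choose (i + 1) : ℝ) := Nat.cast_nonneg _
  have h6 : 2 * (N.choose (i + 1) : ℝ) ≤ N * (N.choose i : ℝ) := by
    have h7 : 2 * (N.choose (i + 1) : ℝ) ≤ (N.choose (i + 1) : ℝ) * (i + 1) := by nlinarith
    have h8 : (N.choose i : ℝ) * ((N - i : ℕ) : ℝ) ≤ (N.choose i : ℝ) * N :=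
      mul_le_mul_of_nonneg_left h2 h4
    linarith
  have h9 : (0 : ℝ) ≤ a ^ i * a := mul_nonneg (pow_nonneg ha i) ha
  have h10 : cc θ a N i = (N * (N.choose i : ℝ) - 2 * (N.choose (i + 1) : ℝ)) / 2 * (a ^ i * a) := by
    rw [cc, hθ, pow_succ]; ring
  rw [h10]
  exact mul_nonneg (by linarith) h9

lemma choose_sum_one (N : ℕ) (y : ℂ) :
    ∑ i ∈ range N, (N.choose (i + 1) : ℂ) * y ^ (i + 1) = (1 + y) ^ N - 1 := by
  have h := add_pow y 1 N
  rw [Finset.sum_range_succ'] at h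
  simp only [one_pow, mul_one, pow_zero, Nat.choose_zero_right, Nat.cast_one] at h
  rw [add_comm 1 y, h, add_sub_cancel_right]
  exact Finset.sum_congr rfl fun i _ => mul_comm _ _

lemma choose_sum_two (N : ℕ) (y : ℂ) :
    ∑ i ∈ range N, (N.choose (i + 2) : ℂ) * y ^ (i + 2) = (1 + y) ^ N - 1 - N * y := by
  have h1 := Finset.sum_range_succ (fun i => (N.choose (i + 1) : ℂ) * y ^ (i + 1)) N
  have h2 := Finset.sum_range_succ' (fun i => (N.choose (i + 1) : ℂ) * y ^ (i + 1)) N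
  rw [choose_sum_one, Nat.choose_succ_self] at h1
  rw [h1] at h2
  simp only [zero_add, Nat.choose_one_right, pow_one, Nat.cast_zero, zero_mul, add_zero] at h2
  rw [h2]
  simp only [add_assoc]
  norm_num

lemma cc_sum (N : ℕ) (θ a : ℝ) {v c : ℂ} (h : c * v = 1) :
    ∑ i ∈ range N, (cc θ a N (i + 1) : ℂ) * v ^ (i + 1) =
      (θ - c) * ((1 + a * v) ^ N - 1) + N * a := by
  have h1 : ∀ i ∈ range N, (cc θ a N (i + 1) : ℂ) * v ^ (i + 1) =
      θ * ((N.choose (i + 1) : ℂ) * (a * v) ^ (i + 1)) -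
        c * ((N.choose (i + 2) : ℂ) * (a * v) ^ (i + 2)) := by
    intro i _
    have h2 : c * ((N.choose (i + 2) : ℂ) * (a * v) ^ (i + 2)) =
        (c * v) * ((N.choose (i + 2) : ℂ) * (a : ℂ) ^ (i + 2)) * v ^ (i + 1) := by
      rw [mul_pow, pow_succ v (i + 1)]; ring
    rw [h2, h, cc]
    push_cast
    rw [mul_pow]
    ring
  rw [Finset.sum_congr rfl h1, Finset.sum_sub_distrib, ← Finset.mul_sum, ← Finset.mul_sum,
    choose_sum_one, choose_sum_two]
  linear_combination ((N : ℂ) * a) * h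

/-- transition rate from `s` to `s'` -/
noncomputable def rate (N K : ℕ) (p g : ℕ → ℝ) (x : ℝ) (s' s : Fin (K + 1) × Fin (N + 1)) : ℝ :=
  if (s.2 : ℕ) = 0 then
    (if s'.1 = s.1 then (if (s'.2 : ℕ) = 0 then 0 else p s'.2) else 0) +
    (if (s'.2 : ℕ) = 0 then
      (if (s.1 : ℕ) = 0 then (if (s'.1 : ℕ) = 0 then 0 else g s'.1)
        else (if (s'.1 : ℕ) + 1 = s.1 then x else 0))
     else 0)
  else if s'.1 = s.1 ∧ (s'.2 : ℕ) + 1 = s.2 then 1 else 0

variable {N K : ℕ} {p g : ℕ → ℝ} {x : ℝ}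

lemma rate_nonneg (hp : ∀ i, 1 ≤ i → 0 ≤ p i) (hg : ∀ i, 1 ≤ i → 0 ≤ g i) (hx : 0 ≤ x)
    (s' s : Fin (K + 1) × Fin (N + 1)) : 0 ≤ rate N K p g x s' s := by
  unfold rate
  split_ifs <;> (try simp only [zero_add, add_zero]) <;> first
    | exact le_rfl
    | exact zero_le_one
    | exact hx
    | exact hp _ (by omega)
    | exact hg _ (by omega)

lemma sum_slow (f : Fin (K + 1) × Fin (N + 1) → ℂ) (l : Fin (K + 1)) (i : Fin N) :
    ∑ s', f s' * (rate N K p g x s' (l, i.succ) : ℂ) = f (l, i.castSucc) := by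
  rw [Finset.sum_eq_single (l, i.castSucc)]
  · simp [rate]
  · intro b _ hb
    have : ¬ (b.1 = l ∧ (b.2 : ℕ) + 1 = i.succ) := by
      rintro ⟨h1, h2⟩
      apply hb
      ext
      · simp [h1]
      · simp only [Fin.val_succ] at h2
        simp only [Fin.val_castSucc]
        omega
    simp only [rate, Fin.val_succ] at this ⊢
    rw [if_neg (by omega), if_neg this]
    simp
  · simp

lemma sum_base_zero (f : Fin (K + 1) × Fin (N + 1) → ℂ) :
    ∑ s', f s' * (rate N K p g x s' (0, 0) : ℂ) =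
      ∑ i : Fin N, f (0, i.succ) * (p (i + 1) : ℂ) + ∑ l : Fin K, f (l.succ, 0) * (g (l + 1) : ℂ) := by
  rw [Fintype.sum_prod_type, Fin.sum_univ_succ]
  simp only [rate, Fin.sum_univ_succ, Fin.val_zero, Fin.val_succ]
  simp [Fin.succ_ne_zero]

lemma sum_base_succ (f : Fin (K + 1) × Fin (N + 1) → ℂ) (m : Fin K) :
    ∑ s', f s' * (rate N K p g x s' (m.succ, 0) : ℂ) =
      ∑ i : Fin N, f (m.succ, i.succ) * (p (i + 1) : ℂ) + f (m.castSucc, 0) * (x : ℂ) := by
  have h1 : ∀ s' : Fin (K + 1) × Fin (N + 1), (rate N K p g x s' (m.succ, 0) : ℂ) =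
      (if s'.1 = m.succ then (if (s'.2 : ℕ) = 0 then 0 else (p s'.2 : ℂ)) else 0) +
        (if s'.1 = m.castSucc then (if (s'.2 : ℕ) = 0 then (x : ℂ) else 0) else 0) := by
    intro s'
    have h2 : ((s'.1 : ℕ) + 1 = (m.succ : Fin (K + 1))) ↔ s'.1 = m.castSucc := by
      rw [Fin.ext_iff, Fin.val_succ, Fin.val_castSucc]
      omega
    have h3 : ¬ (((m.succ, (0 : Fin (N + 1))) : Fin (K + 1) × Fin (N + 1)).1 : ℕ) = 0 := by simp
    have h4 : (((m.succ, (0 : Fin (N + 1))) : Fin (K + 1) × Fin (N + 1)).2 : ℕ) = 0 := by simp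
    simp only [rate, if_neg h3, if_pos h4, h2]
    by_cases h5 : (s'.2 : ℕ) = 0
    · simp only [if_pos h5]
      split_ifs <;> simp
    · simp only [if_neg h5]
      split_ifs <;> simp
  simp only [h1, mul_add, Finset.sum_add_distrib, Fintype.sum_prod_type]
  congr 1
  · rw [Finset.sum_eq_single m.succ]
    · simp [Fin.sum_univ_succ]
    · intro b _ hb
      simp [hb]
    · simp
  · rw [Finset.sum_eq_single m.castSucc]
    · simp
    · intro b _ hb
      simp [hb]
    · simp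

/-- the generator with given rates -/
noncomputable def gen {S : Type*} [Fintype S] [DecidableEq S] (R : S → S → ℝ) : Matrix S S ℝ :=
  fun s' s => R s' s - if s' = s then ∑ s'', R s'' s else 0

lemma gen_off {S : Type*} [Fintype S] [DecidableEq S] {R : S → S → ℝ} (hR : ∀ s' s, 0 ≤ R s' s)
    {s' s : S} (h : s' ≠ s) : 0 ≤ gen R s' s := by
  rw [gen, if_neg h, sub_zero]; exact hR _ _

lemma gen_col {S : Type*} [Fintype S] [DecidableEq S] (R : S → S → ℝ) (s : S) :
    ∑ s', gen R s' s = 0 := by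
  simp [gen, Finset.sum_sub_distrib]

lemma pow_of_step {N : ℕ} {v c : ℂ} (h : c * v = 1) (F : Fin (N + 1) → ℂ)
    (hF : ∀ i : Fin N, F i.castSucc = c * F i.succ) (i : Fin (N + 1)) :
    F i = v ^ (i : ℕ) * F 0 := by
  induction i using Fin.induction with
  | zero => simp
  | succ i ih =>
    have h2 := hF i
    rw [ih, Fin.val_castSucc] at h2
    rw [Fin.val_succ, pow_succ]
    have h3 : v * (c * F i.succ) = v * (v ^ (i : ℕ) * F 0) := by rw [h2]
    have h4 : v * (c * F i.succ) = F i.succ := by rw [← mul_assoc, mul_comm v c, h, one_mul]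
    rw [h4] at h3
    rw [h3]; ring

/-- the base sum of a cascade seen through an eigenfunction -/
lemma fin_cc_sum (N : ℕ) (θ a : ℝ) {v c : ℂ} (h : c * v = 1) (F : Fin (N + 1) → ℂ)
    (hF : ∀ i : Fin N, F i.castSucc = c * F i.succ) :
    ∑ i : Fin N, F i.succ * (cc θ a N (i + 1) : ℂ) =
      ((θ - c) * ((1 + a * v) ^ N - 1) + N * a) * F 0 := by
  have h1 := pow_of_step h F hF
  rw [← cc_sum N θ a h, Finset.sum_range, Finset.sum_mul]
  refine Finset.sum_congr rfl fun i _ => ?_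
  rw [h1 i.succ, Fin.val_succ]
  ring

/-- **Eigenvalue equation of the nested chain.** -/
theorem eigen {N K : ℕ} {θ a b x ε : ℝ} (hK : 0 < K) (ha0 : 0 < a) (hε : 0 < ε)
    (haε : a < ε) (hθ0 : 0 ≤ θ) (hθ : θ = N * a / 2) (hb : (K : ℝ) * b = 2) (hx0 : 0 < x)
    (hx : x = (1 - θ) * (1 + a) ^ N) (hKx : 2 * x / K < ε * (1 - a / ε) ^ N)
    (hD : ∀ c : ℂ, c.re < -ε → (c - θ) * (1 + a / c) ^ N ≠ x)
    {μ : ℂ} {f : Fin (K + 1) × Fin (N + 1) → ℂ} (hf : f ≠ 0)
    (h : ∀ s, ∑ s', f s' * (gen (rate N K (cc θ a N) (fun l => x * cc 1 b K l) x) s' s : ℂ) =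
      μ * f s) : -(1 + ε) ≤ μ.re := by
  by_contra hμ
  push Not at hμ
  obtain ⟨c, hc⟩ : ∃ c : ℂ, c = μ + 1 := ⟨_, rfl⟩
  have hcre : c.re < -ε := by rw [hc, Complex.add_re, Complex.one_re]; linarith
  have hc0 : c ≠ 0 := by
    rintro rfl
    rw [Complex.zero_re] at hcre
    linarith
  have hv : c * c⁻¹ = 1 := mul_inv_cancel₀ hc0
  obtain ⟨R, hR⟩ : ∃ R, R = rate N K (cc θ a N) (fun l => x * cc 1 b K l) x := ⟨_, rfl⟩
  rw [← hR] at h
  -- the equations without the diagonal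
  have h1 : ∀ s, ∑ s', f s' * (R s' s : ℂ) = (μ + ∑ s', (1 : ℂ) * (R s' s : ℂ)) * f s := by
    intro s
    have h2 := h s
    have h3 : ∀ s', f s' * (gen R s' s : ℂ) =
        f s' * (R s' s : ℂ) - (if s' = s then f s' * ∑ s'', (R s'' s : ℂ) else 0) := by
      intro s'
      rw [gen]
      split_ifs <;> push_cast <;> ring
    rw [Finset.sum_congr rfl fun s' _ => h3 s', Finset.sum_sub_distrib, Finset.sum_ite_eq' ,
      if_pos (Finset.mem_univ _)] at h2
    simp only [one_mul]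
    linear_combination h2
  -- slow states
  have h2 : ∀ (l : Fin (K + 1)) (i : Fin N), f (l, i.castSucc) = c * f (l, i.succ) := by
    intro l i
    have h3 := h1 (l, i.succ)
    rw [hR, sum_slow, sum_slow (fun _ => (1 : ℂ))] at h3
    rw [h3, hc]
  obtain ⟨D, hDdef⟩ : ∃ D : ℂ, D = (c - θ) * (1 + a / c) ^ N := ⟨_, rfl⟩
  have hDn : ε * (1 - a / ε) ^ N ≤ ‖D‖ := by
    rw [hDdef]; exact D_lower hθ0 ha0.le hε haε N hcre
  have hDx : D ≠ x := by rw [hDdef]; exact hD c hcre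
  have hpos : 0 < ε * (1 - a / ε) ^ N :=
    mul_pos hε (pow_pos (by rw [sub_pos, div_lt_one hε]; exact haε) N)
  have hD0 : D ≠ 0 := by
    rintro rfl
    rw [norm_zero] at hDn
    linarith
  have hxC : (x : ℂ) = (1 - θ) * (1 + a) ^ N := by rw [hx]; push_cast; rfl
  have hθC : (N : ℂ) * a = 2 * θ := by rw [hθ]; push_cast; ring
  have hone : ∀ l : Fin (K + 1), ∑ i : Fin N, (1 : ℂ) * (cc θ a N (i + 1) : ℂ) = 1 + θ - x := by
    intro l
    have h3 := fin_cc_sum N θ a (v := 1) (c := 1) (by ring) (fun _ => (1 : ℂ)) (fun _ => by ring)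
    rw [h3, hxC]
    linear_combination hθC
  have hexc : ∀ l : Fin (K + 1), ∑ i : Fin N, f (l, i.succ) * (cc θ a N (i + 1) : ℂ) =
      (c + θ - D) * f (l, 0) := by
    intro l
    have h3 := fin_cc_sum N θ a hv (fun i => f (l, i)) (fun i => h2 l i)
    rw [h3, hDdef, div_eq_mul_inv]
    linear_combination (f (l, 0)) * hθC
  -- base states above the lowest
  have h3 : ∀ m : Fin K, f (m.castSucc, 0) = D / x * f (m.succ, 0) := by
    intro m
    have h4 := h1 (m.succ, 0)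
    rw [hR, sum_base_succ, sum_base_succ (fun _ => (1 : ℂ)), hone m.succ, hexc m.succ] at h4
    have hxne : (x : ℂ) ≠ 0 := by exact_mod_cast hx0.ne'
    field_simp
    rw [hc] at h4
    linear_combination h4
  have hxne : (x : ℂ) ≠ 0 := by exact_mod_cast hx0.ne'
  have hbC : (K : ℂ) * b = 2 := by exact_mod_cast hb
  have hDinv : D / x * (x / D) = 1 := by field_simp
  -- the lowest base state
  have h4 := h1 (0, 0)
  rw [hR, sum_base_zero, sum_base_zero (fun _ => (1 : ℂ)), hone 0, hexc 0] at h4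
  have h5 : ∑ l : Fin K, f (l.succ, 0) * ((x * cc 1 b K (l + 1) : ℝ) : ℂ) =
      x * (((1 - D / x) * ((1 + b * (x / D)) ^ K - 1) + K * b) * f (0, 0)) := by
    have h6 := fin_cc_sum K 1 b hDinv (fun l => f (l, 0)) h3
    rw [Complex.ofReal_one] at h6
    rw [← h6, Finset.mul_sum]
    refine Finset.sum_congr rfl fun l _ => ?_
    push_cast
    ring
  have h6 : ∑ l : Fin K, (1 : ℂ) * ((x * cc 1 b K (l + 1) : ℝ) : ℂ) = x * 2 := by
    have h7 := fin_cc_sum K 1 b (v := 1) (c := 1) (by ring) (fun _ => (1 : ℂ)) (fun _ => by ring)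
    rw [Complex.ofReal_one, hbC] at h7
    have h8 : ∑ l : Fin K, (1 : ℂ) * ((x * cc 1 b K (l + 1) : ℝ) : ℂ) =
        x * ∑ l : Fin K, (1 : ℂ) * (cc 1 b K (l + 1) : ℂ) := by
      rw [Finset.mul_sum]
      refine Finset.sum_congr rfl fun l _ => ?_
      push_cast
      ring
    rw [h8, h7]; ring
  rw [h5, h6, hbC] at h4
  have h7 : (x - D) * (1 + b * (x / D)) ^ K * f (0, 0) = 0 := by
    have h8 : (x : ℂ) * (1 - D / x) = x - D := by field_simp
    linear_combination h4 - ((1 + b * (x / D)) ^ K - 1) * f (0, 0) * h8 - f (0, 0) * hc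
  have hf0 : f (0, 0) ≠ 0 := by
    intro h0
    apply hf
    funext s
    have h8 := pow_of_step hDinv (fun l => f (l, 0)) h3 s.1
    have h9 := pow_of_step hv (fun i => f (s.1, i)) (fun i => h2 s.1 i) s.2
    simp only [h0, mul_zero] at h8
    simp only [h8, mul_zero] at h9
    exact h9
  rcases mul_eq_zero.1 h7 with h8 | h8
  · rcases mul_eq_zero.1 h8 with h9 | h9
    · exact hDx (sub_eq_zero.1 h9).symm
    · have h10 := pow_eq_zero_iff (hK.ne') |>.1 h9
      have h11 : D = ((-(b * x) : ℝ) : ℂ) := by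
        field_simp at h10
        push_cast
        linear_combination h10
      rw [h11, Complex.norm_real, norm_neg, Real.norm_eq_abs] at hDn
      have hKpos : (0 : ℝ) < K := by exact_mod_cast hK
      have h12 : b = 2 / K := by field_simp; linarith
      have h13 : b * x = 2 * x / K := by rw [h12]; ring
      rw [h13, abs_of_nonneg (by positivity)] at hDn
      linarith
  · exact hf0 h8

/-- the total rate of the lowest base state -/
lemma total_zero {N K : ℕ} {θ a b x : ℝ} (hθ : θ = N * a / 2) (hb : (K : ℝ) * b = 2)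
    (hx : x = (1 - θ) * (1 + a) ^ N) :
    ∑ s', rate N K (cc θ a N) (fun l => x * cc 1 b K l) x s' (0, 0) = 1 + θ + x := by
  have hxC : (x : ℂ) = (1 - θ) * (1 + a) ^ N := by rw [hx]; push_cast; rfl
  have hθC : (N : ℂ) * a = 2 * θ := by rw [hθ]; push_cast; ring
  have hbC : (K : ℂ) * b = 2 := by exact_mod_cast hb
  have h1 := sum_base_zero (N := N) (K := K) (p := cc θ a N) (g := fun l => x * cc 1 b K l)
    (x := x) (fun _ => (1 : ℂ))
  have h2 := fin_cc_sum N θ a (v := 1) (c := 1) (by ring) (fun _ => (1 : ℂ)) (fun _ => by ring)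
  have h3 := fin_cc_sum K 1 b (v := 1) (c := 1) (by ring) (fun _ => (1 : ℂ)) (fun _ => by ring)
  rw [Complex.ofReal_one, hbC] at h3
  have h8 : ∑ l : Fin K, (1 : ℂ) * ((x * cc 1 b K (l + 1) : ℝ) : ℂ) =
      x * ∑ l : Fin K, (1 : ℂ) * (cc 1 b K (l + 1) : ℂ) := by
    rw [Finset.mul_sum]
    refine Finset.sum_congr rfl fun l _ => ?_
    push_cast
    ring
  rw [h2, h8, h3] at h1
  have h4 : ((∑ s', rate N K (cc θ a N) (fun l => x * cc 1 b K l) x s' (0, 0) : ℝ) : ℂ) =
      ((1 + θ + x : ℝ) : ℂ) := by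
    push_cast
    simp only [one_mul] at h1
    rw [h1]
    linear_combination hxC + hθC
  exact_mod_cast h4

lemma rate_zero_zero (N K : ℕ) (p g : ℕ → ℝ) (x : ℝ) : rate N K p g x (0, 0) (0, 0) = 0 := by
  simp [rate]

/-- absolute column sum of a generator -/
lemma gen_abs {S : Type*} [Fintype S] [DecidableEq S] {R : S → S → ℝ} (hR : ∀ s' s, 0 ≤ R s' s)
    (s : S) : ∑ s', |gen R s' s| = 2 * (∑ s', R s' s - R s s) := by
  have h1 : 0 ≤ ∑ s', R s' s - R s s := by
    rw [sub_nonneg]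
    exact Finset.single_le_sum (f := fun s' => R s' s) (fun s' _ => hR s' s) (Finset.mem_univ s)
  have h2 : ∀ s', |gen R s' s| =
      R s' s + (if s' = s then ∑ s'', R s'' s - 2 * R s s else 0) := by
    intro s'
    by_cases h : s' = s
    · subst h
      rw [gen, if_pos rfl, if_pos rfl, abs_of_nonpos (by linarith)]
      ring
    · rw [gen, if_neg h, if_neg h, sub_zero, add_zero, abs_of_nonneg (hR _ _)]
  rw [Finset.sum_congr rfl fun s' _ => h2 s', Finset.sum_add_distrib, Finset.sum_ite_eq',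
    if_pos (Finset.mem_univ _)]
  ring

end MarkovNest
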