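import Mathlib
import Pool.Agent.MP_c4a887_an.NestChain
import Pool.Agent.MP_c4a887_an.DimDepth

set_option autoImplicit false

/-! A lower bound for the dimension-free linear constant. -/

open Matrix NormedSpace Filter Topology MarkovDim
open scoped Matrix.Norms.Operator

namespace MarkovNest

lemma exists_left_eigen {d : ℕ} (A : Matrix (Fin d) (Fin d) ℂ) {μ : ℂ} (h : μ ∈ spectrum ℂ A) :
    ∃ v : Fin d → ℂ, v ≠ 0 ∧ ∀ j, ∑ i, v i * A i j = μ * v j := by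
  rw [spectrum.mem_iff, Matrix.isUnit_iff_isUnit_det, isUnit_iff_ne_zero, not_not] at h
  obtain ⟨v, hv, h1⟩ := Matrix.exists_vecMul_eq_zero_iff.2 h
  refine ⟨v, hv, fun j => ?_⟩
  rw [Matrix.vecMul_sub, sub_eq_zero] at h1
  have h2 := congrFun h1 j
  rw [Algebra.algebraMap_eq_smul_one, Matrix.vecMul_smul, Matrix.vecMul_one, Pi.smul_apply,
    smul_eq_mul] at h2
  rw [h2]
  rfl

/-- a generator of spectral depth `s` gives, after a change of time, good matrices -/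
theorem good_of_depth {d : ℕ} (Q : Matrix (Fin d) (Fin d) ℝ)
    (hoff : ∀ i j : Fin d, i ≠ j → 0 ≤ Q i j) (hcol : ∀ j : Fin d, ∑ i : Fin d, Q i j = 0)
    {s v κ : ℝ} (hs : 0 ≤ s) (hspec : ∀ μ ∈ spectrum ℂ (cx Q), -s ≤ μ.re) {j : Fin d}
    (hj : v ≤ ∑ i, |Q i j|) (hv : κ * s < v) :
    ∃ M₀ : ℝ, ∀ M : ℝ, M₀ ≤ M → ∃ Q' : Matrix (Fin d) (Fin d) ℝ,
      (∀ j : Fin d, ∑ i : Fin d, |exp (-Q') i j| ≤ M) ∧
      (∀ t : ℝ, 0 ≤ t → (∀ i j : Fin d, 0 ≤ exp (t • Q') i j) ∧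
        (∀ j : Fin d, ∑ i : Fin d, exp (t • Q') i j = 1)) ∧
      ∃ j : Fin d, κ * Real.log M ≤ ∑ i : Fin d, |Q' i j| := by
  obtain ⟨ε, hε⟩ : ∃ ε : ℝ, ε = (v - κ * s) / (|κ| + 1) := ⟨_, rfl⟩
  have hκ0 : 0 ≤ |κ| := abs_nonneg _
  have hε0 : 0 < ε := by rw [hε]; exact div_pos (by linarith) (by linarith)
  have hκε : κ * (s + ε) ≤ v := by
    have h1 : κ * ε ≤ |κ| * ε := mul_le_mul_of_nonneg_right (le_abs_self κ) hε0.le
    have h2 : |κ| * ε ≤ v - κ * s := by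
      rw [hε, mul_div_assoc', div_le_iff₀ (by linarith)]
      nlinarith
    linarith
  have hspecT : ∀ μ ∈ spectrum ℂ (cx ((-Q)ᵀ)), μ.re ≤ s := by
    intro μ hμ
    rw [cx_transpose] at hμ
    have h2 := Matrix.mem_spectrum_iff_isRoot_charpoly.mp hμ
    rw [Matrix.charpoly_transpose] at h2
    have h3 := Matrix.mem_spectrum_of_isRoot_charpoly h2
    rw [map_neg, ← spectrum.neg_eq] at h3
    have h4 := hspec _ (Set.mem_neg.mp h3)
    rw [Complex.neg_re] at h4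
    linarith
  obtain ⟨T, hT0, hT⟩ := spectral_growth (cx ((-Q)ᵀ)) hspecT hε0
  refine ⟨Real.exp ((s + ε) * T), fun M hM => ?_⟩
  have hM0 : 0 < M := lt_of_lt_of_le (Real.exp_pos _) hM
  obtain ⟨t, ht⟩ : ∃ t : ℝ, t = Real.log M / (s + ε) := ⟨_, rfl⟩
  have hcε : 0 < s + ε := by linarith
  have htT : T ≤ t := by
    rw [ht, le_div_iff₀ hcε, mul_comm]
    exact (Real.le_log_iff_exp_le hM0).mpr hM
  have ht0 : 0 ≤ t := hT0.trans htT
  have hlog : (s + ε) * t = Real.log M := by rw [ht]; field_simp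
  refine ⟨t • Q, ?_, ?_, j, ?_⟩
  · intro k
    have h1 := hT t htT
    rw [hlog, Real.exp_log hM0] at h1
    have h3 : t • cx ((-Q)ᵀ) = cx ((-(t • Q))ᵀ) := by
      ext i k
      rw [Matrix.smul_apply, cx_apply, cx_apply]
      simp
    rw [h3, exp_cx, Matrix.exp_transpose] at h1
    have h5 := row_le_cx_norm (exp (-(t • Q)))ᵀ k
    simp only [Matrix.transpose_apply] at h5
    exact h5.trans h1
  · intro u hu
    rw [smul_smul]
    exact stochastic_of_generator Q hoff hcol (u * t) (mul_nonneg hu ht0)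
  · have h1 : ∑ i, |(t • Q) i j| = t * ∑ i, |Q i j| := by
      have : ∀ i, |(t • Q) i j| = t * |Q i j| := by
        intro i
        rw [Matrix.smul_apply, smul_eq_mul, abs_mul, abs_of_nonneg ht0]
      rw [Finset.sum_congr rfl (fun i _ => this i), ← Finset.mul_sum]
    rw [h1, ← hlog]
    have h2 := mul_le_mul_of_nonneg_right hκε ht0
    have h3 := mul_le_mul_of_nonneg_left hj ht0
    linarith

lemma exp_lower : (24 : ℝ) / 7 < Real.exp (13 / 10) := by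
  have h1 := Real.quadratic_le_exp_of_nonneg (x := 13 / 20) (by norm_num)
  have h2 : Real.exp (13 / 10) = Real.exp (13 / 20) ^ 2 := by
    rw [← Real.exp_nat_mul]; norm_num
  rw [h2]
  nlinarith

/-- nested chains: rate over spectral depth -/
theorem exists_nested {κ : ℝ} (hκ : κ < 33 / 10 + 7 / 10 * Real.exp (13 / 10)) :
    ∃ (d : ℕ) (Q : Matrix (Fin d) (Fin d) ℝ) (s : ℝ), 0 ≤ s ∧
      (∀ i j : Fin d, i ≠ j → 0 ≤ Q i j) ∧ (∀ j : Fin d, ∑ i : Fin d, Q i j = 0) ∧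
      (∀ μ ∈ spectrum ℂ (cx Q), -s ≤ μ.re) ∧ ∃ j, κ * s < ∑ i, |Q i j| := by
  obtain ⟨L, hκL, hL⟩ := exists_between hκ
  obtain ⟨ε, hε⟩ : ∃ ε : ℝ, ε = (L - κ) / (|κ| + 1) := ⟨_, rfl⟩
  have hκ0 : 0 ≤ |κ| := abs_nonneg _
  have hε0 : 0 < ε := by rw [hε]; exact div_pos (by linarith) (by linarith)
  have hκε : κ * (1 + ε) ≤ L := by
    have h1 : κ * ε ≤ |κ| * ε := mul_le_mul_of_nonneg_right (le_abs_self κ) hε0.le
    have h2 : |κ| * ε ≤ L - κ := by
      rw [hε, mul_div_assoc', div_le_iff₀ (by linarith)]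
      nlinarith
    linarith
  have hlim := Real.tendsto_one_add_div_pow_exp (13 / 10)
  have h1 : ∀ᶠ N : ℕ in atTop, (L - 33 / 10) / (7 / 10) < (1 + (13 / 10 : ℝ) / N) ^ N :=
    hlim.eventually_const_lt (by rw [div_lt_iff₀ (by norm_num)]; linarith)
  have h2 : ∀ᶠ N : ℕ in atTop, (24 : ℝ) / 7 < (1 + (13 / 10 : ℝ) / N) ^ N :=
    hlim.eventually_const_lt exp_lower
  have h3 : ∀ᶠ N : ℕ in atTop, (26 : ℝ) / ε ≤ N :=
    tendsto_natCast_atTop_atTop.eventually_ge_atTop _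
  obtain ⟨N, ⟨h1, h2⟩, h3, h4⟩ := ((h1.and h2).and (h3.and (eventually_gt_atTop 0))).exists
  have hN : (0 : ℝ) < N := by exact_mod_cast h4
  obtain ⟨a, ha⟩ : ∃ a : ℝ, a = 13 / 10 / N := ⟨_, rfl⟩
  have ha0 : 0 < a := by rw [ha]; positivity
  have haε : a ≤ ε / 20 := by
    rw [ha, div_le_iff₀ hN]
    rw [div_le_iff₀ hε0] at h3
    linarith
  rw [← ha] at h1 h2
  obtain ⟨x, hx⟩ : ∃ x : ℝ, x = (1 - 13 / 20) * (1 + a) ^ N := ⟨_, rfl⟩
  have hx65 : 6 / 5 ≤ x := by rw [hx]; linarith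
  have hpos : 0 < ε * (1 - a / ε) ^ N :=
    mul_pos hε0 (pow_pos (by rw [sub_pos, div_lt_one hε0]; linarith) N)
  obtain ⟨K, hK⟩ := exists_nat_gt (2 * x / (ε * (1 - a / ε) ^ N))
  have hKpos : (0 : ℝ) < K := lt_of_le_of_lt (by positivity) hK
  have hK0 : 0 < K := by exact_mod_cast hKpos
  have hKx : 2 * x / K < ε * (1 - a / ε) ^ N := by
    rw [div_lt_iff₀ hKpos]
    rw [div_lt_iff₀ hpos] at hK
    linarith
  have hb : (K : ℝ) * (2 / K) = 2 := by field_simp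
  have hθ : (13 / 20 : ℝ) = N * a / 2 := by rw [ha]; field_simp; norm_num
  obtain ⟨R, hR⟩ : ∃ R, R = rate N K (cc (13 / 20) a N) (fun l => x * cc 1 (2 / K) K l) x :=
    ⟨_, rfl⟩
  have hRn : ∀ s' s, 0 ≤ R s' s := by
    rw [hR]
    refine rate_nonneg (fun i hi => cc_nonneg ha0.le hθ hi) (fun i hi => ?_) (by linarith)
    exact mul_nonneg (by linarith) (cc_nonneg (by positivity) (by rw [hb]; norm_num) hi)
  obtain ⟨e⟩ : Nonempty (Fin (Fintype.card (Fin (K + 1) × Fin (N + 1))) ≃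
      Fin (K + 1) × Fin (N + 1)) := ⟨(Fintype.equivFin _).symm⟩
  refine ⟨_, fun i j => gen R (e i) (e j), 1 + ε, by linarith, ?_, ?_, ?_, e.symm (0, 0), ?_⟩
  · intro i j hij
    exact gen_off hRn (fun h => hij (e.injective h))
  · intro j
    exact (e.sum_comp fun s' => gen R s' (e j)).trans (gen_col R (e j))
  · intro μ hμ
    obtain ⟨v, hv, hv2⟩ := exists_left_eigen _ hμ
    refine eigen (N := N) (K := K) (f := fun s => v (e.symm s)) hK0 ha0 hε0 (by linarith)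
      (by norm_num) hθ hb (by linarith) hx hKx
      (fun c hc => ?_) ?_ ?_
    · exact D_ne h4 ha hε0 haε hx65 hc
    · intro h
      apply hv
      funext i
      have h5 := congrFun h (e i)
      simpa using h5
    · intro s
      rw [← hR]
      have h5 := hv2 (e.symm s)
      rw [← h5, ← e.sum_comp]
      refine Finset.sum_congr rfl fun i _ => ?_
      rw [cx_apply, e.symm_apply_apply, e.apply_symm_apply]
  · change κ * (1 + ε) < ∑ i, |gen R (e i) (e (e.symm (0, 0)))|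
    rw [e.apply_symm_apply, e.sum_comp fun s' => |gen R s' (0, 0)|, gen_abs hRn, hR, rate_zero_zero,
      total_zero hθ hb hx]
    rw [div_lt_iff₀ (by norm_num)] at h1
    rw [hx]
    linarith

/-- **Lower bound for the linear constant.** -/
theorem nested_lower {κ : ℝ} (hκ : κ < 33 / 10 + 7 / 10 * Real.exp (13 / 10)) :
    ∃ (d : ℕ) (M₀ : ℝ), ∀ M : ℝ, M₀ ≤ M → ∃ Q : Matrix (Fin d) (Fin d) ℝ,
      (∀ j : Fin d, ∑ i : Fin d, |exp (-Q) i j| ≤ M) ∧
      (∀ t : ℝ, 0 ≤ t → (∀ i j : Fin d, 0 ≤ exp (t • Q) i j) ∧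
        (∀ j : Fin d, ∑ i : Fin d, exp (t • Q) i j = 1)) ∧
      ∃ j : Fin d, κ * Real.log M ≤ ∑ i : Fin d, |Q i j| := by
  obtain ⟨d, Q, s, hs, hoff, hcol, hspec, j, hj⟩ := exists_nested hκ
  exact ⟨d, good_of_depth Q hoff hcol hs hspec le_rfl hj⟩

end MarkovNest
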