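import Mathlib

set_option autoImplicit false

/-! A consequence of the Borel-Caratheodory theorem for quotients of products of linear factors. -/

open Metric Filter Topology

namespace MarkovScale

lemma slit_of_small {a v : ℂ} (h : ‖a * v‖ < 1) : 1 - a * v ∈ Complex.slitPlane := by
  have h1 : ‖-(a * v)‖ < 1 := by rwa [norm_neg]
  have h2 := Complex.mem_slitPlane_of_norm_lt_one h1
  rwa [← sub_eq_add_neg] at h2

theorem bc_family {ι κ : Type*} [Fintype ι] [Fintype κ] (a : ι → ℂ) (b : κ → ℂ) {r B : ℝ}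
    (hr : 0 < r) (hB : 0 < B) (ha : ∀ i, ‖a i‖ * r ≤ 1) (hb : ∀ k, ‖b k‖ * r < 1)
    (h : ∀ v : ℂ, ‖v‖ = r →
      ‖∏ i, (1 - a i * v)‖ ≤ Real.exp B * ‖∏ k, (1 - b k * v)‖) :
    (∑ i, a i - ∑ k, b k).re ≤ 2 * B / r := by
  have hbv : ∀ k, ∀ v : ℂ, ‖v‖ ≤ r → ‖b k * v‖ < 1 := by
    intro k v hv
    rw [norm_mul]
    exact lt_of_le_of_lt (mul_le_mul_of_nonneg_left hv (norm_nonneg _)) (hb k)
  have hav : ∀ i, ∀ v : ℂ, ‖v‖ < r → ‖a i * v‖ < 1 := by
    intro i v hv
    rw [norm_mul]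
    rcases (norm_nonneg (a i)).eq_or_lt with h0 | h0
    · rw [← h0, zero_mul]
      exact one_pos
    · exact lt_of_lt_of_le (mul_lt_mul_of_pos_left hv h0) (ha i)
  have hden : ∀ v : ℂ, ‖v‖ ≤ r → ∏ k, (1 - b k * v) ≠ 0 := by
    intro v hv
    rw [Finset.prod_ne_zero_iff]
    intro k _ h0
    have h1 : b k * v = 1 := (sub_eq_zero.1 h0).symm
    have h2 := hbv k v hv
    rw [h1, norm_one] at h2
    exact lt_irrefl _ h2
  set E : ℂ → ℂ := fun v => (∏ i, (1 - a i * v)) / ∏ k, (1 - b k * v) with hE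
  have hEd : DiffContOnCl ℂ E (ball 0 r) := by
    apply DifferentiableOn.diffContOnCl
    rw [closure_ball _ hr.ne']
    intro v hv
    have hv' : ‖v‖ ≤ r := by simpa using hv
    apply DifferentiableAt.differentiableWithinAt
    refine DifferentiableAt.div ?_ ?_ (hden v hv')
    · fun_prop
    · fun_prop
  have hEle : ∀ v : ℂ, ‖v‖ < r → ‖E v‖ ≤ Real.exp B := by
    intro v hv
    refine Complex.norm_le_of_forall_mem_frontier_norm_le isBounded_ball hEd (fun z hz => ?_)
      (subset_closure (by simpa using hv))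
    rw [frontier_ball _ hr.ne'] at hz
    have hz' : ‖z‖ = r := by simpa using hz
    rw [hE]
    simp only
    rw [norm_div, div_le_iff₀ (norm_pos_iff.2 (hden z hz'.le))]
    exact h z hz'
  set f : ℂ → ℂ := fun v => ∑ i, Complex.log (1 - a i * v) - ∑ k, Complex.log (1 - b k * v) with hf
  have hfd : ∀ v : ℂ, ‖v‖ < r → DifferentiableAt ℂ f v := by
    intro v hv
    refine DifferentiableAt.sub ?_ ?_
    · refine DifferentiableAt.fun_sum fun i _ => ?_
      refine DifferentiableAt.clog (by fun_prop) (slit_of_small (hav i v hv))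
    · refine DifferentiableAt.fun_sum fun k _ => ?_
      refine DifferentiableAt.clog (by fun_prop) (slit_of_small (hbv k v hv.le))
  have hexp : ∀ v : ℂ, ‖v‖ < r → Complex.exp (f v) = E v := by
    intro v hv
    rw [hf, hE]
    simp only
    rw [Complex.exp_sub, Complex.exp_sum, Complex.exp_sum]
    congr 1
    · refine Finset.prod_congr rfl fun i _ => ?_
      exact Complex.exp_log (Complex.slitPlane_ne_zero (slit_of_small (hav i v hv)))
    · refine Finset.prod_congr rfl fun k _ => ?_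
      exact Complex.exp_log (Complex.slitPlane_ne_zero (slit_of_small (hbv k v hv.le)))
  have hre : ∀ v : ℂ, ‖v‖ < r → (f v).re ≤ B := by
    intro v hv
    have h1 := hEle v hv
    rw [← hexp v hv, Complex.norm_exp] at h1
    exact Real.exp_le_exp.1 h1
  have hf0 : f 0 = 0 := by
    rw [hf]
    simp
  have hbc : ∀ v : ℂ, ‖v‖ < r → ‖f v‖ ≤ 2 * B * ‖v‖ / (r - ‖v‖) := by
    intro v hv
    exact Complex.borelCaratheodory_zero hB
      (fun z hz => (hfd z (by simpa using hz)).differentiableWithinAt)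
      (fun z hz => hre z (by simpa using hz)) hr (by simpa using hv) hf0
  have hder : HasDerivAt f (-(∑ i, a i - ∑ k, b k)) 0 := by
    have hlog : ∀ c : ℂ, HasDerivAt (fun v : ℂ => Complex.log (1 - c * v)) (-c) 0 := by
      intro c
      have h1 : HasDerivAt (fun v : ℂ => 1 - c * v) (-c) 0 := by
        have := ((hasDerivAt_id (0 : ℂ)).const_mul c).const_sub 1
        simpa using this
      have h2 := h1.clog (by simp)
      simpa using h2
    have h1 : HasDerivAt (fun v : ℂ => ∑ i, Complex.log (1 - a i * v)) (∑ i, -a i) 0 :=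
      HasDerivAt.fun_sum fun i _ => hlog (a i)
    have h2 : HasDerivAt (fun v : ℂ => ∑ k, Complex.log (1 - b k * v)) (∑ k, -b k) 0 :=
      HasDerivAt.fun_sum fun k _ => hlog (b k)
    have h3 := h1.sub h2
    rw [Finset.sum_neg_distrib, Finset.sum_neg_distrib] at h3
    have h4 : -(∑ i, a i - ∑ k, b k) = -∑ i, a i - -∑ k, b k := by ring
    rw [h4]
    exact h3
  have hslope := hder.tendsto_slope_zero
  have hlim1 : Tendsto (fun t : ℂ => ‖t⁻¹ • (f (0 + t) - f 0)‖) (𝓝[≠] 0)
      (𝓝 ‖-(∑ i, a i - ∑ k, b k)‖) := hslope.norm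
  have hlim2 : Tendsto (fun t : ℂ => 2 * B / (r - ‖t‖)) (𝓝[≠] 0) (𝓝 (2 * B / r)) := by
    have h1 : Tendsto (fun t : ℂ => 2 * B / (r - ‖t‖)) (𝓝 0) (𝓝 (2 * B / (r - ‖(0 : ℂ)‖))) := by
      refine Tendsto.div tendsto_const_nhds (tendsto_const_nhds.sub continuous_norm.continuousAt) ?_
      simp [hr.ne']
    rw [norm_zero, sub_zero] at h1
    exact h1.mono_left nhdsWithin_le_nhds
  have hev : ∀ᶠ t : ℂ in 𝓝[≠] 0, ‖t⁻¹ • (f (0 + t) - f 0)‖ ≤ 2 * B / (r - ‖t‖) := by
    have h1 : ∀ᶠ t : ℂ in 𝓝[≠] 0, t ∈ ball (0 : ℂ) r :=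
      nhdsWithin_le_nhds (ball_mem_nhds _ hr)
    filter_upwards [h1, self_mem_nhdsWithin] with t ht ht0
    have ht' : ‖t‖ < r := by simpa using ht
    have ht0' : 0 < ‖t‖ := norm_pos_iff.2 ht0
    have h2 := hbc t ht'
    rw [zero_add, hf0, sub_zero, smul_eq_mul, norm_mul, norm_inv, inv_mul_le_iff₀ ht0']
    refine h2.trans (le_of_eq ?_)
    ring
  have hfin := le_of_tendsto_of_tendsto hlim1 hlim2 hev
  rw [norm_neg] at hfin
  exact (Complex.re_le_norm _).trans hfin

/-- every multiset is the image of a finite family -/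
lemma exists_family (U : Multiset ℂ) : ∃ (n : ℕ) (u : Fin n → ℂ),
    U = (Finset.univ : Finset (Fin n)).val.map u := by
  induction U using Quotient.inductionOn with
  | h L =>
    refine ⟨L.length, L.get, ?_⟩
    rw [Fin.univ_val_map, List.ofFn_get]
    rfl

theorem bc_multiset (U V : Multiset ℂ) {r B : ℝ}
    (hr : 0 < r) (hB : 0 < B) (ha : ∀ x ∈ U, ‖x‖ * r ≤ 1) (hb : ∀ x ∈ V, ‖x‖ * r < 1)
    (h : ∀ v : ℂ, ‖v‖ = r →
      ‖(U.map fun x => 1 - x * v).prod‖ ≤ Real.exp B * ‖(V.map fun x => 1 - x * v).prod‖) :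
    U.sum.re - V.sum.re ≤ 2 * B / r := by
  obtain ⟨n, u, rfl⟩ := exists_family U
  obtain ⟨k, w, rfl⟩ := exists_family V
  have h1 := bc_family u w hr hB (fun i => ha (u i) (Multiset.mem_map_of_mem _ (Finset.mem_univ i)))
    (fun i => hb (w i) (Multiset.mem_map_of_mem _ (Finset.mem_univ i))) (fun v hv => by
      have := h v hv
      rwa [Multiset.map_map, Multiset.map_map] at this)
  rw [Complex.sub_re] at h1
  exact h1

end MarkovScale
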