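import Mathlib

set_option autoImplicit false

/-! Determinants: removing slow states from a matrix. -/

open Matrix

namespace MarkovScale

variable {α β γ : Type*} [Fintype α] [DecidableEq α] [Fintype β] [DecidableEq β]

/-- the determinant is at most the product of the absolute column sums -/
lemma norm_det_le (K : Matrix α α ℂ) : ‖K.det‖ ≤ ∏ j, ∑ i, ‖K i j‖ := by
  classical
  have h1 : ‖K.det‖ ≤ ∑ σ : Equiv.Perm α, ∏ i, ‖K (σ i) i‖ := by
    rw [Matrix.det_apply']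
    refine (norm_sum_le _ _).trans (Finset.sum_le_sum fun σ _ => ?_)
    rw [norm_mul, norm_prod]
    rcases Int.units_eq_one_or (Equiv.Perm.sign σ) with h | h <;> simp [h]
  refine h1.trans ?_
  have h2 : ∏ j, ∑ i, ‖K i j‖ = ∑ f : α → α, ∏ j, ‖K (f j) j‖ := by
    rw [Finset.prod_univ_sum]
    simp
  rw [h2]
  let E : Equiv.Perm α ↪ (α → α) := ⟨fun σ => σ, Equiv.coe_fn_injective⟩
  have h3 : ∑ σ : Equiv.Perm α, ∏ i, ‖K (σ i) i‖ =
      ∑ f ∈ (Finset.univ : Finset (Equiv.Perm α)).map E, ∏ j, ‖K (f j) j‖ := by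
    rw [Finset.sum_map]
    rfl
  rw [h3]
  exact Finset.sum_le_sum_of_subset_of_nonneg (Finset.subset_univ _)
    (fun f _ _ => Finset.prod_nonneg fun j _ => norm_nonneg _)

omit [DecidableEq β] in
/-- the `ℓ¹` norm of `B y` -/
lemma l1_mulVec_le [Fintype γ] (B : Matrix γ β ℂ) {c : ℝ} (h : ∀ j, ∑ i, ‖B i j‖ ≤ c) (y : β → ℂ) :
    ∑ i, ‖(B *ᵥ y) i‖ ≤ c * ∑ j, ‖y j‖ := by
  have h1 : ∀ i, ‖(B *ᵥ y) i‖ ≤ ∑ j, ‖B i j‖ * ‖y j‖ := by
    intro i
    rw [Matrix.mulVec, dotProduct]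
    refine (norm_sum_le _ _).trans (le_of_eq ?_)
    exact Finset.sum_congr rfl fun j _ => norm_mul _ _
  refine (Finset.sum_le_sum fun i _ => h1 i).trans ?_
  rw [Finset.sum_comm, Finset.mul_sum]
  refine Finset.sum_le_sum fun j _ => ?_
  rw [← Finset.sum_mul]
  exact mul_le_mul_of_nonneg_right (h j) (norm_nonneg _)

/-- `1 - w B` is bounded below in the `ℓ¹` norm -/
lemma l1_lower (B : Matrix β β ℂ) {c : ℝ} (h : ∀ j, ∑ i, ‖B i j‖ ≤ c) (w : ℂ) (y : β → ℂ) :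
    (1 - ‖w‖ * c) * ∑ j, ‖y j‖ ≤ ∑ i, ‖((1 - w • B) *ᵥ y) i‖ := by
  have h1 := l1_mulVec_le B h y
  have h2 : ∀ i, ‖y i‖ ≤ ‖((1 - w • B) *ᵥ y) i‖ + ‖w‖ * ‖(B *ᵥ y) i‖ := by
    intro i
    have h3 : y i = ((1 - w • B) *ᵥ y) i + w * (B *ᵥ y) i := by
      rw [Matrix.sub_mulVec, Matrix.one_mulVec, Matrix.smul_mulVec]
      simp
    calc ‖y i‖ = ‖((1 - w • B) *ᵥ y) i + w * (B *ᵥ y) i‖ := by rw [← h3]
      _ ≤ ‖((1 - w • B) *ᵥ y) i‖ + ‖w * (B *ᵥ y) i‖ := norm_add_le _ _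
      _ = _ := by rw [norm_mul]
  have h4 := Finset.sum_le_sum fun i (_ : i ∈ Finset.univ) => h2 i
  rw [Finset.sum_add_distrib, ← Finset.mul_sum] at h4
  have h5 : ‖w‖ * ∑ i, ‖(B *ᵥ y) i‖ ≤ ‖w‖ * (c * ∑ j, ‖y j‖) :=
    mul_le_mul_of_nonneg_left h1 (norm_nonneg _)
  nlinarith

lemma det_ne_zero_of_small (B : Matrix β β ℂ) {c : ℝ} (h : ∀ j, ∑ i, ‖B i j‖ ≤ c) (w : ℂ)
    (hw : ‖w‖ * c < 1) : (1 - w • B).det ≠ 0 := by
  intro h0
  obtain ⟨v, hv, hv0⟩ := Matrix.exists_mulVec_eq_zero_iff.2 h0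
  have h1 := l1_lower B h w v
  rw [hv0] at h1
  simp only [Pi.zero_apply, norm_zero, Finset.sum_const_zero] at h1
  have h2 : ∑ j, ‖v j‖ ≤ 0 := by
    by_contra hc
    push Not at hc
    have := mul_pos (sub_pos.2 hw) hc
    linarith
  apply hv
  funext j
  have h3 : ‖v j‖ ≤ ∑ j, ‖v j‖ :=
    Finset.single_le_sum (f := fun j => ‖v j‖) (fun j _ => norm_nonneg _) (Finset.mem_univ j)
  have h4 : ‖v j‖ ≤ 0 := h3.trans h2
  simpa using h4

/-- Removing the slow block: on the circle `|w| = 1 / (3 ρ)` the quotient of the determinants is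
at most the product of `1 + 2 l_j |w|` over the fast states. -/
lemma det_ratio (A11 : Matrix α α ℂ) (A12 : Matrix α β ℂ) (A21 : Matrix β α ℂ) (A22 : Matrix β β ℂ)
    {ρ : ℝ} (l : α → ℝ) (w : ℂ) (hw : ‖w‖ * (3 * ρ) ≤ 1)
    (h1 : ∀ j, ∑ i, ‖A11 i j‖ + ∑ i, ‖A21 i j‖ ≤ 2 * l j)
    (h12 : ∀ j, ∑ i, ‖A12 i j‖ ≤ ρ) (h22 : ∀ j, ∑ i, ‖A22 i j‖ ≤ 2 * ρ) :
    ‖(1 - w • fromBlocks A11 A12 A21 A22).det‖ ≤
      (∏ j, (1 + 2 * l j * ‖w‖)) * ‖(1 - w • A22).det‖ := by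
  have hw2 : ‖w‖ * (2 * ρ) < 1 := by
    rcases le_or_gt ρ 0 with hρ | hρ
    · have : ‖w‖ * (2 * ρ) ≤ 0 := by
        have := mul_nonpos_of_nonneg_of_nonpos (norm_nonneg w) hρ
        linarith
      linarith
    · nlinarith [norm_nonneg w]
  have hD : (1 - w • A22).det ≠ 0 := det_ne_zero_of_small A22 h22 w hw2
  have : Invertible (1 - w • A22) := Matrix.invertibleOfIsUnitDet _ (isUnit_iff_ne_zero.2 hD)
  set X : Matrix β α ℂ := ⅟(1 - w • A22) * A21 with hX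
  have hDX : (1 - w • A22) * X = A21 := by
    rw [hX, ← Matrix.mul_assoc, mul_invOf_self, Matrix.one_mul]
  have hblocks : (1 - w • fromBlocks A11 A12 A21 A22) =
      fromBlocks (1 - w • A11) (-(w • A12)) (-(w • A21)) (1 - w • A22) := by
    ext i j
    rcases i with i | i <;> rcases j with j | j <;> simp [Matrix.one_apply]
  have hXcol : ∀ j, ‖w‖ * ρ * ∑ i, ‖X i j‖ ≤ ∑ i, ‖A21 i j‖ := by
    intro j
    have h3 := l1_lower A22 h22 w (fun i => X i j)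
    have h4 : (fun i => ((1 - w • A22) *ᵥ fun i => X i j) i) = fun i => A21 i j := by
      funext i
      have := congrFun (congrFun hDX i) j
      rw [Matrix.mul_apply] at this
      rw [Matrix.mulVec, dotProduct]
      exact this
    have h5 : ∑ i, ‖((1 - w • A22) *ᵥ fun i => X i j) i‖ = ∑ i, ‖A21 i j‖ :=
      Finset.sum_congr rfl fun i _ => by rw [show ((1 - w • A22) *ᵥ fun i => X i j) i = A21 i j from
        congrFun h4 i]
    rw [h5] at h3
    have h6 : 0 ≤ ∑ i, ‖X i j‖ := Finset.sum_nonneg fun i _ => norm_nonneg _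
    nlinarith
  rw [hblocks, Matrix.det_fromBlocks₂₂, norm_mul, mul_comm]
  refine mul_le_mul_of_nonneg_right ?_ (norm_nonneg _)
  refine (norm_det_le _).trans ?_
  refine Finset.prod_le_prod (fun j _ => Finset.sum_nonneg fun i _ => norm_nonneg _) fun j _ => ?_
  have hK : ∀ i, (1 - w • A11 - -(w • A12) * ⅟(1 - w • A22) * -(w • A21) : Matrix α α ℂ) i j =
      (1 : Matrix α α ℂ) i j - w * A11 i j - w ^ 2 * (A12 *ᵥ fun i => X i j) i := by
    intro i
    have h3 : -(w • A12) * ⅟(1 - w • A22) * -(w • A21) = (w ^ 2) • (A12 * X) := by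
      rw [hX, Matrix.mul_neg, Matrix.neg_mul, Matrix.neg_mul, neg_neg, Matrix.smul_mul,
        Matrix.smul_mul, Matrix.mul_smul, smul_smul, ← sq, Matrix.mul_assoc]
    rw [h3]
    simp only [Matrix.sub_apply, Matrix.smul_apply, smul_eq_mul, Matrix.mul_apply, Matrix.mulVec,
      dotProduct]
  have hcol : ∑ i, ‖(1 - w • A11 - -(w • A12) * ⅟(1 - w • A22) * -(w • A21) : Matrix α α ℂ) i j‖ ≤
      ∑ i, (‖(1 : Matrix α α ℂ) i j‖ + ‖w‖ * ‖A11 i j‖ +
        ‖w‖ ^ 2 * ‖(A12 *ᵥ fun i => X i j) i‖) := by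
    refine Finset.sum_le_sum fun i _ => ?_
    rw [hK i]
    refine (norm_sub_le _ _).trans ?_
    rw [norm_mul, norm_pow]
    refine add_le_add ?_ le_rfl
    refine (norm_sub_le _ _).trans ?_
    rw [norm_mul]
  refine hcol.trans ?_
  rw [Finset.sum_add_distrib, Finset.sum_add_distrib, ← Finset.mul_sum, ← Finset.mul_sum]
  have hone : ∑ i, ‖(1 : Matrix α α ℂ) i j‖ = 1 := by
    rw [Finset.sum_eq_single j]
    · simp
    · intro i _ hi
      simp [Matrix.one_apply_ne hi]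
    · intro h
      exact absurd (Finset.mem_univ j) h
  rw [hone]
  have h7 := l1_mulVec_le A12 h12 (fun i => X i j)
  have h8 := hXcol j
  have h9 := h1 j
  have h10 : ‖w‖ ^ 2 * ∑ i, ‖(A12 *ᵥ fun i => X i j) i‖ ≤ ‖w‖ * ∑ i, ‖A21 i j‖ := by
    calc ‖w‖ ^ 2 * ∑ i, ‖(A12 *ᵥ fun i => X i j) i‖ ≤ ‖w‖ ^ 2 * (ρ * ∑ i, ‖X i j‖) :=
          mul_le_mul_of_nonneg_left h7 (by positivity)
      _ = ‖w‖ * (‖w‖ * ρ * ∑ i, ‖X i j‖) := by ring
      _ ≤ ‖w‖ * ∑ i, ‖A21 i j‖ := mul_le_mul_of_nonneg_left h8 (norm_nonneg _)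
  have h11 : ‖w‖ * (∑ i, ‖A11 i j‖ + ∑ i, ‖A21 i j‖) ≤ ‖w‖ * (2 * l j) :=
    mul_le_mul_of_nonneg_left h9 (norm_nonneg _)
  nlinarith

/-- `det (1 + w B)` in terms of the roots of the characteristic polynomial -/
lemma det_one_add (B : Matrix α α ℂ) (w : ℂ) :
    (1 + w • B).det = (B.charpoly.roots.map fun μ => 1 + w * μ).prod := by
  have hcard : B.charpoly.roots.card = Fintype.card α := by
    rw [IsAlgClosed.card_roots_eq_natDegree, Matrix.charpoly_natDegree_eq_dim]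
  by_cases hw : w = 0
  · subst hw
    simp
  have hfac : B.charpoly = (B.charpoly.roots.map (fun μ => Polynomial.X - Polynomial.C μ)).prod :=
    ((IsAlgClosed.splits B.charpoly).eq_prod_roots_of_monic B.charpoly_monic)
  have h1 : B.charpoly.eval (-w⁻¹) = (B.charpoly.roots.map fun μ => -w⁻¹ - μ).prod := by
    conv_lhs => rw [hfac]
    rw [Polynomial.eval_multiset_prod, Multiset.map_map]
    congr 1
    apply Multiset.map_congr rfl
    intro μ _
    simp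
  rw [Matrix.eval_charpoly] at h1
  have h2 : (1 + w • B) = (-w) • (Matrix.scalar α (-w⁻¹) - B) := by
    ext i j
    by_cases hij : i = j
    · subst hij
      simp [Matrix.scalar_apply]
      field_simp
      ring
    · simp [Matrix.scalar_apply, hij]
  have h3 : (B.charpoly.roots.map fun μ => 1 + w * μ) =
      (B.charpoly.roots.map fun μ => (-w) * (-w⁻¹ - μ)) := by
    apply Multiset.map_congr rfl
    intro μ _
    field_simp
    ring
  rw [h2, Matrix.det_smul, h1, ← hcard, h3, Multiset.prod_map_mul, Multiset.map_const',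
    Multiset.prod_replicate]

end MarkovScale
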