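import Mathlib
import Pool.Agent.MP_c4a887_an.DimUpper
import Pool.Agent.MP_c4a887_an.ScaleDet
import Pool.Agent.MP_c4a887_an.ScaleBC

set_option autoImplicit false

/-! The distribution of the rates of a Markov generator of spectral depth `s`: at every scale
`ρ ≥ s / 2` the mean square of the rates above `ρ` is at most `68 ρ²`. -/

open Matrix

namespace MarkovScale

open MarkovDim

/-- an eigenvalue outside of the disc of radius `r ^ (-1/2)` is reflected into the disc -/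
noncomputable def fold (r : ℝ) (μ : ℂ) : ℂ :=
  if ‖μ‖ * ‖μ‖ * r ≤ 1 then μ ^ 2 else ((r : ℂ) ^ 2 * (starRingEnd ℂ μ) ^ 2)⁻¹

lemma fold_norm {r : ℝ} (hr : 0 < r) (μ : ℂ) : ‖fold r μ‖ * r ≤ 1 := by
  unfold fold
  split_ifs with h
  · rw [norm_pow, sq]
    exact h
  · push Not at h
    have h1 : 0 < ‖μ‖ * ‖μ‖ * r := lt_trans one_pos h
    have h2 : 0 < ‖μ‖ * ‖μ‖ := pos_of_mul_pos_left h1 hr.le
    have h3 : 0 < ‖μ‖ ^ 2 := by rw [sq]; exact h2
    rw [norm_inv, norm_mul, norm_pow, norm_pow, RCLike.norm_conj, Complex.norm_real,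
      Real.norm_of_nonneg hr.le, inv_mul_le_iff₀ (mul_pos (pow_pos hr 2) h3)]
    nlinarith

lemma fold_le {r : ℝ} (hr : 0 < r) (μ v : ℂ) (hv : ‖v‖ = r) :
    ‖1 - fold r μ * v‖ ≤ ‖1 - μ ^ 2 * v‖ := by
  unfold fold
  split_ifs with h
  · exact le_rfl
  · push Not at h
    have h1 : 0 < ‖μ‖ * ‖μ‖ * r := lt_trans one_pos h
    have h2 : 0 < ‖μ‖ * ‖μ‖ := pos_of_mul_pos_left h1 hr.le
    have hμ : μ ≠ 0 := by
      rintro rfl
      simp at h2
    set m : ℂ := starRingEnd ℂ μ with hm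
    have hm0 : m ≠ 0 := by
      rw [hm]
      simpa using hμ
    have hr0 : (r : ℂ) ≠ 0 := by exact_mod_cast hr.ne'
    have hmn : ‖m‖ = ‖μ‖ := RCLike.norm_conj μ
    have hvv : v * starRingEnd ℂ v = (r : ℂ) ^ 2 := by
      rw [Complex.mul_conj, Complex.normSq_eq_norm_sq, hv]
      push_cast
      ring
    have e1 : ‖1 - μ ^ 2 * v‖ = ‖1 - m ^ 2 * starRingEnd ℂ v‖ := by
      have : starRingEnd ℂ (1 - μ ^ 2 * v) = 1 - m ^ 2 * starRingEnd ℂ v := by
        simp [hm]
      rw [← this, RCLike.norm_conj]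
    have e2 : v * (1 - m ^ 2 * starRingEnd ℂ v) = v - m ^ 2 * (r : ℂ) ^ 2 := by
      rw [mul_sub, mul_one, ← hvv]
      ring
    have e3 : r * ‖1 - m ^ 2 * starRingEnd ℂ v‖ = ‖v - m ^ 2 * (r : ℂ) ^ 2‖ := by
      rw [← e2, norm_mul, hv]
    have e4 : 1 - ((r : ℂ) ^ 2 * m ^ 2)⁻¹ * v =
        -(((r : ℂ) ^ 2 * m ^ 2)⁻¹ * (v - m ^ 2 * (r : ℂ) ^ 2)) := by
      field_simp
      ring
    have e5 : ‖1 - ((r : ℂ) ^ 2 * m ^ 2)⁻¹ * v‖ = (r ^ 2 * ‖μ‖ ^ 2)⁻¹ * (r * ‖1 - μ ^ 2 * v‖) := by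
      rw [e4, norm_neg, norm_mul, norm_inv, norm_mul, norm_pow, norm_pow, hmn, Complex.norm_real,
        Real.norm_of_nonneg hr.le, e1, e3]
    rw [e5, inv_mul_le_iff₀ (by positivity)]
    have h3 : 0 ≤ ‖1 - μ ^ 2 * v‖ := norm_nonneg _
    have h4 : r * 1 ≤ r * (‖μ‖ * ‖μ‖ * r) := mul_le_mul_of_nonneg_left h.le hr.le
    nlinarith

lemma fold_re {r : ℝ} (μ : ℂ) (hμ : 1 < ‖μ‖ * ‖μ‖ * r → (μ ^ 2).re ≤ 0) :
    (μ ^ 2).re ≤ (fold r μ).re := by
  unfold fold
  split_ifs with h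
  · exact le_rfl
  · push Not at h
    have h1 := hμ h
    set n : ℝ := ‖μ‖ * ‖μ‖ * r with hn
    have h2 : (1 : ℝ) < n ^ 2 := by nlinarith
    have hμ0 : μ ≠ 0 := by
      rintro rfl
      rw [hn] at h
      simp at h
      linarith
    have hm0 : starRingEnd ℂ μ ≠ 0 := by simpa using hμ0
    have e1 : ((r : ℂ) ^ 2 * (starRingEnd ℂ μ) ^ 2)⁻¹ = (((n ^ 2)⁻¹ : ℝ) : ℂ) * μ ^ 2 := by
      have e2 : ((n : ℝ) : ℂ) = μ * starRingEnd ℂ μ * r := by
        rw [hn, Complex.mul_conj, Complex.normSq_eq_norm_sq]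
        push_cast
        ring
      have hr0 : (r : ℂ) ≠ 0 := by
        intro h0
        have : r = 0 := by exact_mod_cast h0
        rw [hn, this] at h
        simp at h
        linarith
      rw [Complex.ofReal_inv, Complex.ofReal_pow, e2]
      field_simp
    rw [e1, Complex.re_ofReal_mul]
    have h3 : (n ^ 2)⁻¹ ≤ 1 := inv_le_one_of_one_le₀ h2.le
    nlinarith

lemma re_sum_map (s : Multiset ℂ) (f : ℂ → ℂ) :
    ((s.map f).sum).re = (s.map fun μ => (f μ).re).sum := by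
  have := map_multiset_sum Complex.reAddGroupHom (s.map f)
  rw [Multiset.map_map] at this
  simpa using this

lemma norm_prod_map (s : Multiset ℂ) (f : ℂ → ℂ) :
    ‖(s.map f).prod‖ = (s.map fun μ => ‖f μ‖).prod := by
  induction s using Multiset.induction_on with
  | empty => simp
  | cons a s ih => simp [ih]

variable {d : ℕ} {M s : ℝ} {Q : Matrix (Fin d) (Fin d) ℝ}

/-- a Markov generator whose eigenvalues have real part at least `-s` -/
structure Deep (s : ℝ) (Q : Matrix (Fin d) (Fin d) ℝ) : Prop where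
  off : ∀ i j : Fin d, i ≠ j → 0 ≤ Q i j
  col : ∀ j : Fin d, ∑ i : Fin d, Q i j = 0
  depth : ∀ μ ∈ R Q, μ.re ≤ s

lemma Deep.rate_nonneg (H : Deep s Q) (i : Fin d) : 0 ≤ -Q i i := by
  have h1 := H.col i
  rw [← Finset.add_sum_erase _ _ (Finset.mem_univ i)] at h1
  have h2 : 0 ≤ ∑ x ∈ Finset.univ.erase i, Q x i :=
    Finset.sum_nonneg fun x hx => H.off x i (Finset.mem_erase.mp hx).1
  linarith

lemma Deep.abs_diag (H : Deep s Q) (i : Fin d) : |Q i i| = -Q i i :=
  abs_of_nonpos (by have := H.rate_nonneg i; linarith)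

lemma Deep.off_sum (H : Deep s Q) (j : Fin d) :
    ∑ x ∈ Finset.univ.erase j, |Q x j| = -Q j j := by
  have h1 := H.col j
  rw [← Finset.add_sum_erase _ _ (Finset.mem_univ j)] at h1
  have h2 : ∑ x ∈ Finset.univ.erase j, |Q x j| = ∑ x ∈ Finset.univ.erase j, Q x j := by
    refine Finset.sum_congr rfl fun x hx => ?_
    exact abs_of_nonneg (H.off x j (Finset.mem_erase.mp hx).1)
  rw [h2]
  linarith

lemma Deep.col_norm (H : Deep s Q) (j : Fin d) : ∑ i : Fin d, |Q i j| = 2 * (-Q j j) := by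
  rw [← Finset.add_sum_erase _ _ (Finset.mem_univ j), H.off_sum, H.abs_diag]
  ring

/-- Gershgorin: the eigenvalues of `-Q` have nonnegative real part -/
lemma Deep.re_nonneg (H : Deep s Q) {μ : ℂ} (hμ : μ ∈ R Q) : 0 ≤ μ.re := by
  by_contra hc
  push Not at hc
  have h1 : (Matrix.scalar (Fin d) μ - cx (-Q)).det = 0 := by
    rw [← Matrix.eval_charpoly]
    exact (Polynomial.mem_roots'.mp hμ).2
  refine det_ne_zero_of_sum_col_lt_diag (fun k => ?_) h1
  have h2 : ∑ i ∈ Finset.univ.erase k, ‖(Matrix.scalar (Fin d) μ - cx (-Q)) i k‖ = -Q k k := by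
    rw [← H.off_sum k]
    refine Finset.sum_congr rfl fun i hi => ?_
    have hik : i ≠ k := (Finset.mem_erase.mp hi).1
    simp [Matrix.scalar_apply, Matrix.diagonal_apply_ne _ hik, cx_apply]
  rw [h2]
  have h3 : (Matrix.scalar (Fin d) μ - cx (-Q)) k k = μ + (Q k k : ℂ) := by
    simp [Matrix.scalar_apply, cx_apply]
  rw [h3]
  have h4 : -(μ + (Q k k : ℂ)).re ≤ ‖μ + (Q k k : ℂ)‖ :=
    (neg_le_abs _).trans (Complex.abs_re_le_norm _)
  rw [Complex.add_re, Complex.ofReal_re] at h4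
  linarith

lemma deep_of_hyp (H : Hyp M Q) : Deep (Real.log M) Q :=
  ⟨H.off, H.col, fun _ h => R_le H h⟩

lemma re_trace_sq {n : Type*} [Fintype n] [DecidableEq n] (B : Matrix n n ℝ)
    (A : Matrix n n ℂ) (h : ∀ i j, A i j = ((-B i j : ℝ) : ℂ)) :
    ((A ^ 2).trace).re = ∑ i, ∑ k, B i k * B k i := by
  rw [sq, Matrix.trace, Complex.re_sum]
  refine Finset.sum_congr rfl fun i _ => ?_
  rw [Matrix.diag_apply, Matrix.mul_apply, Complex.re_sum]
  refine Finset.sum_congr rfl fun k _ => ?_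
  rw [h, h, ← Complex.ofReal_mul, Complex.ofReal_re]
  ring

/-- The second moment of the rates above `ρ`. -/
theorem main_ineq (H : Deep s Q) {ρ : ℝ} (hρ : 0 < ρ) (hm : s ≤ 2 * ρ)
    (hne : ∃ j, ρ < -Q j j) :
    ∑ j ∈ Finset.univ.filter (fun j => ρ < -Q j j), (Q j j) ^ 2 ≤
      36 * ρ ^ 2 * ∑ j ∈ Finset.univ.filter (fun j => ρ < -Q j j),
        Real.log (1 + 2 * (-Q j j) / (3 * ρ)) := by
  classical
  set p : Fin d → Prop := fun j => ρ < -Q j j with hp
  let e : {j // p j} ⊕ {j // ¬p j} ≃ Fin d := Equiv.sumCompl p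
  let A11 : Matrix {j // p j} {j // p j} ℂ := fun i j => ((Q i.1 j.1 : ℝ) : ℂ)
  let A12 : Matrix {j // p j} {j // ¬p j} ℂ := fun i j => ((Q i.1 j.1 : ℝ) : ℂ)
  let A21 : Matrix {j // ¬p j} {j // p j} ℂ := fun i j => ((Q i.1 j.1 : ℝ) : ℂ)
  let A22 : Matrix {j // ¬p j} {j // ¬p j} ℂ := fun i j => ((Q i.1 j.1 : ℝ) : ℂ)
  have hB : (cx Q).submatrix e e = fromBlocks A11 A12 A21 A22 := by
    ext i j
    rcases i with i | i <;> rcases j with j | j <;> rfl
  have hdet : ∀ w : ℂ, (1 - w • cx Q).det = (1 - w • fromBlocks A11 A12 A21 A22).det := by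
    intro w
    rw [← hB, ← Matrix.det_submatrix_equiv_self e (1 - w • cx Q)]
    congr 1
    ext i j
    simp [Matrix.one_apply]
  -- column sums
  have hcolsum : ∀ j : Fin d, ∑ i : {i // p i}, |Q i.1 j| + ∑ i : {i // ¬p i}, |Q i.1 j| =
      2 * (-Q j j) := by
    intro j
    rw [← H.col_norm j, ← Equiv.sum_comp e, Fintype.sum_sum_type]
    rfl
  have h1 : ∀ j : {j // p j}, ∑ i, ‖A11 i j‖ + ∑ i, ‖A21 i j‖ ≤ 2 * (-Q j.1 j.1) := by
    intro j
    have := hcolsum j.1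
    simp only [A11, A21, Complex.norm_real, Real.norm_eq_abs]
    exact this.le
  have h22' : ∀ j : {j // ¬p j}, -Q j.1 j.1 ≤ ∑ i : {i // ¬p i}, |Q i.1 j.1| := by
    intro j
    have h3 : |Q j.1 j.1| ≤ ∑ i : {i // ¬p i}, |Q i.1 j.1| :=
      Finset.single_le_sum (f := fun i : {i // ¬p i} => |Q i.1 j.1|) (fun i _ => abs_nonneg _)
        (Finset.mem_univ j)
    exact (neg_le_abs _).trans h3
  have hslow : ∀ j : {j // ¬p j}, -Q j.1 j.1 ≤ ρ := fun j => not_lt.1 j.2
  have h12 : ∀ j : {j // ¬p j}, ∑ i, ‖A12 i j‖ ≤ ρ := by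
    intro j
    have h3 := hcolsum j.1
    have h4 := h22' j
    have h5 := hslow j
    simp only [A12, Complex.norm_real, Real.norm_eq_abs]
    linarith
  have h22 : ∀ j : {j // ¬p j}, ∑ i, ‖A22 i j‖ ≤ 2 * ρ := by
    intro j
    have h3 := hcolsum j.1
    have h5 := hslow j
    have h6 : 0 ≤ ∑ i : {i // p i}, |Q i.1 j.1| := Finset.sum_nonneg fun i _ => abs_nonneg _
    simp only [A22, Complex.norm_real, Real.norm_eq_abs]
    linarith
  -- the roots
  set R2 : Multiset ℂ := (-A22).charpoly.roots with hR2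
  have hprod1 : ∀ w : ℂ, (1 - w • cx Q).det = ((R Q).map fun μ => 1 + w * μ).prod := by
    intro w
    rw [R, ← det_one_add, map_neg, smul_neg, sub_eq_add_neg]
  have hprod2 : ∀ w : ℂ, (1 - w • A22).det = (R2.map fun μ => 1 + w * μ).prod := by
    intro w
    rw [hR2, ← det_one_add, smul_neg, sub_eq_add_neg]
  have hR2le : ∀ ν ∈ R2, ‖ν‖ ≤ 2 * ρ := by
    intro ν hν
    by_contra hc
    push Not at hc
    have hν0 : ν ≠ 0 := by
      rintro rfl
      rw [norm_zero] at hc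
      linarith
    have h3 : ‖-ν⁻¹‖ * (2 * ρ) < 1 := by
      rw [norm_neg, norm_inv, inv_mul_lt_iff₀ (norm_pos_iff.2 hν0), mul_one]
      exact hc
    have h4 := det_ne_zero_of_small A22 h22 (-ν⁻¹) h3
    rw [hprod2] at h4
    apply h4
    apply Multiset.prod_eq_zero
    rw [Multiset.mem_map]
    refine ⟨ν, hν, ?_⟩
    field_simp
    ring
  set r : ℝ := 1 / (9 * ρ ^ 2) with hr
  have hr0 : 0 < r := by positivity
  set B : ℝ := 2 * ∑ j : {j // p j}, Real.log (1 + 2 * (-Q j.1 j.1) / (3 * ρ)) with hBdef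
  have hfac : ∀ j : {j // p j}, 1 < 1 + 2 * (-Q j.1 j.1) / (3 * ρ) := by
    intro j
    have h3 : 0 < -Q j.1 j.1 := lt_trans hρ j.2
    have : 0 < 2 * (-Q j.1 j.1) / (3 * ρ) := by positivity
    linarith
  have hB0 : 0 < B := by
    obtain ⟨j, hj⟩ := hne
    have : 0 < ∑ j : {j // p j}, Real.log (1 + 2 * (-Q j.1 j.1) / (3 * ρ)) := by
      refine Finset.sum_pos (fun j _ => Real.log_pos (hfac j)) ⟨⟨j, hj⟩, Finset.mem_univ _⟩
    rw [hBdef]
    linarith
  have hexpB : Real.exp B = (∏ j : {j // p j}, (1 + 2 * (-Q j.1 j.1) / (3 * ρ))) ^ 2 := by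
    rw [hBdef, mul_comm, Real.exp_mul, Real.exp_sum]
    rw [show (2 : ℝ) = ((2 : ℕ) : ℝ) by norm_num, Real.rpow_natCast]
    congr 1
    push_cast
    exact Finset.prod_congr rfl fun j _ => Real.exp_log (lt_trans one_pos (hfac j))
  have hratio : ∀ w : ℂ, ‖w‖ = 1 / (3 * ρ) →
      ‖((R Q).map fun μ => 1 + w * μ).prod‖ ≤
        (∏ j : {j // p j}, (1 + 2 * (-Q j.1 j.1) / (3 * ρ))) *
          ‖(R2.map fun μ => 1 + w * μ).prod‖ := by
    intro w hw
    have h3 := det_ratio A11 A12 A21 A22 (fun j => -Q j.1 j.1) w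
      (by rw [hw]; field_simp; rfl) h1 h12 h22
    rw [← hdet, hprod1, hprod2] at h3
    refine h3.trans (le_of_eq ?_)
    congr 1
    refine Finset.prod_congr rfl fun j _ => ?_
    rw [hw]
    ring
  have hmain := bc_multiset ((R Q).map (fold r)) (R2.map fun ν => ν ^ 2) hr0 hB0
    (by
      intro x hx
      obtain ⟨μ, _, rfl⟩ := Multiset.mem_map.1 hx
      exact fold_norm hr0 μ)
    (by
      intro x hx
      obtain ⟨ν, hν, rfl⟩ := Multiset.mem_map.1 hx
      have h3 := hR2le ν hν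
      rw [norm_pow, hr]
      have h4 : ‖ν‖ ^ 2 ≤ (2 * ρ) ^ 2 := pow_le_pow_left₀ (norm_nonneg _) h3 2
      rw [mul_one_div, div_lt_one (by positivity)]
      nlinarith)
    (by
      intro v hv
      obtain ⟨w, hw⟩ := IsAlgClosed.exists_pow_nat_eq v (n := 2) two_pos
      have hwn : ‖w‖ = 1 / (3 * ρ) := by
        have h3 : ‖w‖ ^ 2 = (1 / (3 * ρ)) ^ 2 := by
          rw [← norm_pow, hw, hv, hr]
          field_simp
          norm_num
        exact (pow_left_inj₀ (norm_nonneg _) (by positivity) two_ne_zero).1 h3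
      have h3 := hratio w hwn
      have h4 := hratio (-w) (by rw [norm_neg]; exact hwn)
      have hsplit : ∀ s : Multiset ℂ, ‖(s.map fun μ => 1 - μ ^ 2 * v).prod‖ =
          ‖(s.map fun μ => 1 + w * μ).prod‖ * ‖(s.map fun μ => 1 + -w * μ).prod‖ := by
        intro s
        rw [← norm_mul, ← Multiset.prod_map_mul]
        congr 2
        apply Multiset.map_congr rfl
        intro μ _
        rw [← hw]
        ring
      rw [Multiset.map_map, Multiset.map_map]
      have h5 : ‖((R Q).map ((fun x => 1 - x * v) ∘ fold r)).prod‖ ≤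
          ‖((R Q).map fun μ => 1 - μ ^ 2 * v).prod‖ := by
        rw [norm_prod_map, norm_prod_map]
        exact Multiset.prod_map_le_prod_map₀ _ _ (fun μ _ => norm_nonneg _)
          (fun μ _ => fold_le hr0 μ v hv)
      refine h5.trans ?_
      rw [hsplit]
      have h6 : ‖(R2.map ((fun x => 1 - x * v) ∘ fun ν => ν ^ 2)).prod‖ =
          ‖(R2.map fun μ => 1 + w * μ).prod‖ * ‖(R2.map fun μ => 1 + -w * μ).prod‖ := hsplit R2
      rw [h6, hexpB]
      refine (mul_le_mul h3 h4 (norm_nonneg _) ?_).trans (le_of_eq (by ring))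
      refine mul_nonneg (Finset.prod_nonneg fun j _ => ?_) (norm_nonneg _)
      exact (lt_trans one_pos (hfac j)).le)
  -- the real parts
  have hre1 : (((R Q).map fun μ => μ ^ 2).sum).re ≤ (((R Q).map (fold r)).sum).re := by
    rw [re_sum_map, re_sum_map]
    apply Multiset.sum_map_le_sum_map
    intro μ hμ
    apply fold_re
    intro hbig
    have ha := H.depth μ hμ
    have hb := H.re_nonneg hμ
    have h3 : 9 * ρ ^ 2 < ‖μ‖ * ‖μ‖ := by
      rw [hr, mul_one_div, lt_div_iff₀ (by positivity), one_mul] at hbig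
      exact hbig
    have h4 : ‖μ‖ * ‖μ‖ = μ.re ^ 2 + μ.im ^ 2 := by
      rw [← sq, ← Complex.normSq_eq_norm_sq, Complex.normSq_apply]
      ring
    have h5 : (μ ^ 2).re = μ.re ^ 2 - μ.im ^ 2 := by
      rw [sq, Complex.mul_re]; ring
    rw [h5]
    have h6 : μ.re ≤ 2 * ρ := ha.trans hm
    have h7 : μ.re ^ 2 ≤ (2 * ρ) ^ 2 := pow_le_pow_left₀ hb h6 2
    nlinarith
  have htr1 : (((R Q).map fun μ => μ ^ 2).sum).re = ∑ i, ∑ k, Q i k * Q k i := by
    rw [R, ← trace_sq_eq]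
    exact re_trace_sq Q _ fun i j => by rw [map_neg]; simp [cx_apply]
  have htr2 : ((R2.map fun μ => μ ^ 2).sum).re =
      ∑ i : {i // ¬p i}, ∑ k : {k // ¬p k}, Q i.1 k.1 * Q k.1 i.1 := by
    rw [hR2, ← trace_sq_eq]
    exact re_trace_sq (fun i j : {i // ¬p i} => Q i.1 j.1) _ fun i j => by simp [A22]
  have hg : ∀ i k : Fin d, 0 ≤ Q i k * Q k i := by
    intro i k
    by_cases hik : i = k
    · subst hik; exact mul_self_nonneg _
    · exact mul_nonneg (H.off i k hik) (H.off k i (Ne.symm hik))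
  have hdiff : ∑ j : {j // p j}, (Q j.1 j.1) ^ 2 +
      ∑ i : {i // ¬p i}, ∑ k : {k // ¬p k}, Q i.1 k.1 * Q k.1 i.1 ≤
      ∑ i, ∑ k, Q i k * Q k i := by
    rw [← Equiv.sum_comp e, Fintype.sum_sum_type]
    refine add_le_add (Finset.sum_le_sum fun i _ => ?_) (Finset.sum_le_sum fun i _ => ?_)
    · have : Q i.1 i.1 * Q i.1 i.1 ≤ ∑ k, Q i.1 k * Q k i.1 :=
        Finset.single_le_sum (f := fun k => Q i.1 k * Q k i.1) (fun k _ => hg _ _)
          (Finset.mem_univ i.1)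
      rw [sq]
      exact this
    · have h3 : ∑ k : Fin d, Q i.1 k * Q k i.1 =
          ∑ k : {k // p k}, Q i.1 k.1 * Q k.1 i.1 + ∑ k : {k // ¬p k}, Q i.1 k.1 * Q k.1 i.1 := by
        rw [← Equiv.sum_comp e, Fintype.sum_sum_type]
        rfl
      have h4 : 0 ≤ ∑ k : {k // p k}, Q i.1 k.1 * Q k.1 i.1 :=
        Finset.sum_nonneg fun k _ => hg _ _
      change _ ≤ ∑ k : Fin d, Q i.1 k * Q k i.1
      linarith
  have hsub : ∀ F : Fin d → ℝ, ∑ j ∈ Finset.univ.filter (fun j => ρ < -Q j j), F j =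
      ∑ j : {j // p j}, F j.1 := by
    intro F
    exact Finset.sum_subtype _ (fun x => by simp [hp]) F
  rw [hsub, hsub]
  have hfin : 2 * B / r = 36 * ρ ^ 2 *
      ∑ j : {j // p j}, Real.log (1 + 2 * (-Q j.1 j.1) / (3 * ρ)) := by
    rw [hBdef, hr]
    field_simp
    ring
  rw [← hfin]
  linarith

/-- At every scale `ρ ≥ s / 2` the mean square of the rates above `ρ` is at most `68 ρ²`. -/
theorem scale_bound (H : Deep s Q) {ρ : ℝ} (hρ : 0 < ρ) (hm : s ≤ 2 * ρ) :
    ∑ j ∈ Finset.univ.filter (fun j => ρ < -Q j j), (Q j j) ^ 2 ≤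
      68 * ρ ^ 2 * (Finset.univ.filter (fun j => ρ < -Q j j)).card := by
  by_cases hne : ∃ j, ρ < -Q j j
  swap
  · have : Finset.univ.filter (fun j => ρ < -Q j j) = ∅ := by
      rw [Finset.filter_eq_empty_iff]
      intro j _ hj
      exact hne ⟨j, hj⟩
    rw [this]
    simp
  have h1 := main_ineq H hρ hm hne
  set S := Finset.univ.filter (fun j => ρ < -Q j j) with hS
  -- pointwise estimate
  have hpt : ∀ j ∈ S, 36 * ρ ^ 2 * Real.log (1 + 2 * (-Q j j) / (3 * ρ)) ≤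
      54 * ρ ^ 2 + (Q j j) ^ 2 * (205 / 1000) := by
    intro j hj
    have hj' : ρ < -Q j j := by simpa [hS] using hj
    set l := -Q j j with hl
    have hl0 : 0 < l := lt_trans hρ hj'
    have hQ : Q j j = -l := by rw [hl]; ring
    set y : ℝ := 1 + 2 * l / (3 * ρ) with hy
    have hy0 : 0 < y := by positivity
    have he : (7389 / 1000 : ℝ) ≤ Real.exp 2 := by
      have h3 := Real.exp_one_gt_d9
      have h4 : Real.exp 2 = Real.exp 1 * Real.exp 1 := by rw [← Real.exp_add]; norm_num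
      rw [h4]
      nlinarith
    have hlog : Real.log y ≤ 1 + y / (7389 / 1000) := by
      have h3 : Real.log (y / Real.exp 2) ≤ y / Real.exp 2 - 1 :=
        Real.log_le_sub_one_of_pos (by positivity)
      rw [Real.log_div hy0.ne' (Real.exp_pos 2).ne', Real.log_exp] at h3
      have h4 : y / Real.exp 2 ≤ y / (7389 / 1000) :=
        div_le_div_of_nonneg_left hy0.le (by norm_num) he
      linarith
    have h5 : 36 * ρ ^ 2 * Real.log y ≤ 36 * ρ ^ 2 * (1 + y / (7389 / 1000)) :=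
      mul_le_mul_of_nonneg_left hlog (by positivity)
    refine h5.trans ?_
    have h6 : ρ ^ 2 * y = ρ ^ 2 + 2 / 3 * (ρ * l) := by
      rw [hy]
      field_simp
    have h7 : 36 * ρ ^ 2 * (1 + y / (7389 / 1000)) =
        36 * ρ ^ 2 + 36 * 1000 / 7389 * (ρ ^ 2 * y) := by ring
    rw [h7, h6, hQ]
    nlinarith [sq_nonneg (l - 8 * ρ)]
  have h2 : ∑ j ∈ S, 36 * ρ ^ 2 * Real.log (1 + 2 * (-Q j j) / (3 * ρ)) ≤
      ∑ j ∈ S, (54 * ρ ^ 2 + (Q j j) ^ 2 * (205 / 1000)) := Finset.sum_le_sum hpt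
  have h4 : ∑ j ∈ S, (54 * ρ ^ 2 + (Q j j) ^ 2 * (205 / 1000)) =
      (S.card : ℝ) * (54 * ρ ^ 2) + (∑ j ∈ S, (Q j j) ^ 2) * (205 / 1000) := by
    rw [Finset.sum_add_distrib, Finset.sum_const, nsmul_eq_mul, Finset.sum_mul]
  rw [← Finset.mul_sum, h4] at h2
  have h3 : 0 ≤ (S.card : ℝ) * ρ ^ 2 := by positivity
  nlinarith

/-- There is no gap in the set of rates above `s / 2`. -/
theorem no_gap (H : Deep s Q) {ρ : ℝ} (hρ : 0 < ρ) (hm : s ≤ 2 * ρ) (hne : ∃ j, ρ < -Q j j) :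
    ∃ j, ρ < -Q j j ∧ (Q j j) ^ 2 ≤ 68 * ρ ^ 2 := by
  by_contra hc
  push Not at hc
  have h1 := scale_bound H hρ hm
  obtain ⟨j0, hj0⟩ := hne
  have h2 : ∑ j ∈ Finset.univ.filter (fun j => ρ < -Q j j), (68 * ρ ^ 2) <
      ∑ j ∈ Finset.univ.filter (fun j => ρ < -Q j j), (Q j j) ^ 2 := by
    refine Finset.sum_lt_sum_of_nonempty ⟨j0, by simpa using hj0⟩ fun j hj => ?_
    exact hc j (by simpa using hj)
  rw [Finset.sum_const, nsmul_eq_mul] at h2
  linarith

lemma sqrt68_pos : 0 < Real.sqrt 68 := Real.sqrt_pos.2 (by norm_num)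

lemma one_le_sqrt68 : 1 ≤ Real.sqrt 68 := by
  rw [Real.one_le_sqrt]
  norm_num

/-- the rates are bounded in terms of the number of different rates above `ρ` -/
theorem distinct_aux (H : Deep s Q) (k : ℕ) : ∀ ρ : ℝ, 0 < ρ → s ≤ 2 * ρ →
    ((Finset.univ.filter (fun j => ρ < -Q j j)).image fun j => -Q j j).card ≤ k →
    ∀ j, -Q j j ≤ Real.sqrt 68 ^ k * ρ := by
  classical
  induction k with
  | zero =>
    intro ρ hρ hm hk j
    rw [Nat.le_zero, Finset.card_eq_zero, Finset.image_eq_empty, Finset.filter_eq_empty_iff] at hk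
    have := hk (Finset.mem_univ j)
    rw [pow_zero, one_mul]
    exact not_lt.1 this
  | succ k ih =>
    intro ρ hρ hm hk j
    by_cases hne : ∃ j, ρ < -Q j j
    swap
    · have h1 : -Q j j ≤ ρ := not_lt.1 fun h => hne ⟨j, h⟩
      have h2 : 1 ≤ Real.sqrt 68 ^ (k + 1) := one_le_pow₀ one_le_sqrt68
      nlinarith
    obtain ⟨j1, hj1, hj2⟩ := no_gap H hρ hm hne
    -- the smallest rate above `ρ`
    have hv : -Q j1 j1 ≤ Real.sqrt 68 * ρ := by
      have h3 : (-Q j1 j1) ^ 2 ≤ (Real.sqrt 68 * ρ) ^ 2 := by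
        rw [mul_pow, Real.sq_sqrt (by norm_num), neg_sq]
        exact hj2
      exact (pow_le_pow_iff_left₀ (hρ.trans hj1).le
        (mul_nonneg sqrt68_pos.le hρ.le) two_ne_zero).1 h3
    have hsub : ((Finset.univ.filter (fun j => -Q j1 j1 < -Q j j)).image fun j => -Q j j) ⊆
        ((Finset.univ.filter (fun j => ρ < -Q j j)).image fun j => -Q j j).erase (-Q j1 j1) := by
      intro x hx
      rw [Finset.mem_image] at hx
      obtain ⟨i, hi, rfl⟩ := hx
      have hi' : -Q j1 j1 < -Q i i := by simpa using hi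
      rw [Finset.mem_erase]
      refine ⟨hi'.ne', Finset.mem_image_of_mem _ ?_⟩
      rw [Finset.mem_filter]
      exact ⟨Finset.mem_univ _, hj1.trans hi'⟩
    have hmem : -Q j1 j1 ∈ ((Finset.univ.filter (fun j => ρ < -Q j j)).image fun j => -Q j j) :=
      Finset.mem_image_of_mem _ (by rw [Finset.mem_filter]; exact ⟨Finset.mem_univ _, hj1⟩)
    have hcard : ((Finset.univ.filter (fun j => -Q j1 j1 < -Q j j)).image fun j => -Q j j).card ≤
        k := by
      have h4 := Finset.card_le_card hsub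
      rw [Finset.card_erase_of_mem hmem] at h4
      omega
    have h5 := ih (-Q j1 j1) (hρ.trans hj1) (hm.trans (by linarith)) hcard j
    refine h5.trans ?_
    rw [pow_succ, mul_assoc]
    exact mul_le_mul_of_nonneg_left hv (by positivity)

/-- the depth is nonnegative -/
lemma Deep.depth_nonneg (H : Deep s Q) (j : Fin d) : 0 ≤ s := by
  have h1 : 0 < (R Q).card := by
    rw [card_R]
    exact lt_of_le_of_lt (Nat.zero_le _) j.2
  obtain ⟨μ, hμ⟩ := Multiset.card_pos_iff_exists_mem.1 h1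
  exact (H.re_nonneg hμ).trans (H.depth μ hμ)

/-- depth zero: the generator is zero -/
lemma Deep.rate_eq_zero (H : Deep s Q) (hs : s = 0) (j : Fin d) : -Q j j = 0 := by
  have h1 : ((R Q).map fun μ => μ.re).sum ≤ ((R Q).map fun _ => (0 : ℝ)).sum := by
    apply Multiset.sum_map_le_sum_map
    intro μ hμ
    have := H.depth μ hμ
    rwa [hs] at this
  rw [sum_R] at h1
  have h2 : ((R Q).map fun _ => (0 : ℝ)).sum = 0 := by simp
  rw [h2] at h1
  have h3 : -Q j j ≤ ∑ i, -Q i i :=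
    Finset.single_le_sum (f := fun i => -Q i i) (fun i _ => H.rate_nonneg i) (Finset.mem_univ j)
  exact le_antisymm (h3.trans h1) (H.rate_nonneg j)

/-- the bound in terms of the number of different rates -/
theorem distinct_bound (H : Deep s Q) (k : ℕ)
    (hk : ((Finset.univ.filter (fun j => s / 2 < -Q j j)).image fun j => -Q j j).card ≤ k)
    (j : Fin d) : ∑ i : Fin d, |Q i j| ≤ Real.sqrt 68 ^ k * s := by
  rw [H.col_norm j]
  rcases (H.depth_nonneg j).eq_or_lt with h0 | h0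
  · rw [H.rate_eq_zero h0.symm j, ← h0]
    simp
  · have := distinct_aux H k (s / 2) (by linarith) (by linarith) hk j
    linarith

/-- the bound in terms of the number of rates above `s / 2` -/
theorem number_bound (H : Deep s Q) (j : Fin d) : ∑ i : Fin d, |Q i j| ≤
    max 1 (Real.sqrt (68 * (Finset.univ.filter (fun j => s / 2 < -Q j j)).card)) * s := by
  rw [H.col_norm j]
  rcases (H.depth_nonneg j).eq_or_lt with h0 | h0
  · rw [H.rate_eq_zero h0.symm j, ← h0]
    simp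
  · by_cases hj : s / 2 < -Q j j
    · have h1 := scale_bound H (ρ := s / 2) (by linarith) (by linarith)
      set S := Finset.univ.filter (fun j => s / 2 < -Q j j) with hS
      have h2 : (Q j j) ^ 2 ≤ ∑ i ∈ S, (Q i i) ^ 2 :=
        Finset.single_le_sum (f := fun i => (Q i i) ^ 2) (fun i _ => sq_nonneg _)
          (by rw [hS, Finset.mem_filter]; exact ⟨Finset.mem_univ _, hj⟩)
      have h3 : (2 * (-Q j j)) ^ 2 ≤ (Real.sqrt (68 * S.card) * s) ^ 2 := by
        rw [mul_pow (Real.sqrt _), Real.sq_sqrt (by positivity)]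
        nlinarith
      have h4 : 2 * (-Q j j) ≤ Real.sqrt (68 * S.card) * s :=
        (pow_le_pow_iff_left₀ (by linarith) (by positivity) two_ne_zero).1 h3
      exact h4.trans (mul_le_mul_of_nonneg_right (le_max_right _ _) h0.le)
    · have h1 : 2 * (-Q j j) ≤ 1 * s := by
        push Not at hj
        linarith
      exact h1.trans (mul_le_mul_of_nonneg_right (le_max_left _ _) h0.le)

/-- two groups of speeds -/
theorem two_groups (H : Deep s Q) {θ L : ℝ} (hθ : 0 < θ) (hL : ∀ j, -Q j j ≤ L)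
    (hex : ∃ j, θ * L ≤ -Q j j) (hgap : ∀ j, θ * L ≤ -Q j j ∨ -Q j j ≤ θ * L / 9) (j : Fin d) :
    ∑ i : Fin d, |Q i j| ≤ 9 / θ * s := by
  rw [H.col_norm j]
  have hs := H.depth_nonneg j
  have hL0 : 0 ≤ L := (H.rate_nonneg j).trans (hL j)
  rcases hL0.eq_or_lt with h0 | h0
  · have h1 : -Q j j ≤ 0 := by rw [h0]; exact hL j
    have h2 : 0 ≤ 9 / θ * s := by positivity
    linarith
  · have hc : θ * L / 9 < s / 2 := by
      by_contra hcon
      push Not at hcon
      obtain ⟨j0, hj0⟩ := hex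
      have hθL : 0 < θ * L := mul_pos hθ h0
      obtain ⟨i, hi1, hi2⟩ := no_gap H (ρ := θ * L / 9) (by positivity) (by linarith)
        ⟨j0, by linarith⟩
      rcases hgap i with h3 | h3
      · have h4 : (θ * L) ^ 2 ≤ (-Q i i) ^ 2 := pow_le_pow_left₀ hθL.le h3 2
        rw [neg_sq] at h4
        nlinarith [mul_pos hθL hθL]
      · linarith
    have h5 : 2 * L ≤ 9 / θ * s := by
      rw [div_mul_eq_mul_div, le_div_iff₀ hθ]
      linarith
    have := hL j
    linarith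

end MarkovScale
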